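import Mathlib

/-!
Amenability and the cost of a countable group.
-/

set_option autoImplicit false

namespace Pool.Agent.H718Z.CostDefs

open MeasureTheory
open scoped ENNReal

/-- A group is amenable if it carries a finitely additive, left invariant probability measure
defined on all of its subsets. -/
def IsAmenable (G : Type) [Group G] : Prop :=
  ∃ m : Set G → ℝ, (∀ A, 0 ≤ m A) ∧ m Set.univ = 1 ∧
    (∀ A B, Disjoint A B → m (A ∪ B) = m A + m B) ∧
    ∀ (g : G) (A : Set G), m ((fun x => g * x) '' A) = m A

/-- A graphing of an action of `G` on `(X, μ)`: countably many Borel bijections `φ i` from a Borel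
set `A i` onto a Borel set `B i`, moving each point inside its orbit, such that for almost every
point the connected component in the graph with edges from `a ∈ A i` to `φ i a` is its orbit. -/
def IsGraphing (G : Type) [Group G] {X : Type} [MeasurableSpace X] [MulAction G X]
    (μ : Measure X) (A B : ℕ → Set X) (φ : ℕ → X → X) : Prop :=
  (∀ i, MeasurableSet (A i)) ∧ (∀ i, MeasurableSet (B i)) ∧
  (∀ i, Measurable (fun a : A i => φ i a)) ∧ (∀ i, Set.BijOn (φ i) (A i) (B i)) ∧
  (∀ i, ∀ a ∈ A i, φ i a ∈ MulAction.orbit G a) ∧
  ∀ᵐ x ∂μ, ∀ y, Relation.EqvGen (fun a b => ∃ i, a ∈ A i ∧ b = φ i a) x y ↔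
    y ∈ MulAction.orbit G x

/-- The cost of an action: the infimum of the costs of its graphings. -/
noncomputable def actionCost (G : Type) [Group G] {X : Type} [MeasurableSpace X] [MulAction G X]
    (μ : Measure X) : ℝ≥0∞ :=
  ⨅ (A : ℕ → Set X) (B : ℕ → Set X) (φ : ℕ → X → X) (_ : IsGraphing G μ A B φ), ∑' i, μ (A i)

/-- The cost of a group: the infimum of the costs of its measure preserving Borel actions on
standard Borel probability spaces that are free outside a null set. -/
noncomputable def groupCost (G : Type) [Group G] : ℝ≥0∞ :=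
  ⨅ (X : Type) (_ : MeasurableSpace X) (_ : StandardBorelSpace X) (μ : Measure X)
    (_ : IsProbabilityMeasure μ) (_ : MulAction G X)
    (_ : ∀ g : G, MeasurePreserving (fun x : X => g • x) μ μ)
    (_ : ∀ᵐ x ∂μ, ∀ g : G, g • x = x → g = 1), actionCost G μ

end Pool.Agent.H718Z.CostDefs
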