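import Pool.Agent.H718Z.Main
import Pool.Agent.H718Z.CostDefs

/-!
Amenable groups have almost invariant sets; groups whose two-generated subgroups are amenable
have cost at most one.
-/

set_option autoImplicit false

namespace Pool.Agent.H718Z

open MeasureTheory CostDefs
open scoped ENNReal Pointwise

variable {G : Type} [Group G]

lemma mean_image {m : Set G → ℝ} (h0 : m ∅ = 0)
    (hadd : ∀ A B, Disjoint A B → m (A ∪ B) = m A + m B)
    (hinv : ∀ (g : G) (A : Set G), m ((fun x => g * x) '' A) = m A)
    (ψ σ : G → G) (hψ : Function.Injective ψ) (hσ : ∀ g, ψ g = σ g * g) (S : Finset G) :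
    m (ψ '' {g | σ g ∈ S}) = m {g | σ g ∈ S} := by
  classical
  induction S using Finset.induction_on with
  | empty => simp
  | insert s S hs ih =>
    have e : {g | σ g ∈ insert s S} = {g | σ g = s} ∪ {g | σ g ∈ S} := by
      ext g; simp
    have hd : Disjoint {g | σ g = s} {g | σ g ∈ S} := by
      rw [Set.disjoint_left]
      intro g h1 h2
      have h3 : σ g = s := h1
      exact hs (h3 ▸ h2)
    have e2 : ψ '' {g | σ g = s} = (fun x => s * x) '' {g | σ g = s} := by
      apply Set.image_congr
      intro g hg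
      have h3 : σ g = s := hg
      rw [hσ, h3]
    rw [e, Set.image_union, hadd _ _ hd, hadd _ _ (Set.disjoint_image_of_injective hψ hd), ih, e2,
      hinv]

lemma fol_of_amenable (hG : IsAmenable G) (T : Finset G) : Fol T := by
  classical
  by_contra hc
  simp only [Fol, not_forall, not_exists, not_and, not_le] at hc
  obtain ⟨K, hK⟩ := hc
  obtain ⟨S, hS⟩ := expand (insert 1 T) K (by
    intro A hA
    have h4 : A ⊆ insert 1 T * A := by
      intro x hx
      simpa using Finset.mul_mem_mul (Finset.mem_insert_self 1 T) hx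
    have h1 := hK (insert 1 T * A) (hA.mono h4)
    have h2 : A.card + (out (insert 1 T * A) T).card ≤ (insert 1 T * A).card := by
      rw [← Finset.card_union_of_disjoint]
      · apply Finset.card_le_card
        apply Finset.union_subset h4
        intro x hx
        exact (mem_out.mp hx).1
      · rw [Finset.disjoint_left]
        intro x h1 h2
        obtain ⟨-, t, a1, a2⟩ := mem_out.mp h2
        exact a2 (Finset.mul_mem_mul (Finset.mem_insert_of_mem a1) h1)
    have h3 := Finset.card_le_card h4
    nlinarith) 2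
  obtain ⟨φ, a1, a2, a3⟩ := hall_inj S S (by
    intro A1 A2
    rw [← Finset.mul_union]
    have h1 := hS (A1 ∪ A2)
    have h2 : A1.card ≤ (A1 ∪ A2).card := Finset.card_le_card Finset.subset_union_left
    have h3 : A2.card ≤ (A1 ∪ A2).card := Finset.card_le_card Finset.subset_union_right
    omega)
  choose σ1 b1 b2 using a2
  choose σ2 b3 b4 using a3
  obtain ⟨m, m1, m2, m3, m4⟩ := hG
  have h0 : m ∅ = 0 := by
    have := m3 ∅ ∅ (by simp)
    rw [Set.union_empty] at this
    linarith
  have c1 := mean_image h0 m3 m4 (fun g => φ (Sum.inl g)) σ1 (a1.comp Sum.inl_injective) b2 S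
  have c2 := mean_image h0 m3 m4 (fun g => φ (Sum.inr g)) σ2 (a1.comp Sum.inr_injective) b4 S
  have e1 : {g | σ1 g ∈ S} = Set.univ := Set.eq_univ_of_forall b1
  have e2 : {g | σ2 g ∈ S} = Set.univ := Set.eq_univ_of_forall b3
  rw [e1, m2] at c1
  rw [e2, m2] at c2
  have hd : Disjoint ((fun g => φ (Sum.inl g)) '' Set.univ) ((fun g => φ (Sum.inr g)) '' Set.univ) := by
    rw [Set.disjoint_left]
    rintro x ⟨g, -, rfl⟩ ⟨g', -, c⟩
    exact Sum.inr_ne_inl (a1 c)
  have c3 := m3 _ _ hd
  have c4 := m3 _ _ (disjoint_compl_right (a := (fun g => φ (Sum.inl g)) '' Set.univ ∪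
    (fun g => φ (Sum.inr g)) '' Set.univ))
  rw [Set.union_compl_self, m2, c3, c1, c2] at c4
  have := m1 ((fun g => φ (Sum.inl g)) '' Set.univ ∪ (fun g => φ (Sum.inr g)) '' Set.univ)ᶜ
  linarith

lemma fol_of_subgroup [DecidableEq G] (H : Subgroup G) (hH : IsAmenable H) (a b : G) (ha : a ∈ H)
    (hb : b ∈ H) : Fol ({a, b} : Finset G) := by
  classical
  intro K
  obtain ⟨B, h1, h2⟩ := fol_of_amenable hH {⟨a, ha⟩, ⟨b, hb⟩} K
  let e : H ↪ G := Function.Embedding.subtype _
  refine ⟨B.map e, h1.map, ?_⟩
  rw [Finset.card_map]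
  refine le_trans (Nat.mul_le_mul_left _ ?_) h2
  rw [← Finset.card_map e]
  apply Finset.card_le_card
  intro x hx
  obtain ⟨a1, t, a2, a3⟩ := mem_out.mp hx
  obtain ⟨y, hy, rfl⟩ := Finset.mem_map.mp a1
  refine Finset.mem_map_of_mem _ (mem_out.mpr ⟨hy, ?_⟩)
  simp only [Finset.mem_insert, Finset.mem_singleton] at a2
  rcases a2 with rfl | rfl
  · exact ⟨⟨t, ha⟩, by simp, fun h => a3 (Finset.mem_map_of_mem e h)⟩
  · exact ⟨⟨t, hb⟩, by simp, fun h => a3 (Finset.mem_map_of_mem e h)⟩

lemma groupCost_le_of_rc [Countable G] {c : ℝ≥0∞} (h : RC ∅ (Set.univ : Set G) c) :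
    groupCost G ≤ c := by
  obtain ⟨A, f, h1, h2, h3⟩ := exists_nat_graphing h
  have h4 : groupCost G ≤ actionCost G (μB G) := by
    unfold groupCost
    refine iInf_le_of_le (Bern G) (iInf_le_of_le inferInstance (iInf_le_of_le inferInstance
      (iInf_le_of_le (μB G) (iInf_le_of_le inferInstance (iInf_le_of_le inferInstance
        (iInf_le_of_le measurePreserving_smul' (iInf_le_of_le ae_free le_rfl)))))))
  refine h4.trans (le_trans ?_ h2)
  unfold actionCost
  refine iInf_le_of_le A (iInf_le_of_le (fun i => (fun ω => f i • ω) '' A i)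
    (iInf_le_of_le (fun i ω => f i • ω) (iInf_le_of_le ⟨h1, ?_, ?_, ?_, ?_, ?_⟩ le_rfl)))
  · intro i
    have e : (fun ω => f i • ω) '' A i = (fun ω : Bern G => (f i)⁻¹ • ω) ⁻¹' A i := by
      ext ω
      constructor
      · rintro ⟨y, hy, rfl⟩
        simpa using hy
      · intro hω
        exact ⟨_, hω, by simp⟩
    show MeasurableSet ((fun ω => f i • ω) '' A i)
    rw [e]
    exact measurable_smul' _ (h1 i)
  · intro i
    exact (measurable_smul' _).comp measurable_subtype_coe
  · intro i
    exact (MulAction.injective (f i)).injOn.bijOn_image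
  · intro i a _
    exact MulAction.mem_orbit _ _
  · refine Filter.Eventually.of_forall fun x y => ⟨fun h => ?_, ?_⟩
    · have : (MulAction.orbitRel G (Bern G)) y x := by
        induction h with
        | rel x y h =>
          obtain ⟨i, -, rfl⟩ := h
          exact MulAction.mem_orbit _ _
        | refl x => exact Setoid.refl' _ x
        | symm x y _ ih => exact Setoid.symm' _ ih
        | trans x y z _ _ ih1 ih2 => exact Setoid.trans' _ ih2 ih1
      exact this
    · rintro ⟨g, rfl⟩
      exact h3 x g

theorem groupCost_le_one [Countable G]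
    (h : ∀ a b : G, IsAmenable (Subgroup.closure ({a, b} : Set G))) : groupCost G ≤ 1 := by
  classical
  refine ENNReal.le_of_forall_pos_le_add fun ε hε _ => ?_
  refine groupCost_le_of_rc (rc_of_fol2 (fun a b => fol_of_subgroup _ (h a b) a b ?_ ?_) ε
    (by simpa using hε.ne'))
  · exact Subgroup.subset_closure (by simp)
  · exact Subgroup.subset_closure (by simp)

end Pool.Agent.H718Z
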