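import Mathlib

/-!
The Bernoulli shift of a countable group with base the unit interval, graphings of it by
restrictions of group elements, and relative cost estimates.
-/

set_option autoImplicit false

namespace Pool.Agent.H718Z

open MeasureTheory ProbabilityTheory
open scoped ENNReal unitInterval

/-- The space of labellings of `G` by numbers in the unit interval. -/
def Bern (G : Type) : Type := G → I

variable {G : Type}

instance : MeasurableSpace (Bern G) := inferInstanceAs (MeasurableSpace (G → I))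

instance [Countable G] : StandardBorelSpace (Bern G) :=
  inferInstanceAs (StandardBorelSpace (G → I))

/-- The label of a group element. -/
def lab (ω : Bern G) (g : G) : I := ω g

/-- The product measure. -/
noncomputable def μB (G : Type) : Measure (Bern G) :=
  Measure.infinitePi (fun _ : G => (volume : Measure I))

instance : IsProbabilityMeasure (μB G) :=
  inferInstanceAs (IsProbabilityMeasure (Measure.infinitePi (fun _ : G => (volume : Measure I))))

lemma measurable_lab (g : G) : Measurable (fun ω : Bern G => lab ω g) :=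
  measurable_pi_apply (X := fun _ : G => I) g

lemma meas_le (g : G) (p : I) : μB G {ω | lab ω g ≤ p} = ENNReal.ofReal p := by
  have h := (measurePreserving_eval_infinitePi (fun _ : G => (volume : Measure I)) g).measure_preimage
    (s := Set.Iic p) measurableSet_Iic.nullMeasurableSet
  rw [unitInterval.volume_Iic] at h
  exact h

lemma meas_all_le (E : Finset G) (p : I) :
    μB G {ω | ∀ e ∈ E, lab ω e ≤ p} = ENNReal.ofReal p ^ E.card := by
  have h := Measure.infinitePi_pi (fun _ : G => (volume : Measure I)) (s := E)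
    (t := fun _ => Set.Iic p) (fun _ _ => measurableSet_Iic)
  simp only [unitInterval.volume_Iic, Finset.prod_const] at h
  exact h

lemma ofReal_le_one' (p : I) : ENNReal.ofReal p ≤ 1 := ENNReal.ofReal_le_one.mpr p.2.2

lemma meas_patterns {ι : Type} (p : I) (n : ℕ) (E : ι → Finset G) (J : Finset ι)
    (hd : (J : Set ι).PairwiseDisjoint E) (hn : ∀ j ∈ J, (E j).card ≤ n) :
    μB G {ω | ∀ j ∈ J, ∃ e ∈ E j, p < lab ω e} ≤ (1 - ENNReal.ofReal p ^ n) ^ J.card := by
  classical
  induction J using Finset.induction_on with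
  | empty => simp
  | insert j J hj ih =>
    have hd' : (J : Set ι).PairwiseDisjoint E := hd.subset (by simp)
    have ih' := ih hd' (fun i hi => hn i (Finset.mem_insert_of_mem hi))
    have hdis : Disjoint (E j) (J.biUnion E) := by
      rw [Finset.disjoint_biUnion_right]
      intro i hi
      exact hd (by simp) (by simp [hi]) (fun h => hj (h ▸ hi))
    have hind := (iIndepFun_infinitePi (P := fun _ : G => (volume : Measure I))
      (X := fun _ x => x) (fun _ => measurable_id)).indepFun_finset (E j) (J.biUnion E) hdis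
      (fun i => measurable_pi_apply i)
    let s : Set (E j → I) := {x | ∃ e : E j, p < x e}
    let t : Set (J.biUnion E → I) := {x | ∀ i ∈ J, ∃ e : J.biUnion E, e.1 ∈ E i ∧ p < x e}
    have hs : MeasurableSet s := by
      simp only [s, Set.ofPred_exists]
      exact MeasurableSet.iUnion fun e => measurableSet_lt measurable_const (measurable_pi_apply e)
    have ht : MeasurableSet t := by
      have : t = ⋂ i ∈ J, ⋃ e : J.biUnion E, ⋃ (_ : e.1 ∈ E i), {x | p < x e} := by
        ext x; simp only [t, Set.mem_ofPred_eq, Set.mem_iInter, Set.mem_iUnion, exists_prop]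
      rw [this]
      exact Finset.measurableSet_biInter _ fun i _ => MeasurableSet.iUnion fun e =>
        MeasurableSet.iUnion fun _ => measurableSet_lt measurable_const (measurable_pi_apply e)
    have h1 := hind.measure_inter_preimage_eq_mul s t hs ht
    have e1 : (fun (a : G → I) (i : E j) => a i) ⁻¹' s = {ω | ∀ e ∈ E j, ω e ≤ p}ᶜ := by
      ext ω; simp [s]
    have e2 : (fun (a : G → I) (i : J.biUnion E) => a i) ⁻¹' t =
        {ω | ∀ i ∈ J, ∃ e ∈ E i, p < ω e} := by
      ext ω
      simp only [t, Set.mem_preimage, Set.mem_ofPred_eq]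
      refine forall₂_congr fun i hi => ⟨?_, ?_⟩
      · rintro ⟨e, h1, h2⟩; exact ⟨e, h1, h2⟩
      · rintro ⟨e, h1, h2⟩; exact ⟨⟨e, Finset.mem_biUnion.mpr ⟨i, hi, h1⟩⟩, h1, h2⟩
    rw [e1, e2] at h1
    have e3 : {ω : Bern G | ∀ i ∈ insert j J, ∃ e ∈ E i, p < lab ω e} =
        {ω : Bern G | ∀ e ∈ E j, lab ω e ≤ p}ᶜ ∩ {ω | ∀ i ∈ J, ∃ e ∈ E i, p < lab ω e} := by
      ext ω; simp
    have h2 : μB G ({ω : Bern G | ∀ e ∈ E j, lab ω e ≤ p}ᶜ ∩
        {ω | ∀ i ∈ J, ∃ e ∈ E i, p < lab ω e}) = μB G ({ω : Bern G | ∀ e ∈ E j, lab ω e ≤ p}ᶜ) *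
        μB G {ω | ∀ i ∈ J, ∃ e ∈ E i, p < lab ω e} := h1
    have hm : MeasurableSet {ω : Bern G | ∀ e ∈ E j, lab ω e ≤ p} := by
      have : {ω : Bern G | ∀ e ∈ E j, lab ω e ≤ p} = ⋂ e ∈ E j, {ω | lab ω e ≤ p} := by
        ext ω; simp
      rw [this]
      exact Finset.measurableSet_biInter _ fun e _ =>
        measurableSet_le (measurable_lab e) measurable_const
    rw [e3, h2, prob_compl_eq_one_sub hm, meas_all_le, Finset.card_insert_of_notMem hj, pow_succ']
    refine mul_le_mul' ?_ ih'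
    exact tsub_le_tsub_left (pow_le_pow_of_le_one zero_le (ofReal_le_one' p)
      (hn j (Finset.mem_insert_self _ _))) _

lemma meas_all_gt (A : Finset G) (p : I) :
    μB G {ω | ∀ u ∈ A, p < lab ω u} ≤ (1 - ENNReal.ofReal p) ^ A.card := by
  have := meas_patterns p 1 (fun u : G => ({u} : Finset G)) A
    (fun a _ b _ hab => by simpa using hab) (by simp)
  simpa using this

lemma meas_eq_zero {g h : G} (hgh : g ≠ h) : μB G {ω | lab ω g = lab ω h} = 0 := by
  have h1 := Measure.infinitePi_map_eval_prod (P := fun _ : G => (volume : Measure I)) hgh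
  have hm : MeasurableSet {x : I × I | x.1 = x.2} := measurableSet_eq_fun measurable_fst measurable_snd
  have h2 : ((volume : Measure I).prod volume) {x : I × I | x.1 = x.2} = 0 := by
    rw [Measure.prod_apply hm]
    have : ∀ x : I, (volume : Measure I) (Prod.mk x ⁻¹' {x : I × I | x.1 = x.2}) = 0 := by
      intro x
      have : (Prod.mk x ⁻¹' {x : I × I | x.1 = x.2}) = {x} := by
        ext y; simp [eq_comm]
      rw [this]; exact measure_singleton x
    simp only [this, lintegral_const, zero_mul]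
  rw [← h1, Measure.map_apply (by fun_prop) hm] at h2
  exact h2

lemma meas_not_inj [Countable G] : μB G {ω | ¬ Function.Injective (lab ω)} = 0 := by
  have : {ω : Bern G | ¬ Function.Injective (lab ω)} ⊆
      ⋃ g : G, ⋃ h : G, ⋃ (_ : g ≠ h), {ω | lab ω g = lab ω h} := by
    intro ω hω
    simp only [Function.Injective, not_forall, Set.mem_ofPred_eq] at hω
    obtain ⟨a, b, h1, h2⟩ := hω
    simp only [Set.mem_iUnion]
    exact ⟨a, b, h2, h1⟩
  refine measure_mono_null this ?_
  exact measure_iUnion_null fun g => measure_iUnion_null fun h => measure_iUnion_null fun hgh =>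
    meas_eq_zero hgh

variable [Group G]

instance : MulAction G (Bern G) where
  smul g ω := fun h => lab ω (h * g)
  one_smul ω := by
    funext h
    change lab ω (h * 1) = lab ω h
    rw [mul_one]
  mul_smul a b ω := by
    funext h
    change lab ω (h * (a * b)) = lab ω (h * a * b)
    rw [mul_assoc]

@[simp] lemma lab_smul (g : G) (ω : Bern G) (h : G) : lab (g • ω) h = lab ω (h * g) := rfl

lemma measurable_smul' (g : G) : Measurable (fun ω : Bern G => g • ω) :=
  measurable_pi_lambda (X := fun _ : G => I) _ (fun h => measurable_lab (h * g))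

lemma measurePreserving_smul' (g : G) :
    MeasurePreserving (fun ω : Bern G => g • ω) (μB G) (μB G) :=
  ⟨measurable_smul' g, Measure.map_infinitePi_infinitePi_of_inj
    (P := fun _ : G => (volume : Measure I)) (mul_left_injective g)⟩

lemma ae_free [Countable G] : ∀ᵐ ω ∂(μB G), ∀ g : G, g • ω = ω → g = 1 := by
  have h : ∀ᵐ ω ∂(μB G), Function.Injective (lab ω) := meas_not_inj
  filter_upwards [h] with ω hω g hg
  have := congrArg (fun x => lab x 1) hg
  simp only [lab_smul, one_mul] at this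
  exact hω this

/-- The equivalence relation generated by the restrictions of `t` to `Φ t`. -/
def Rel (Φ : G → Set (Bern G)) : Bern G → Bern G → Prop :=
  Relation.EqvGen (fun y z => ∃ t, y ∈ Φ t ∧ z = t • y)

lemma Rel.equiv (Φ : G → Set (Bern G)) : Equivalence (Rel Φ) := Relation.EqvGen.is_equivalence _

lemma Rel.edge {Φ : G → Set (Bern G)} {t : G} {y : Bern G} (h : y ∈ Φ t) : Rel Φ y (t • y) :=
  Relation.EqvGen.rel _ _ ⟨t, h, rfl⟩

/-- The group elements moving every point inside its class. -/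
def Cap (Φ : G → Set (Bern G)) : Subgroup G where
  carrier := {t | ∀ ω, Rel Φ ω (t • ω)}
  one_mem' := fun ω => by rw [one_smul]; exact (Rel.equiv Φ).refl ω
  mul_mem' := fun {a b} ha hb ω => by
    rw [mul_smul]; exact (Rel.equiv Φ).trans (hb ω) (ha _)
  inv_mem' := fun {a} ha ω => by
    have := ha (a⁻¹ • ω)
    rw [smul_inv_smul] at this
    exact (Rel.equiv Φ).symm this

/-- The cost of a graphing. -/
noncomputable def cost (Φ : G → Set (Bern G)) : ℝ≥0∞ := ∑' t, μB G (Φ t)

/-- The elements of `T` can be added to those of `S` at cost at most `η`. -/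
def RC (S T : Set G) (η : ℝ≥0∞) : Prop :=
  ∃ Ψ : G → Set (Bern G), cost Ψ ≤ η ∧
    ∀ Φ : G → Set (Bern G), (∀ t, Ψ t ⊆ Φ t) → S ⊆ Cap Φ → T ⊆ Cap Φ

lemma RC.mono {S T S' T' : Set G} {η η' : ℝ≥0∞} (h : RC S T η) (hη : η ≤ η')
    (hW : ∀ W : Subgroup G, S' ⊆ W → (S ⊆ W → T ⊆ W) → T' ⊆ W) : RC S' T' η' := by
  obtain ⟨Ψ, h1, h2⟩ := h
  exact ⟨Ψ, h1.trans hη, fun Φ hΦ hS => hW _ hS (h2 Φ hΦ)⟩

lemma RC.le {S T : Set G} {η η' : ℝ≥0∞} (h : RC S T η) (hη : η ≤ η') : RC S T η' :=
  h.mono hη (fun _ h1 h2 => h2 h1)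

lemma RC.of_rules {ι : Type} [Countable ι] (S T : ι → Set G) (η : ι → ℝ≥0∞)
    (h : ∀ i, RC (S i) (T i) (η i)) (S0 T0 : Set G)
    (hW : ∀ W : Subgroup G, S0 ⊆ W → (∀ i, S i ⊆ W → T i ⊆ W) → T0 ⊆ W) :
    RC S0 T0 (∑' i, η i) := by
  choose Ψ h1 h2 using h
  refine ⟨fun t => ⋃ i, Ψ i t, ?_, ?_⟩
  · calc cost (fun t => ⋃ i, Ψ i t) ≤ ∑' t, ∑' i, μB G (Ψ i t) :=
          ENNReal.tsum_le_tsum fun t => measure_iUnion_le _
      _ = ∑' i, ∑' t, μB G (Ψ i t) := ENNReal.tsum_comm
      _ ≤ _ := ENNReal.tsum_le_tsum h1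
  · intro Φ hΦ hS
    exact hW _ hS fun i => h2 i Φ fun t => (Set.subset_iUnion (fun i => Ψ i t) i).trans (hΦ t)

lemma RC.two {S T S' T' : Set G} {η η' : ℝ≥0∞} (h : RC S T η) (h' : RC S' T' η') (S0 T0 : Set G)
    (hW : ∀ W : Subgroup G, S0 ⊆ W → (S ⊆ W → T ⊆ W) → (S' ⊆ W → T' ⊆ W) → T0 ⊆ W) :
    RC S0 T0 (η + η') := by
  have := RC.of_rules (ι := Bool) (fun b => cond b S S') (fun b => cond b T T')
    (fun b => cond b η η') (by rintro (_ | _); exacts [h', h]) S0 T0
    (fun W h0 hr => hW W h0 (hr true) (hr false))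
  rwa [tsum_bool, add_comm] at this

lemma RC.finset {S : Set G} (T : Finset G) {η : ℝ≥0∞} (h : ∀ t ∈ T, RC S {t} η) :
    RC S T (T.card * η) := by
  have := RC.of_rules (ι := T) (fun _ => S) (fun t => {t.1}) (fun _ => η) (fun t => h t t.2) S T
    (fun W h0 hr t ht => hr ⟨t, ht⟩ h0 rfl)
  simpa using this

lemma RC.refl (S : Set G) (η : ℝ≥0∞) : RC S S η :=
  ⟨fun _ => ∅, by simp [cost], fun _ _ h => h⟩

omit [Group G] in
lemma cost_finset (Z : Finset G) (Φ : G → Set (Bern G)) (h : ∀ t, t ∉ Z → μB G (Φ t) = 0) :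
    cost Φ = ∑ t ∈ Z, μB G (Φ t) := tsum_eq_sum h

omit [Group G] in
lemma cost_union (Φ Ψ : G → Set (Bern G)) : cost (fun t => Φ t ∪ Ψ t) ≤ cost Φ + cost Ψ := by
  unfold cost
  rw [← ENNReal.tsum_add]
  exact ENNReal.tsum_le_tsum fun t => measure_union_le _ _

/-- If `t` is captured by `Ψ` outside `B` then `t` can be added at cost `cost Ψ + μ B`. -/
lemma RC.of_bad (S : Set G) (T : Finset G) (Ψ : G → Set (Bern G)) (B : G → Set (Bern G))
    (h : ∀ Φ : G → Set (Bern G), (∀ t, Ψ t ⊆ Φ t) → S ⊆ Cap Φ → ∀ t ∈ T, ∀ ω, ω ∉ B t →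
      Rel Φ ω (t • ω)) :
    RC S T (cost Ψ + ∑ t ∈ T, μB G (B t)) := by
  classical
  refine ⟨fun t => Ψ t ∪ (if t ∈ T then B t else ∅), ?_, ?_⟩
  · refine (cost_union _ _).trans (add_le_add le_rfl ?_)
    rw [cost_finset T _ (fun t ht => by simp [ht])]
    exact le_of_eq (Finset.sum_congr rfl fun t ht => by simp [ht])
  · intro Φ hΦ hS t ht ω
    by_cases hω : ω ∈ B t
    · apply Rel.edge
      apply hΦ t
      right
      have ht' : t ∈ T := ht
      simpa [ht'] using hω
    · exact h Φ (fun t => Set.subset_union_left.trans (hΦ t)) hS t ht ω hω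

/-- Random edges along disjoint patterns. -/
lemma RC.patterns {ι : Type} (S : Set G) (t : G) (Z : Finset G) (p : I) (n : ℕ)
    (E : ι → Finset G) (J : Finset ι)
    (hd : (J : Set ι).PairwiseDisjoint E) (hn : ∀ j ∈ J, (E j).card ≤ n)
    (h : ∀ j ∈ J, ∀ r : G → G → Prop, Equivalence r →
      (∀ h ∈ Subgroup.closure S, ∀ g, r g (h * g)) → (∀ e ∈ E j, ∀ z ∈ Z, r e (z * e)) → r 1 t) :
    RC S {t} (Z.card * ENNReal.ofReal p + (1 - ENNReal.ofReal p ^ n) ^ J.card) := by
  classical
  have := RC.of_bad S {t} (fun z => if z ∈ Z then {ω | lab ω 1 ≤ p} else ∅)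
    (fun _ => {ω | ∀ j ∈ J, ∃ e ∈ E j, p < lab ω e}) ?_
  · rw [Finset.coe_singleton] at this
    refine this.le (add_le_add ?_ ?_)
    · rw [cost_finset Z _ (fun t ht => by simp [ht])]
      rw [Finset.sum_congr rfl (g := fun _ => ENNReal.ofReal p) (fun t ht => by simp [ht, meas_le])]
      simp
    · rw [Finset.sum_singleton]
      exact meas_patterns p n E J hd hn
  · intro Φ hΦ hS t' ht' ω hω
    rw [Finset.mem_singleton] at ht'
    subst ht'
    simp only [Set.mem_ofPred_eq, not_forall, not_exists, not_and, not_lt] at hω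
    obtain ⟨j, hj, hω⟩ := hω
    have := h j hj (fun g g' => Rel Φ (g • ω) (g' • ω))
      ⟨fun _ => (Rel.equiv Φ).refl _, (Rel.equiv Φ).symm, (Rel.equiv Φ).trans⟩ ?_ ?_
    · simpa using this
    · intro h hh g
      rw [mul_smul]
      exact (Subgroup.closure_le (Cap Φ)).mpr hS hh _
    · intro e he z hz
      rw [mul_smul]
      apply Rel.edge
      apply hΦ z
      simpa [hz] using hω e he

/-- Covering lemma. -/
lemma RC.cover (S : Set G) (t : G) (A Z : Finset G) (p : I)
    (h1 : ∀ α ∈ A, ∃ z ∈ Z, α * z⁻¹ ∈ Subgroup.closure S)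
    (h2 : ∀ α ∈ A, ∃ z ∈ Z, t * α * z⁻¹ ∈ Subgroup.closure S) :
    RC S {t} (Z.card * ENNReal.ofReal p + (1 - ENNReal.ofReal p) ^ A.card) := by
  have := RC.patterns S t Z p 1 (fun α : G => ({α⁻¹} : Finset G)) A
    (fun a _ b _ hab => by simpa using hab) (by simp) ?_
  · simpa using this
  · intro α hα r hr hS hE
    obtain ⟨z, hz, hz'⟩ := h1 α hα
    obtain ⟨w, hw, hw'⟩ := h2 α hα
    have a1 := hE α⁻¹ (by simp) z hz
    have a2 := hE α⁻¹ (by simp) w hw
    have a3 := hS _ hz' (z * α⁻¹)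
    have a4 := hS _ hw' (w * α⁻¹)
    have e3 : α * z⁻¹ * (z * α⁻¹) = 1 := by group
    have e4 : t * α * w⁻¹ * (w * α⁻¹) = t := by group
    rw [e3] at a3
    rw [e4] at a4
    exact hr.trans (hr.symm (hr.trans a1 a3)) (hr.trans a2 a4)

/-- `β` carries the strictly smallest label on `U`. -/
def MinOn (U : Finset G) (β : G) : Set (Bern G) :=
  {ω | β ∈ U ∧ ∀ β' ∈ U, β' ≠ β → lab ω β < lab ω β'}

omit [Group G] in
lemma measurableSet_minOn (U : Finset G) (β : G) : MeasurableSet (MinOn U β) := by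
  by_cases h : β ∈ U
  · have : MinOn U β = ⋂ β' ∈ U, ⋂ (_ : β' ≠ β), {ω | lab ω β < lab ω β'} := by
      ext ω; simp [MinOn, h]
    rw [this]
    exact Finset.measurableSet_biInter _ fun e _ => MeasurableSet.iInter fun _ =>
      measurableSet_lt (measurable_lab _) (measurable_lab _)
  · have : MinOn U β = ∅ := by
      ext ω; simp [MinOn, h]
    rw [this]; exact MeasurableSet.empty

omit [Group G] in
lemma cost_minOn (U : Finset G) (A : Set (Bern G)) :
    cost (fun β => A ∩ MinOn U β) ≤ μB G A := by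
  rw [cost_finset U _ (fun t ht => by
    have : MinOn U t = ∅ := by
      ext ω; simp [MinOn, ht]
    simp [this])]
  calc ∑ t ∈ U, μB G (A ∩ MinOn U t) ≤ ∑ t ∈ U, μB G (toMeasurable (μB G) A ∩ MinOn U t) :=
        Finset.sum_le_sum fun t _ => measure_mono
          (Set.inter_subset_inter_left _ (subset_toMeasurable _ _))
    _ = μB G (⋃ t ∈ U, toMeasurable (μB G) A ∩ MinOn U t) := by
        rw [measure_biUnion_finset]
        · intro a _ b _ hab
          rw [Function.onFun, Set.disjoint_left]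
          rintro ω ⟨-, h1, h2⟩ ⟨-, h3, h4⟩
          exact lt_asymm (h2 b h3 hab.symm) (h4 a h1 hab)
        · intro b _
          exact (measurableSet_toMeasurable _ _).inter (measurableSet_minOn U b)
    _ ≤ μB G (toMeasurable (μB G) A) := measure_mono (by
        intro ω hω
        simp only [Set.mem_iUnion] at hω
        obtain ⟨_, _, h, _⟩ := hω
        exact h)
    _ = _ := measure_toMeasurable _

omit [Group G] in
lemma exists_minOn {U : Finset G} (hU : U.Nonempty) {ω : Bern G}
    (hω : Function.Injective (lab ω)) : ∃ β, ω ∈ MinOn U β := by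
  obtain ⟨β, h1, h2⟩ := U.exists_min_image (lab ω) hU
  exact ⟨β, h1, fun β' h3 h4 => lt_of_le_of_ne (h2 β' h3) (fun h => h4 (hω h).symm)⟩

/-- Finite extensions. -/
lemma RC.finite_ext [Countable G] (S : Set G) (F : Subgroup G) [Finite F] (hS : S ⊆ F)
    (A : Set (Bern G)) (hA : ∀ ω, ∃ s ∈ Subgroup.closure S, s • ω ∈ A) : RC S F (μB G A) := by
  classical
  have hF : (F : Set G).Finite := Set.toFinite _
  have := RC.of_bad S hF.toFinset (fun β => A ∩ MinOn hF.toFinset β)
    (fun _ => {ω | ¬ Function.Injective (lab ω)}) ?_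
  · rw [hF.coe_toFinset] at this
    refine this.le ?_
    simp only [meas_not_inj, Finset.sum_const_zero, add_zero]
    exact cost_minOn _ _
  · intro Φ hΦ hS' t ht ω hω
    simp only [Set.mem_ofPred_eq, not_not] at hω
    obtain ⟨β, hβ⟩ := exists_minOn (U := hF.toFinset) ⟨1, by simp⟩ hω
    have hβF : β ∈ F := by simpa using hβ.1
    have key : ∀ f ∈ F, Rel Φ (f • ω) (β • ω) := by
      intro f hf
      obtain ⟨s, hs, hsA⟩ := hA (f • ω)
      have hsF : s ∈ F := (Subgroup.closure_le F).mpr hS hs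
      have h1 : Rel Φ (f • ω) (s • f • ω) := (Subgroup.closure_le (Cap Φ)).mpr hS' hs _
      have h2 : s • f • ω ∈ Φ (β * (s * f)⁻¹) := by
        apply hΦ
        refine ⟨hsA, by simp [F.mul_mem, hβF, hsF, hf], ?_⟩
        intro β' h3 h4
        have h3' : β' ∈ F := by simpa using h3
        simp only [lab_smul]
        have e : β * (s * f)⁻¹ * s * f = β := by group
        rw [e]
        apply hβ.2
        · simp [F.mul_mem, h3', hsF, hf]
        · intro h5
          apply h4
          rw [← h5]; group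
      have h3 := Rel.edge h2
      rw [← mul_smul, ← mul_smul] at h3
      have e : β * (s * f)⁻¹ * (s * f) = β := by group
      rw [e] at h3
      rw [← mul_smul] at h1
      exact (Rel.equiv Φ).trans h1 h3
    have h1 := key 1 F.one_mem
    rw [one_smul] at h1
    exact (Rel.equiv Φ).trans h1 ((Rel.equiv Φ).symm (key t (by simpa using ht)))

lemma RC.finite_one [Countable G] (F : Subgroup G) [Finite F] : RC ∅ (F : Set G) 1 := by
  have := RC.finite_ext ∅ F (Set.empty_subset _) Set.univ (fun ω => ⟨1, Subgroup.one_mem _, trivial⟩)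
  simpa using this

lemma RC.finite_ext' [Countable G] (S : Finset G) (F : Subgroup G) [Finite F] (hS : (S : Set G) ⊆ F)
    (p : I) : RC (S : Set G) (F : Set G) (ENNReal.ofReal p + (1 - ENNReal.ofReal p) ^ S.card) := by
  have := RC.finite_ext S F hS ({ω | lab ω 1 ≤ p} ∪ {ω | ∀ u ∈ S, p < lab ω u}) ?_
  · refine this.le ((measure_union_le _ _).trans (add_le_add (meas_le 1 p).le (meas_all_gt S p)))
  · intro ω
    by_cases h : ∀ u ∈ S, p < lab ω u
    · exact ⟨1, Subgroup.one_mem _, Or.inr (by simpa using h)⟩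
    · push Not at h
      obtain ⟨u, h1, h2⟩ := h
      exact ⟨u, Subgroup.subset_closure h1, Or.inl (by simpa using h2)⟩

/-- Almost invariant sets give cheap graphings. -/
lemma RC.folner [Countable G] (U T : Finset G) (hU : U.Nonempty) (In D : G → Finset G) (p : G → I)
    (h1 : ∀ t ∈ T, ∀ u ∈ In t, u ∈ U ∧ u * t⁻¹ ∈ U)
    (h2 : ∀ t ∈ T, ∀ u ∈ U, (u ∈ In t ∨ u ∈ D t) ∧ (u * t ∈ In t ∨ u * t ∈ D t)) :
    RC ∅ (T : Set G) (1 + ∑ t ∈ T, ((D t).card * ENNReal.ofReal (p t) +
      (1 - ENNReal.ofReal (p t)) ^ (In t).card)) := by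
  classical
  have := RC.of_bad ∅ T (fun β => Set.univ ∩ MinOn U β)
    (fun t => ((⋃ u ∈ D t, {ω | lab ω u ≤ p t}) ∪ {ω | ∀ u ∈ In t, p t < lab ω u}) ∪
      {ω | ¬ Function.Injective (lab ω)}) ?_
  · refine this.le (add_le_add ((cost_minOn _ _).trans (by simp)) (Finset.sum_le_sum ?_))
    intro t _
    refine (measure_union_le _ _).trans ?_
    rw [meas_not_inj, add_zero]
    refine (measure_union_le _ _).trans (add_le_add ?_ (meas_all_gt _ _))
    refine (measure_biUnion_finset_le _ _).trans ?_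
    simp [meas_le]
  · intro Φ hΦ _ t ht ω hω
    simp only [Set.mem_union, Set.mem_iUnion, Set.mem_ofPred_eq, not_or, not_exists, not_le,
      not_forall, not_lt, not_not] at hω
    obtain ⟨⟨a1, u, hu, a2⟩, a3⟩ := hω
    obtain ⟨β, hβ1, hβ2⟩ := exists_minOn (U := In t) ⟨u, hu⟩ a3
    have hβp : lab ω β ≤ p t := by
      by_cases h : u = β
      · exact h ▸ a2
      · exact (hβ2 u hu h).le.trans a2
    have key : ∀ v, (v ∈ In t ∨ v ∈ D t) → v ≠ β → lab ω β < lab ω v := by
      rintro v (hv | hv) hne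
      · exact hβ2 v hv hne
      · exact hβp.trans_lt (a1 v hv)
    have b1 : ω ∈ Φ β := hΦ β ⟨trivial, (h1 t ht β hβ1).1, fun v hv hne =>
      key v (h2 t ht v hv).1 hne⟩
    have b2 : t • ω ∈ Φ (β * t⁻¹) := by
      refine hΦ _ ⟨trivial, (h1 t ht β hβ1).2, fun v hv hne => ?_⟩
      simp only [lab_smul, inv_mul_cancel_right]
      apply key _ (h2 t ht v hv).2
      intro h
      apply hne
      rw [← h]; simp
    have b3 := Rel.edge b2
    rw [← mul_smul, inv_mul_cancel_right] at b3
    exact (Rel.equiv Φ).trans (Rel.edge b1) ((Rel.equiv Φ).symm b3)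

end Pool.Agent.H718Z
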