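import Mathlib

/-!
Elementary character theory of finite groups over the complex numbers: closure properties of the
set of characters, cancellation in virtual characters of norm one, induced characters.
-/

set_option autoImplicit false

namespace Pool.Agent.H718Z

open Representation Module

section Char

variable {F : Type} [Group F] [Fintype F]

/-- `φ` is the character of a finite-dimensional complex representation. -/
def IsChar (φ : F → ℂ) : Prop :=
  ∃ (V : Type) (_ : AddCommGroup V) (_ : Module ℂ V) (_ : FiniteDimensional ℂ V)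
    (ρ : Representation ℂ F V), φ = ρ.character

/-- The standard bilinear form on functions on a finite group. -/
noncomputable def ip (φ ψ : F → ℂ) : ℂ := (Nat.card F : ℂ)⁻¹ * ∑ g : F, φ g * ψ g⁻¹

omit [Fintype F] in
lemma cardC_ne [Finite F] : (Nat.card F : ℂ) ≠ 0 := by
  exact_mod_cast (Nat.card_pos (α := F)).ne'

noncomputable instance invCard : Invertible (Nat.card F : ℂ) := invertibleOfNonzero cardC_ne

instance neZeroCard : NeZero (Nat.card F : ℂ) := ⟨cardC_ne⟩

lemma ip_comm (φ ψ : F → ℂ) : ip φ ψ = ip ψ φ := by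
  unfold ip
  congr 1
  rw [← Equiv.sum_comp (Equiv.inv F)]
  simp [mul_comm]

lemma ip_add_left (φ φ' ψ : F → ℂ) : ip (φ + φ') ψ = ip φ ψ + ip φ' ψ := by
  simp [ip, add_mul, Finset.sum_add_distrib, mul_add]

lemma ip_add_right (φ ψ ψ' : F → ℂ) : ip φ (ψ + ψ') = ip φ ψ + ip φ ψ' := by
  simp [ip, Finset.sum_add_distrib, mul_add]

lemma ip_sub_left (φ φ' ψ : F → ℂ) : ip (φ - φ') ψ = ip φ ψ - ip φ' ψ := by
  simp [ip, sub_mul, Finset.sum_sub_distrib, mul_sub]

lemma ip_sub_right (φ ψ ψ' : F → ℂ) : ip φ (ψ - ψ') = ip φ ψ - ip φ ψ' := by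
  simp [ip, Finset.sum_sub_distrib, mul_sub]

lemma ip_smul_left (c : ℂ) (φ ψ : F → ℂ) : ip (c • φ) ψ = c * ip φ ψ := by
  simp only [ip, Pi.smul_apply, smul_eq_mul, mul_assoc, ← Finset.mul_sum]; ring

lemma ip_smul_right (c : ℂ) (φ ψ : F → ℂ) : ip φ (c • ψ) = c * ip φ ψ := by
  rw [ip_comm, ip_smul_left, ip_comm]

lemma ip_one_one : ip (1 : F → ℂ) 1 = 1 := by
  simp only [ip, Pi.one_apply, mul_one, Finset.sum_const, Finset.card_univ, nsmul_eq_mul]
  rw [Fintype.card_eq_nat_card]
  exact inv_mul_cancel₀ cardC_ne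

omit [Fintype F] in
lemma IsChar.zero : IsChar (0 : F → ℂ) := by
  refine ⟨Fin 0 → ℂ, inferInstance, inferInstance, inferInstance, Representation.trivial ℂ F _, ?_⟩
  ext g
  simp [character]

omit [Fintype F] in
lemma IsChar.one : IsChar (1 : F → ℂ) := by
  refine ⟨ℂ, inferInstance, inferInstance, inferInstance, Representation.trivial ℂ F _, ?_⟩
  ext g
  simp [character]

omit [Fintype F] in
lemma IsChar.add {φ ψ : F → ℂ} (h1 : IsChar φ) (h2 : IsChar ψ) : IsChar (φ + ψ) := by
  obtain ⟨V, _, _, _, ρ, rfl⟩ := h1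
  obtain ⟨W, _, _, _, σ, rfl⟩ := h2
  refine ⟨V × W, inferInstance, inferInstance, inferInstance, ρ.prod σ, ?_⟩
  ext g
  simp only [character, Pi.add_apply]
  rw [← LinearMap.trace_prodMap']
  rfl

omit [Fintype F] in
lemma IsChar.nsmul {φ : F → ℂ} (h : IsChar φ) (n : ℕ) : IsChar ((n : ℂ) • φ) := by
  induction n with
  | zero => simpa using IsChar.zero
  | succ n ih =>
    have : ((n + 1 : ℕ) : ℂ) • φ = (n : ℂ) • φ + φ := by
      push_cast; rw [add_smul, one_smul]
    rw [this]; exact ih.add h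

omit [Fintype F] in
lemma IsChar.nat {φ : F → ℂ} (h : IsChar φ) : ∃ n : ℕ, φ 1 = n := by
  obtain ⟨V, _, _, _, ρ, rfl⟩ := h
  exact ⟨_, ρ.char_one⟩

omit [Fintype F] in
lemma IsChar.eq_zero {φ : F → ℂ} (h : IsChar φ) (h0 : φ 1 = 0) : φ = 0 := by
  obtain ⟨V, _, _, _, ρ, rfl⟩ := h
  rw [ρ.char_one] at h0
  have h1 : finrank ℂ V = 0 := by exact_mod_cast h0
  have : Subsingleton V := Module.finrank_zero_iff.mp h1
  ext g
  have : ρ g = 0 := Subsingleton.elim _ _
  simp [character, this]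

omit [Fintype F] in
lemma IsChar.conj {φ : F → ℂ} (h : IsChar φ) (g t : F) : φ (t * g * t⁻¹) = φ g := by
  obtain ⟨V, _, _, _, ρ, rfl⟩ := h
  exact ρ.char_conj g t

lemma IsChar.ip_nat {φ ψ : F → ℂ} (h1 : IsChar φ) (h2 : IsChar ψ) : ∃ n : ℕ, ip φ ψ = n := by
  obtain ⟨V, _, _, _, ρ, rfl⟩ := h1
  obtain ⟨W, _, _, _, σ, rfl⟩ := h2
  exact ⟨_, card_inv_mul_sum_char_mul_char_eq_finrank σ ρ⟩

lemma IsChar.eq_zero_of_ip {φ : F → ℂ} (h : IsChar φ) (h0 : ip φ φ = 0) : φ = 0 := by
  obtain ⟨V, _, _, _, ρ, rfl⟩ := h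
  have h1 := card_inv_mul_sum_char_mul_char_eq_finrank ρ ρ
  unfold ip at h0
  rw [h0] at h1
  have h2 : finrank ℂ (IntertwiningMap ρ ρ) = 0 := by exact_mod_cast h1.symm
  have h3 : Subsingleton (IntertwiningMap ρ ρ) := Module.finrank_zero_iff.mp h2
  have h4 : IntertwiningMap.id ρ = 0 := Subsingleton.elim _ _
  have h5 : ∀ v : V, v = 0 := fun v => by
    have := congrArg (fun f : IntertwiningMap ρ ρ => f v) h4
    simpa using this
  ext g
  have : ρ g = 0 := by ext v; simp [h5 v]
  simp [character, this]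

omit [Fintype F] in
/-- The character of the restriction to the range of a commuting idempotent. -/
lemma char_sub_of_proj {V : Type} [AddCommGroup V] [Module ℂ V] [FiniteDimensional ℂ V]
    (ρ : Representation ℂ F V) (U : Subrepresentation ρ) (P : V →ₗ[ℂ] V)
    (h1 : ∀ v, P v ∈ U.toSubmodule) (h2 : ∀ v ∈ U.toSubmodule, P v = v) (g : F) :
    U.toRepresentation.character g = LinearMap.trace ℂ V (ρ g ∘ₗ P) := by
  have hm : ∀ v, (ρ g ∘ₗ P) v ∈ U.toSubmodule := fun v => U.apply_mem_toSubmodule g (h1 v)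
  rw [← LinearMap.trace_restrict_eq_of_forall_mem U.toSubmodule _ hm]
  unfold character
  congr 1
  ext ⟨v, hv⟩
  simp [Subrepresentation.toRepresentation, h2 v hv]

omit [Fintype F] in
lemma char_add_of_isCompl {V : Type} [AddCommGroup V] [Module ℂ V] [FiniteDimensional ℂ V]
    (ρ : Representation ℂ F V) (U U' : Subrepresentation ρ) (h : IsCompl U U') :
    ρ.character = U.toRepresentation.character + U'.toRepresentation.character := by
  have hc : IsCompl U.toSubmodule U'.toSubmodule := by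
    constructor
    · rw [disjoint_iff]
      exact congrArg Subrepresentation.toSubmodule h.inf_eq_bot
    · rw [codisjoint_iff]
      exact congrArg Subrepresentation.toSubmodule h.sup_eq_top
  ext g
  rw [Pi.add_apply,
    char_sub_of_proj ρ U (U.toSubmodule.projection _ hc) (Submodule.projection_apply_mem hc)
      (fun v hv => Submodule.projection_apply_of_mem_left hc hv),
    char_sub_of_proj ρ U' (U'.toSubmodule.projection _ hc.symm)
      (Submodule.projection_apply_mem hc.symm)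
      (fun v hv => Submodule.projection_apply_of_mem_left hc.symm hv),
    ← map_add, ← LinearMap.comp_add, Submodule.projection_add_projection_eq_id hc]
  rfl

omit [Fintype F] in
lemma isChar_sub {V : Type} [AddCommGroup V] [Module ℂ V] [FiniteDimensional ℂ V]
    (ρ : Representation ℂ F V) (U : Subrepresentation ρ) : IsChar U.toRepresentation.character :=
  ⟨U.toSubmodule, inferInstance, inferInstance, inferInstance, _, rfl⟩

omit [Fintype F] in
lemma char_sub_ne {V : Type} [AddCommGroup V] [Module ℂ V] [FiniteDimensional ℂ V]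
    (ρ : Representation ℂ F V) (U : Subrepresentation ρ) (hU : U ≠ ⊥) :
    U.toRepresentation.character 1 ≠ 0 := by
  rw [char_one]
  intro h
  have h1 : finrank ℂ U.toSubmodule = 0 := by exact_mod_cast h
  apply hU
  apply Subrepresentation.toSubmodule_injective
  exact Submodule.finrank_eq_zero.mp h1

/-- Two characters that are not orthogonal have a common nonzero summand. -/
lemma IsChar.split {φ ψ : F → ℂ} (h1 : IsChar φ) (h2 : IsChar ψ) (h : ip φ ψ ≠ 0) :
    ∃ φ' ψ' θ : F → ℂ, IsChar φ' ∧ IsChar ψ' ∧ IsChar θ ∧ θ 1 ≠ 0 ∧ φ = φ' + θ ∧ ψ = ψ' + θ := by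
  obtain ⟨W, _, _, _, σ, rfl⟩ := h1
  obtain ⟨V, _, _, _, ρ, rfl⟩ := h2
  have h3 := card_inv_mul_sum_char_mul_char_eq_finrank ρ σ
  unfold ip at h
  rw [h3] at h
  have h4 : finrank ℂ (IntertwiningMap ρ σ) ≠ 0 := by exact_mod_cast h
  have h5 : Nontrivial (IntertwiningMap ρ σ) := Module.nontrivial_of_finrank_pos (Nat.pos_of_ne_zero h4)
  obtain ⟨f, hf⟩ := exists_ne (0 : IntertwiningMap ρ σ)
  obtain ⟨U', hU'⟩ := exists_isCompl f.ker
  obtain ⟨R', hR'⟩ := exists_isCompl f.range
  have hc : IsCompl f.ker.toSubmodule U'.toSubmodule := by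
    constructor
    · rw [disjoint_iff]
      exact congrArg Subrepresentation.toSubmodule hU'.inf_eq_bot
    · rw [codisjoint_iff]
      exact congrArg Subrepresentation.toSubmodule hU'.sup_eq_top
  let l : U'.toSubmodule →ₗ[ℂ] f.range.toSubmodule :=
    (f.toLinearMap.domRestrict U'.toSubmodule).codRestrict _ (fun v => ⟨v.1, rfl⟩)
  have hl : Function.Bijective l := by
    constructor
    · rw [injective_iff_map_eq_zero]
      rintro ⟨v, hv⟩ h0
      have h1 : f v = 0 := congrArg Subtype.val h0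
      have h2 : v ∈ f.ker.toSubmodule ⊓ U'.toSubmodule := ⟨h1, hv⟩
      rw [hc.inf_eq_bot] at h2
      exact Subtype.ext h2
    · rintro ⟨w, v, rfl⟩
      have hv : v ∈ f.ker.toSubmodule ⊔ U'.toSubmodule := by rw [hc.sup_eq_top]; trivial
      obtain ⟨a, ha, b, hb, rfl⟩ := Submodule.mem_sup.mp hv
      refine ⟨⟨b, hb⟩, Subtype.ext ?_⟩
      have ha' : f.toLinearMap a = 0 := ha
      change f.toLinearMap b = f.toLinearMap (a + b)
      rw [map_add, ha', zero_add]
  have he : U'.toRepresentation.character = f.range.toRepresentation.character := by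
    apply char_iso (Representation.Equiv.mk (LinearEquiv.ofBijective l hl) ?_)
    intro g
    ext ⟨v, hv⟩
    exact f.isIntertwining ρ σ g v
  refine ⟨R'.toRepresentation.character, f.ker.toRepresentation.character,
    f.range.toRepresentation.character, isChar_sub _ _, isChar_sub _ _, isChar_sub _ _, ?_, ?_, ?_⟩
  · apply char_sub_ne
    intro h0
    apply hf
    ext v
    have : f v ∈ f.range.toSubmodule := ⟨v, rfl⟩
    rw [h0] at this
    exact (Submodule.mem_bot ℂ).mp this
  · rw [char_add_of_isCompl σ _ _ hR', add_comm]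
  · rw [char_add_of_isCompl ρ _ _ hU', he]

/-- A nonzero character of norm different from one splits. -/
lemma IsChar.split2 {φ : F → ℂ} (h : IsChar φ) (h0 : φ 1 ≠ 0) (h1 : ip φ φ ≠ 1) :
    ∃ φ1 φ2 : F → ℂ, IsChar φ1 ∧ IsChar φ2 ∧ φ1 1 ≠ 0 ∧ φ2 1 ≠ 0 ∧ φ = φ1 + φ2 := by
  obtain ⟨V, _, _, _, ρ, rfl⟩ := h
  have hirr : ¬ ρ.IsIrreducible := by
    intro hi
    apply h1
    unfold ip
    rw [card_inv_mul_sum_char_mul_char_eq_finrank]
    simp
  have hV : Nontrivial V := by
    rw [char_one] at h0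
    have : finrank ℂ V ≠ 0 := by exact_mod_cast h0
    exact Module.nontrivial_of_finrank_pos (Nat.pos_of_ne_zero this)
  have hN : Nontrivial (Subrepresentation ρ) := by
    refine ⟨⊥, ⊤, fun h => ?_⟩
    have := congrArg Subrepresentation.toSubmodule h
    exact bot_ne_top (α := Submodule ℂ V) this
  have : ∃ U : Subrepresentation ρ, U ≠ ⊥ ∧ U ≠ ⊤ := by
    by_contra hc
    push Not at hc
    exact hirr ⟨fun a => or_iff_not_imp_left.mpr (hc a)⟩
  obtain ⟨U, hU1, hU2⟩ := this
  obtain ⟨U', hU'⟩ := exists_isCompl U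
  refine ⟨_, _, isChar_sub ρ U, isChar_sub ρ U', char_sub_ne ρ U hU1, char_sub_ne ρ U' ?_,
    char_add_of_isCompl ρ _ _ hU'⟩
  rintro rfl
  apply hU2
  simpa using hU'.sup_eq_top

/-- A virtual character of norm one and positive degree is a character. -/
lemma isChar_of_norm_one : ∀ (n : ℕ) (φ ψ : F → ℂ), IsChar φ → IsChar ψ → ψ 1 = n →
    ip (φ - ψ) (φ - ψ) = 1 → (∃ d : ℕ, 0 < d ∧ (φ - ψ) 1 = d) → IsChar (φ - ψ) := by
  intro n
  induction n using Nat.strong_induction_on with
  | _ n ih =>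
  intro φ ψ h1 h2 hn hip hd
  by_cases h : ip φ ψ = 0
  · have h' : ip ψ φ = 0 := by rw [ip_comm]; exact h
    rw [ip_sub_left, ip_sub_right, ip_sub_right, h, h'] at hip
    obtain ⟨a, ha⟩ := h1.ip_nat h1
    obtain ⟨b, hb⟩ := h2.ip_nat h2
    rw [ha, hb] at hip
    have hab : a + b = 1 := by
      have : ((a + b : ℕ) : ℂ) = 1 := by push_cast; linear_combination hip
      exact_mod_cast this
    by_cases hb0 : b = 0
    · have := h2.eq_zero_of_ip (by rw [hb, hb0]; simp)
      rw [this, sub_zero]; exact h1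
    · have ha0 : a = 0 := by omega
      have := h1.eq_zero_of_ip (by rw [ha, ha0]; simp)
      obtain ⟨d, hd0, hd⟩ := hd
      rw [this, Pi.sub_apply, hn] at hd
      have h3 : ((d + n : ℕ) : ℂ) = 0 := by
        push_cast
        have : (0 : F → ℂ) 1 = 0 := rfl
        rw [this] at hd
        linear_combination -hd
      have : d + n = 0 := by exact_mod_cast h3
      omega
  · obtain ⟨φ', ψ', θ, a1, a2, a3, a4, rfl, rfl⟩ := h1.split h2 h
    obtain ⟨m, hm⟩ := a2.nat
    obtain ⟨k, hk⟩ := a3.nat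
    have e : φ' + θ - (ψ' + θ) = φ' - ψ' := by abel
    rw [e] at hip hd ⊢
    refine ih m ?_ φ' ψ' a1 a2 hm hip hd
    rw [Pi.add_apply, hm, hk] at hn
    have : m + k = n := by exact_mod_cast hn
    have : k ≠ 0 := by rintro rfl; exact a4 (by simpa using hk)
    omega

/-- Every nontrivial element is detected by a character of norm one orthogonal to the trivial one. -/
lemma exists_irr (c : F) (hc : c ≠ 1) :
    ∃ χ : F → ℂ, IsChar χ ∧ ip χ χ = 1 ∧ ip χ 1 = 0 ∧ χ c ≠ χ 1 := by
  classical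
  have key : ∀ (n : ℕ) (φ : F → ℂ), IsChar φ → φ 1 = n → φ c ≠ φ 1 →
      ∃ χ : F → ℂ, IsChar χ ∧ ip χ χ = 1 ∧ χ c ≠ χ 1 := by
    intro n
    induction n using Nat.strong_induction_on with
    | _ n ih =>
    intro φ h hn hq
    by_cases h1 : ip φ φ = 1
    · exact ⟨φ, h, h1, hq⟩
    have h0 : φ 1 ≠ 0 := fun h0 => by
      rw [h.eq_zero h0] at hq; exact hq rfl
    obtain ⟨φ1, φ2, a1, a2, a3, a4, rfl⟩ := h.split2 h0 h1
    obtain ⟨m, hm⟩ := a1.nat
    obtain ⟨k, hk⟩ := a2.nat
    rw [Pi.add_apply, hm, hk] at hn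
    have hmk : m + k = n := by exact_mod_cast hn
    have hm0 : m ≠ 0 := by rintro rfl; exact a3 (by simpa using hm)
    have hk0 : k ≠ 0 := by rintro rfl; exact a4 (by simpa using hk)
    by_cases q1 : φ1 c = φ1 1
    · refine ih k (by omega) φ2 a2 hk ?_
      intro q2
      apply hq
      simp [q1, q2]
    · exact ih m (by omega) φ1 a1 hm q1
  have hreg : ∃ φ : F → ℂ, IsChar φ ∧ φ c ≠ φ 1 := by
    let ρ : Representation ℂ F (F → ℂ) :=
      { toFun := fun g => LinearMap.funLeft ℂ ℂ (fun t => t * g)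
        map_one' := by ext; simp
        map_mul' := by intro a b; ext; simp [LinearMap.funLeft, mul_assoc] }
    refine ⟨ρ.character, ⟨_, inferInstance, inferInstance, inferInstance, ρ, rfl⟩, ?_⟩
    have e1 : ρ.character c = 0 := by
      unfold character
      rw [LinearMap.trace_eq_matrix_trace ℂ (Pi.basisFun ℂ F)]
      simp [Matrix.trace, ρ, hc]
    rw [e1, char_one]
    simp [eq_comm]
  obtain ⟨φ, hφ, hq⟩ := hreg
  obtain ⟨n, hn⟩ := hφ.nat
  obtain ⟨χ, a1, a2, a3⟩ := key n φ hφ hn hq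
  refine ⟨χ, a1, a2, ?_, a3⟩
  by_contra h
  obtain ⟨φ', ψ', θ, b1, b2, b3, b4, e1, e2⟩ := a1.split IsChar.one h
  obtain ⟨m, hm⟩ := b2.nat
  obtain ⟨k, hk⟩ := b3.nat
  have e3 := congrFun e2 1
  rw [Pi.add_apply, hm, hk, Pi.one_apply] at e3
  have hmk : 1 = m + k := by exact_mod_cast e3
  have hk0 : k ≠ 0 := by rintro rfl; exact b4 (by simpa using hk)
  have hm0 : m = 0 := by omega
  have := b2.eq_zero (by rw [hm, hm0]; simp)
  rw [this, zero_add] at e2
  subst e2
  obtain ⟨a, ha⟩ := b1.ip_nat b1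
  obtain ⟨b, hb⟩ := b1.ip_nat IsChar.one
  rw [e1, ip_add_left, ip_add_right, ip_add_right, ip_comm 1 φ', ha, hb, ip_one_one] at a2
  have : ((a + b + b : ℕ) : ℂ) = 0 := by push_cast; linear_combination a2
  have : a + b + b = 0 := by exact_mod_cast this
  have ha0 : a = 0 := by omega
  have := b1.eq_zero_of_ip (by rw [ha, ha0]; simp)
  rw [this, zero_add] at e1
  exact a3 (by simp [e1])

omit [Fintype F] in
/-- If a character is constant on a subgroup then the subgroup acts trivially. -/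
lemma kernel_of_char [Finite F] {φ : F → ℂ} (h : IsChar φ) :
    ∃ N : Subgroup F, (∀ g ∈ N, φ g = φ 1) ∧ N.Normal ∧
      ∀ g : F, (∀ i : ℕ, φ (g ^ i) = φ 1) → g ∈ N := by
  classical
  obtain ⟨V, _, _, _, ρ, rfl⟩ := h
  let ρ' : F →* (V →ₗ[ℂ] V) := ρ
  refine ⟨(MonoidHom.toHomUnits ρ').ker, ?_, inferInstance, ?_⟩
  · intro g hg
    have : ρ g = 1 := congrArg Units.val (MonoidHom.mem_ker.mp hg)
    simp [character, this]
  · intro g hg
    let H := Subgroup.zpowers g
    have : Fintype H := Fintype.ofFinite _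
    let σ : Representation ℂ H V := ρ'.comp H.subtype
    have h1 := card_inv_mul_sum_char_eq_finrank σ
    have h2 : ∀ x : H, σ.character x = finrank ℂ V := by
      rintro ⟨x, hx⟩
      obtain ⟨i, rfl⟩ := (mem_powers_iff_mem_zpowers.mpr hx)
      rw [← char_one ρ, ← hg i]
      rfl
    simp only [h2, Finset.sum_const, Finset.card_univ, nsmul_eq_mul] at h1
    rw [Fintype.card_eq_nat_card, ← mul_assoc, inv_mul_cancel₀ cardC_ne, one_mul] at h1
    have h3 : finrank ℂ (invariants σ) = finrank ℂ V := by exact_mod_cast h1.symm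
    have h4 := Submodule.eq_top_of_finrank_eq h3
    rw [MonoidHom.mem_ker]
    ext v
    have hv : v ∈ invariants σ := by rw [h4]; trivial
    exact hv ⟨g, Subgroup.mem_zpowers g⟩

end Char

end Pool.Agent.H718Z
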