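import Pool.Agent.H718Z.FPF

/-!
A group all of whose two-generated subgroups are finite and whose finite subgroups have bounded
order is finite.
-/

set_option autoImplicit false

namespace Pool.Agent.H718Z

open Subgroup

/-- All two-generated subgroups are finite. -/
def BF (G : Type) [Group G] : Prop := ∀ a b : G, Finite (closure ({a, b} : Set G))

section

variable {G : Type} [Group G]

/-- `F` has a proper malnormal subgroup containing `S`. -/
def Good (F : Subgroup G) (S : Set G) : Prop :=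
  ∃ C : Subgroup G, S ⊆ C ∧ C < F ∧ ∀ g ∈ F, g ∉ C → ∀ c ∈ C, g * c * g⁻¹ ∈ C → c = 1

lemma Good.fk {F : Subgroup G} [Finite F] {S : Set G} (h : Good F S) :
    ∃ N : Subgroup F, FK N ∧ ∀ x : F, (x : G) ∈ closure S → x ∈ N → x = 1 := by
  obtain ⟨C, h1, h2, h3⟩ := h
  have : Fintype F := Fintype.ofFinite _
  obtain ⟨N, a1, a2⟩ := frobenius (C := C.subgroupOf F)
    (fun g hg c hc hgc => Subtype.ext (h3 g g.2 hg c hc hgc)) (by
      intro h
      exact h2.not_ge (subgroupOf_eq_top.mp h))
  exact ⟨N, a1, fun x hx hxN => a2 x ((closure_le C).mpr h1 hx) hxN⟩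

lemma Good.conj {F : Subgroup G} {x : G} (h : Good F {x}) (t : G) :
    Good (F.map (MulAut.conj t).toMonoidHom) {t * x * t⁻¹} := by
  obtain ⟨C, h1, h2, h3⟩ := h
  refine ⟨C.map (MulAut.conj t).toMonoidHom, ?_, ?_, ?_⟩
  · rintro _ rfl
    exact ⟨x, h1 rfl, rfl⟩
  · exact (map_lt_map_iff_of_injective (MulAut.conj t).injective).mpr h2
  · rintro _ ⟨g, hg, rfl⟩ hn _ ⟨c, hc, rfl⟩ ⟨d, hd, he⟩
    have hgC : g ∉ C := fun hh => hn ⟨g, hh, rfl⟩
    have : d = g * c * g⁻¹ := by
      apply (MulAut.conj t).injective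
      rw [map_mul, map_mul, map_inv]
      exact he
    rw [h3 g hg hgC c hc (this ▸ hd)]
    simp

lemma finite_conj_eq (hcent : ∀ c : G, c ≠ 1 → {g : G | g * c = c * g}.Finite) {c : G}
    (hc : c ≠ 1) (d : G) : {g : G | g * c * g⁻¹ = d}.Finite := by
  rcases Set.eq_empty_or_nonempty {g : G | g * c * g⁻¹ = d} with h | ⟨g0, hg0⟩
  · rw [h]; exact Set.finite_empty
  · refine ((hcent c hc).image (fun k => g0 * k)).subset ?_
    intro g hg
    refine ⟨g0⁻¹ * g, ?_, by simp⟩
    have h1 : g * c * g⁻¹ = g0 * c * g0⁻¹ := hg.trans hg0.symm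
    change g0⁻¹ * g * c = c * (g0⁻¹ * g)
    calc g0⁻¹ * g * c = g0⁻¹ * (g * c * g⁻¹) * g := by group
      _ = _ := by rw [h1]; group

lemma finite_conj_mem (hcent : ∀ c : G, c ≠ 1 → {g : G | g * c = c * g}.Finite) {c : G}
    (hc : c ≠ 1) {D : Set G} (hD : D.Finite) : {g : G | g * c * g⁻¹ ∈ D}.Finite := by
  refine (hD.biUnion (fun d _ => finite_conj_eq hcent hc d)).subset ?_
  intro g hg
  exact Set.mem_biUnion hg rfl

lemma finite_bad (hcent : ∀ c : G, c ≠ 1 → {g : G | g * c = c * g}.Finite) (M : ℕ)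
    (hM : ∀ H : Subgroup G, Finite H → Nat.card H ≤ M) (S : Set G) :
    {F : Subgroup G | Finite F ∧ S ⊆ F ∧ ¬ Good F S}.Finite := by
  by_contra hinf
  set 𝓕 := {F : Subgroup G | Finite F ∧ S ⊆ F ∧ ¬ Good F S} with h𝓕
  let 𝒟 : Set (Subgroup G) := {D | S ⊆ D ∧ {F | F ∈ 𝓕 ∧ D ≤ F}.Infinite}
  have hfin : ∀ D ∈ 𝒟, Finite D := by
    rintro D ⟨-, h⟩
    obtain ⟨F, hF, hle⟩ := h.nonempty
    have := hF.1
    exact Finite.of_injective _ (inclusion_injective hle)
  have hne : 𝒟.Nonempty := by
    refine ⟨closure S, subset_closure, ?_⟩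
    intro hf
    apply hinf
    refine hf.subset ?_
    intro F hF
    exact ⟨hF, (closure_le F).mpr hF.2.1⟩
  obtain ⟨D, hD, hmax⟩ : ∃ D ∈ 𝒟, ∀ D' ∈ 𝒟, Nat.card D' ≤ Nat.card D := by
    have hb : BddAbove ((fun D : Subgroup G => Nat.card D) '' 𝒟) := by
      refine ⟨M, ?_⟩
      rintro _ ⟨D, hD, rfl⟩
      exact hM D (hfin D hD)
    obtain ⟨D, hD, he⟩ := Nat.sSup_mem (hne.image _) hb
    refine ⟨D, hD, fun D' hD' => ?_⟩
    simp only at he
    rw [he]
    exact le_csSup hb ⟨D', hD', rfl⟩
  have hDf : Finite D := hfin D hD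
  have hDf' : (D : Set G).Finite := Set.toFinite _
  let Y : Set G := {g | ∃ c ∈ D, c ≠ 1 ∧ g * c * g⁻¹ ∈ D}
  have hY : Y.Finite := by
    refine ((hDf'.subset (t := {c | c ∈ D ∧ c ≠ 1}) (fun c hc => hc.1)).biUnion
      (fun c hc => finite_conj_mem hcent hc.2 hDf')).subset ?_
    rintro g ⟨c, h1, h2, h3⟩
    exact Set.mem_biUnion (x := c) ⟨h1, h2⟩ h3
  have h1 : ∀ y ∈ Y \ D, {F | F ∈ 𝓕 ∧ D ≤ F ∧ y ∈ F}.Finite := by
    intro y hy
    by_contra hh
    have hD' : D ⊔ zpowers y ∈ 𝒟 := by
      refine ⟨hD.1.trans (le_sup_left (a := D)), ?_⟩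
      intro hf
      apply hh
      refine hf.subset ?_
      rintro F ⟨a1, a2, a3⟩
      exact ⟨a1, sup_le a2 (zpowers_le_of_mem a3)⟩
    have := hfin _ hD'
    have h2 := eq_of_le_of_card_ge (le_sup_left : D ≤ D ⊔ zpowers y) (hmax _ hD')
    apply hy.2
    rw [h2]
    exact mem_sup_right (mem_zpowers y)
  have h2 := ((hY.subset Set.sdiff_subset).biUnion h1).union (Set.finite_singleton D)
  obtain ⟨F, ⟨hF, hDF⟩, hn⟩ := hD.2.exists_notMem_finite h2
  apply hF.2.2
  refine ⟨D, hD.1, lt_of_le_of_ne hDF ?_, ?_⟩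
  · intro h
    exact hn (Or.inr h.symm)
  · intro g hg hgD c hc hgc
    by_contra hc1
    exact hn (Or.inl (Set.mem_biUnion (x := g) ⟨⟨c, hc, hc1, hgc⟩, hgD⟩ ⟨hF, hDF, hg⟩))

/-- All but finitely many elements avoid the bad subgroups. -/
lemma finite_bad_union (hcent : ∀ c : G, c ≠ 1 → {g : G | g * c = c * g}.Finite) (M : ℕ)
    (hM : ∀ H : Subgroup G, Finite H → Nat.card H ≤ M) (S : Set G) :
    ∃ B : Set G, B.Finite ∧ ∀ F : Subgroup G, Finite F → S ⊆ F → ∀ y ∈ F, y ∉ B → Good F S := by
  refine ⟨⋃ F ∈ {F : Subgroup G | Finite F ∧ S ⊆ F ∧ ¬ Good F S}, (F : Set G),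
    (finite_bad hcent M hM S).biUnion (fun F hF => ?_), ?_⟩
  · have := hF.1
    exact Set.toFinite _
  · intro F h1 h2 y hy hn
    by_contra hg
    exact hn (Set.mem_biUnion (x := F) ⟨h1, h2, hg⟩ hy)

lemma BF.finite_zpowers (h : BF G) (a : G) : Finite (zpowers a) := by
  have := h a a
  have hle : zpowers a ≤ closure {a, a} := zpowers_le_of_mem (subset_closure (by simp))
  exact Finite.of_injective _ (inclusion_injective hle)

lemma BF.isOfFinOrder (h : BF G) (a : G) : IsOfFinOrder a := by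
  have := h.finite_zpowers a
  exact _root_.finite_zpowers.mp (Set.toFinite _)

lemma no_involution [Infinite G] (hBF : BF G)
    (hcent : ∀ c : G, c ≠ 1 → {g : G | g * c = c * g}.Finite) (M : ℕ)
    (hM : ∀ H : Subgroup G, Finite H → Nat.card H ≤ M) (x : G) (hx1 : x ≠ 1) : x * x ≠ 1 := by
  intro hx
  have hxi : x⁻¹ = x := inv_eq_of_mul_eq_one_right hx
  have hinv : ∀ g : G, x * (g * x * g⁻¹ * x) * x⁻¹ = (g * x * g⁻¹ * x)⁻¹ := by
    intro g
    simp only [mul_inv_rev, inv_inv, hxi]
    calc x * (g * x * g⁻¹ * x) * x = x * (g * x * g⁻¹) * (x * x) := by group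
      _ = _ := by rw [hx]; group
  have hgen : ∀ B : Set G, B.Finite → ∃ g : G, g * x * g⁻¹ * x ∉ B := by
    intro B hB
    obtain ⟨g, hg⟩ := (finite_conj_mem hcent hx1 (hB.image (fun b => b * x))).exists_notMem
    refine ⟨g, fun h => hg ⟨_, h, ?_⟩⟩
    simp only
    rw [mul_assoc, hx, mul_one]
  obtain ⟨g0, hg0⟩ := hgen _ (hcent x hx1)
  set a := g0 * x * g0⁻¹ * x with ha
  have hax : a * x ≠ x * a := hg0
  obtain ⟨B, hB, hgood⟩ := finite_bad_union hcent M hM {a, x}
  obtain ⟨g1, hg1⟩ := hgen B hB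
  set b := g1 * x * g1⁻¹ * x with hb
  have hxa : x * a * x⁻¹ = a⁻¹ := hinv g0
  have hxb : x * b * x⁻¹ = b⁻¹ := hinv g1
  let K := closure ({a, b} : Set G)
  have hK : ∀ k ∈ K, x * k * x⁻¹ ∈ K := by
    intro k hk
    induction hk using closure_induction with
    | mem y hy =>
      rcases hy with rfl | rfl
      · rw [hxa]; exact inv_mem (subset_closure (by simp))
      · rw [hxb]; exact inv_mem (subset_closure (by simp))
    | one => simp
    | mul y z _ _ h1 h2 =>
      have := mul_mem h1 h2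
      simpa [mul_assoc] using this
    | inv y _ h1 =>
      have := inv_mem h1
      simpa [mul_assoc] using this
  let F : Subgroup G :=
    { carrier := {g | g ∈ K ∨ g * x ∈ K}
      one_mem' := Or.inl (one_mem _)
      mul_mem' := by
        rintro u v (hu | hu) (hv | hv)
        · exact Or.inl (mul_mem hu hv)
        · exact Or.inr (by rw [mul_assoc]; exact mul_mem hu hv)
        · refine Or.inr ?_
          have := mul_mem hu (hK v hv)
          rw [hxi] at this
          have e : u * x * (x * v * x) = u * (x * x) * v * x := by group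
          rwa [e, hx, mul_one] at this
        · refine Or.inl ?_
          have := mul_mem hu (hK _ hv)
          have e : u * x * (x * (v * x) * x⁻¹) = u * (x * x) * v := by group
          rwa [e, hx, mul_one] at this
      inv_mem' := by
        rintro u (hu | hu)
        · exact Or.inl (inv_mem hu)
        · refine Or.inr ?_
          have := hK _ (inv_mem hu)
          have e : x * (u * x)⁻¹ * x⁻¹ = u⁻¹ * x⁻¹ := by group
          rwa [e, hxi] at this }
  have hKf : (K : Set G).Finite := by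
    have := hBF a b
    exact Set.toFinite _
  have hFf : Finite F := by
    have : (F : Set G).Finite := by
      refine (hKf.union (hKf.image (fun k => k * x⁻¹))).subset ?_
      rintro g (hg | hg)
      · exact Or.inl hg
      · exact Or.inr ⟨_, hg, by simp⟩
    exact this
  have haF : a ∈ F := Or.inl (subset_closure (by simp))
  have hbF : b ∈ F := Or.inl (subset_closure (by simp))
  have hxF : x ∈ F := Or.inr (by rw [hx]; exact one_mem _)
  have hG := hgood F hFf (by rintro _ (rfl | rfl); exacts [haF, hxF]) b hbF hg1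
  obtain ⟨N, n1, n2⟩ := hG.fk
  have hac : a ∈ closure ({a, x} : Set G) := subset_closure (by simp)
  have hxc : x ∈ closure ({a, x} : Set G) := subset_closure (by simp)
  let x' : F := ⟨x, hxF⟩
  let a' : F := ⟨a, haF⟩
  have h1 : x' ∉ N := fun h => hx1 (congrArg Subtype.val (n2 x' hxc h))
  have h2 : x' * a' ∉ N := by
    intro h
    have h3 : x * a = 1 := congrArg Subtype.val (n2 (x' * a') (mul_mem hxc hac) h)
    apply hax
    rw [h3, mul_eq_one_comm.mp h3]
  have h3 : a' ∉ N := by
    intro h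
    have h3 : a = 1 := congrArg Subtype.val (n2 a' hac h)
    apply hax
    simp [h3]
  have i1 := n1.inverts h1 (Subtype.ext hx)
  have i2 := n1.inverts h2 (Subtype.ext (by
    change x * a * (x * a) = 1
    calc x * a * (x * a) = (x * a * x⁻¹) * a := by rw [hxi]; group
      _ = 1 := by rw [hxa]; simp))
  obtain ⟨k, hk⟩ := ne_bot_iff_exists_ne_one.mp n1.2.1
  apply hk
  apply Subtype.ext
  apply n1.2.2 a' h3 k k.2
  have e1 := i2 k k.2
  have e2 := i1 k k.2
  rw [← e2] at e1
  have : a' * k * a'⁻¹ = k := by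
    have e3 : a' * k * a'⁻¹ = x'⁻¹ * (x' * a' * k * (x' * a')⁻¹) * x' := by group
    rw [e3, e1]; group
  exact mul_inv_eq_iff_eq_mul.mp this

lemma false_of_cent [Infinite G] (hBF : BF G)
    (hcent : ∀ c : G, c ≠ 1 → {g : G | g * c = c * g}.Finite) (M : ℕ)
    (hM : ∀ H : Subgroup G, Finite H → Nat.card H ≤ M) : False := by
  have hodd : ∀ F : Subgroup G, Finite F → Odd (Nat.card F) := by
    intro F hF
    by_contra h
    obtain ⟨x, hx⟩ := exists_prime_orderOf_dvd_card' (G := F) 2
      (Nat.not_odd_iff_even.mp h).two_dvd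
    have h1 : (x : G) ≠ 1 := by
      intro h1
      have : x = 1 := Subtype.ext h1
      rw [this, orderOf_one] at hx
      omega
    apply no_involution hBF hcent M hM x h1
    have := pow_orderOf_eq_one x
    rw [hx, pow_two] at this
    exact congrArg Subtype.val this
  have hpos : ∀ g : G, 0 < orderOf g := fun g => (hBF.isOfFinOrder g).orderOf_pos
  obtain ⟨u, hu⟩ : ∃ u : G, ∀ w : G, (orderOf w).primeFactors.card ≤ (orderOf u).primeFactors.card := by
    have hb : BddAbove (Set.range fun w : G => (orderOf w).primeFactors.card) := by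
      refine ⟨M + 1, ?_⟩
      rintro _ ⟨w, rfl⟩
      have h1 : orderOf w ≤ M := by
        rw [← Nat.card_zpowers]; exact hM _ (hBF.finite_zpowers w)
      calc (orderOf w).primeFactors.card ≤ (Finset.range (M + 1)).card := by
            apply Finset.card_le_card
            intro p hp
            exact Finset.mem_range.mpr (Nat.lt_succ_of_le ((Nat.le_of_mem_primeFactors hp).trans h1))
        _ = M + 1 := by simp
    obtain ⟨u, hu⟩ := Nat.sSup_mem (Set.range_nonempty _) hb
    refine ⟨u, fun w => ?_⟩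
    simp only at hu
    rw [hu]
    exact le_csSup hb ⟨w, rfl⟩
  have hu1 : u ≠ 1 := by
    rintro rfl
    obtain ⟨w, hw⟩ := exists_ne (1 : G)
    have h1 := hu w
    simp only [orderOf_one, Nat.primeFactors_one, Finset.card_empty, Nat.le_zero,
      Finset.card_eq_zero, Nat.primeFactors_eq_empty] at h1
    rcases h1 with h1 | h1
    · exact (hpos w).ne' h1
    · exact hw (orderOf_eq_one_iff.mp h1)
  have m1 : ∀ a b : G, a ∈ closure ({a, b} : Set G) := fun a b => subset_closure (by simp)
  have m2 : ∀ a b : G, b ∈ closure ({a, b} : Set G) := fun a b => subset_closure (by simp)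
  obtain ⟨B, hB, hgood⟩ := finite_bad_union hcent M hM {u}
  obtain ⟨z, hz, hzu⟩ : ∃ z : G, (orderOf z).Prime ∧ ¬ orderOf z ∣ orderOf u := by
    obtain ⟨y, hy⟩ := hB.exists_notMem
    have := hBF u y
    obtain ⟨N, n1, n2⟩ := (hgood _ this (by rintro _ rfl; exact m1 _ _) y (m2 _ _) hy).fk
    obtain ⟨z, hz1, hz2⟩ := n1.exists_prime (x := ⟨u, m1 u y⟩)
      (fun h => hu1 (congrArg Subtype.val (n2 ⟨u, m1 u y⟩ (Subgroup.subset_closure rfl) h)))
    refine ⟨z, by rwa [orderOf_coe], ?_⟩
    rwa [orderOf_coe, ← orderOf_mk u (m1 u y)]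
  have hz1 : z ≠ 1 := by
    rintro rfl
    simp at hzu
  obtain ⟨B', hB', hgood'⟩ := finite_bad_union hcent M hM {z}
  obtain ⟨g, hg⟩ := ((finite_conj_mem hcent hz1 hB).union
    ((finite_conj_mem hcent hu1 hB').image (fun g => g⁻¹))).exists_notMem
  have hg1 : g * z * g⁻¹ ∉ B := fun h => hg (Or.inl h)
  have hg2 : g⁻¹ * u * g ∉ B' := fun h => hg (Or.inr ⟨g⁻¹, by simpa using h, by simp⟩)
  have hF := hBF u (g * z * g⁻¹)
  have G1 := hgood _ hF (by rintro _ rfl; exact m1 _ _) _ (m2 _ _) hg1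
  have G2 := (hgood' _ (hBF (g⁻¹ * u * g) z) (by rintro _ rfl; exact m2 _ _) _ (m1 _ _) hg2).conj g
  have e : (closure ({g⁻¹ * u * g, z} : Set G)).map (MulAut.conj g).toMonoidHom =
      closure {u, g * z * g⁻¹} := by
    rw [MonoidHom.map_closure, Set.image_pair]
    simp [mul_assoc]
  rw [e] at G2
  obtain ⟨N1, n1, n2⟩ := G1.fk
  obtain ⟨N2, n3, n4⟩ := G2.fk
  have hN := n1.inf n3
  obtain ⟨w, hw⟩ := hN.exists_elem (hodd _ hF)
  have d1 := hN.orderOf_dvd (x := ⟨u, m1 _ _⟩)
    (fun h => hu1 (congrArg Subtype.val (n2 ⟨u, m1 _ _⟩ (Subgroup.subset_closure rfl) h.1)))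
  have d2 := hN.orderOf_dvd (x := ⟨g * z * g⁻¹, m2 _ _⟩) (fun h => hz1 (by
    have : g * z * g⁻¹ = 1 := congrArg Subtype.val (n4 ⟨_, m2 _ _⟩ (Subgroup.subset_closure rfl) h.2)
    simpa using this))
  rw [orderOf_mk] at d1 d2
  have hoz : orderOf (g * z * g⁻¹) = orderOf z := by
    have := (MulAut.conj g).orderOf_eq z
    simpa using this
  rw [hoz] at d2
  have hsub : insert (orderOf z) (orderOf u).primeFactors ⊆ (orderOf (w : G)).primeFactors := by
    intro p hp
    rw [orderOf_coe]
    rcases Finset.mem_insert.mp hp with rfl | hp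
    · exact Nat.mem_primeFactors.mpr ⟨hz, hw _ hz d2, (orderOf_pos w).ne'⟩
    · have hp' := Nat.prime_of_mem_primeFactors hp
      exact Nat.mem_primeFactors.mpr
        ⟨hp', hw _ hp' ((Nat.dvd_of_mem_primeFactors hp).trans d1), (orderOf_pos w).ne'⟩
  have h1 := Finset.card_le_card hsub
  rw [Finset.card_insert_of_notMem (fun h => hzu (Nat.dvd_of_mem_primeFactors h))] at h1
  have := hu w
  omega

lemma BF.subgroup (h : BF G) (H : Subgroup G) : BF H := by
  intro a b
  have := h a b
  refine Finite.of_injective (fun x : closure ({a, b} : Set H) =>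
    (⟨x.1.1, ?_⟩ : closure ({(a : G), (b : G)} : Set G))) ?_
  · have : x.1.1 ∈ (closure ({a, b} : Set H)).map H.subtype := ⟨x.1, x.2, rfl⟩
    rwa [MonoidHom.map_closure, Set.image_pair] at this
  · intro x y hxy
    exact Subtype.ext (Subtype.ext (congrArg (fun t : closure ({(a : G), (b : G)} : Set G) =>
      (t : G)) hxy))

lemma BF.quotient (h : BF G) (N : Subgroup G) [N.Normal] : BF (G ⧸ N) := by
  intro a b
  obtain ⟨a, rfl⟩ := QuotientGroup.mk_surjective a
  obtain ⟨b, rfl⟩ := QuotientGroup.mk_surjective b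
  have := h a b
  have e : closure ({(a : G ⧸ N), (b : G ⧸ N)} : Set (G ⧸ N)) =
      (closure ({a, b} : Set G)).map (QuotientGroup.mk' N) := by
    rw [MonoidHom.map_closure, Set.image_pair]; rfl
  rw [e]
  exact Finite.of_surjective _ ((QuotientGroup.mk' N).subgroupMap_surjective _)

end

theorem finite_of_BF : ∀ (M : ℕ) (G : Type) [Group G], BF G →
    (∀ H : Subgroup G, Finite H → Nat.card H ≤ M) → Finite G := by
  intro M
  induction M using Nat.strong_induction_on with
  | _ M ih =>
  intro G _ hBF hM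
  by_contra hinf
  have : Infinite G := not_finite_iff_infinite.mp hinf
  refine false_of_cent hBF ?_ M hM
  intro c hc
  let C : Subgroup G := centralizer {c}
  let c' : C := ⟨c, by simp [C, mem_centralizer_iff]⟩
  let Z : Subgroup C := zpowers c'
  have hZn : Z.Normal := by
    constructor
    rintro _ ⟨k, rfl⟩ g
    have h1 : Commute c' g := Subtype.ext (g.2 c rfl)
    simp only
    rw [← (h1.zpow_left k).eq]
    simp only [mul_inv_cancel_right]
    exact ⟨k, rfl⟩
  have hZf : Finite Z := (hBF.subgroup C).finite_zpowers c'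
  have hM0 : 0 < M := lt_of_lt_of_le Nat.card_pos (hM ⊥ inferInstance)
  have hQ : Finite (C ⧸ Z) := by
    refine ih (M - 1) (by omega) _ ((hBF.subgroup C).quotient Z) ?_
    intro H hH
    let H' := H.comap (QuotientGroup.mk' Z)
    have hZH : Z ≤ H' := by
      intro z hz
      change (z : C ⧸ Z) ∈ H
      rw [(QuotientGroup.eq_one_iff z).mpr hz]
      exact one_mem _
    let f : H' →* H := ((QuotientGroup.mk' Z).comp H'.subtype).codRestrict H (fun x => x.2)
    have hf : Function.Surjective f := by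
      rintro ⟨y, hy⟩
      obtain ⟨y, rfl⟩ := QuotientGroup.mk_surjective y
      exact ⟨⟨y, hy⟩, rfl⟩
    have hker : Finite f.ker := by
      refine Finite.of_injective (fun x : f.ker => (⟨x.1.1, ?_⟩ : Z)) ?_
      · have := congrArg Subtype.val (MonoidHom.mem_ker.mp x.2)
        exact (QuotientGroup.eq_one_iff _).mp this
      · intro x y hxy
        exact Subtype.ext (Subtype.ext (congrArg (fun t : Z => (t : C)) hxy))
    have hH' : Finite H' := (f.finite_iff_finite_ker_range).mpr ⟨hker, inferInstance⟩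
    have h1 : Nat.card H' ≤ M := by
      have := hM (H'.map C.subtype)
        (Finite.of_surjective _ (C.subtype.subgroupMap_surjective H'))
      rwa [card_map_of_injective C.subtype_injective] at this
    have h2 : Nat.card H < Nat.card H' := by
      have := Fintype.ofFinite H
      have := Fintype.ofFinite H'
      rw [← Fintype.card_eq_nat_card, ← Fintype.card_eq_nat_card]
      apply Fintype.card_lt_of_surjective_not_injective f hf
      intro hinj
      have h3 : f ⟨c', hZH (mem_zpowers _)⟩ = 1 :=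
        Subtype.ext ((QuotientGroup.eq_one_iff _).mpr (mem_zpowers _))
      have h4 := (injective_iff_map_eq_one f).mp hinj _ h3
      exact hc (congrArg (fun t : H' => ((t : C) : G)) h4)
    omega
  have hC : Finite C := (finite_iff_subgroup_quotient Z).mpr ⟨hZf, hQ⟩
  have hC' : (C : Set G).Finite := Set.toFinite _
  refine hC'.subset ?_
  intro g hg
  rintro _ rfl
  exact hg.symm

end Pool.Agent.H718Z
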