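import Pool.Agent.H718Z.Bern
import Pool.Agent.H718Z.Strunkov

/-!
Relative cost estimates: coverings by cosets, groups of bounded exponent, chains.
-/

set_option autoImplicit false

namespace Pool.Agent.H718Z

open MeasureTheory
open scoped ENNReal unitInterval Pointwise

lemma num1 (ε : ℝ≥0∞) (hε : ε ≠ 0) : ∃ K : ℕ, 0 < K ∧ ∀ a z : ℕ, 0 < a → K * z ≤ a →
    ∃ p : I, z * ENNReal.ofReal p + (1 - ENNReal.ofReal p) ^ a ≤ ε := by
  obtain ⟨δ, hδ, hδε⟩ : ∃ δ : ℝ, 0 < δ ∧ ENNReal.ofReal δ ≤ ε := by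
    obtain ⟨r, h1, h2⟩ := ENNReal.lt_iff_exists_real_btwn.mp (pos_iff_ne_zero.mpr hε)
    exact ⟨r, ENNReal.ofReal_pos.mp h2.1, h2.2.le⟩
  obtain ⟨l, hl⟩ := exists_nat_gt (2 / δ)
  have hl0 : (0 : ℝ) < l := lt_trans (by positivity) hl
  have hl1 : 1 ≤ l := by exact_mod_cast hl0
  have hl2 : 2 / (l : ℝ) ≤ δ := by
    rw [div_le_iff₀ hl0]
    rw [div_lt_iff₀ hδ] at hl
    linarith
  refine ⟨l * l, by positivity, ?_⟩
  intro a z ha hz
  rcases Nat.eq_zero_or_pos z with rfl | hz0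
  · refine ⟨1, ?_⟩
    simp [ha.ne']
  have ha' : (0 : ℝ) < a := by exact_mod_cast ha
  have hla : l ≤ a := by nlinarith
  have hla' : (l : ℝ) ≤ a := by exact_mod_cast hla
  have hp1 : (l : ℝ) / a ≤ 1 := (div_le_one ha').mpr hla'
  refine ⟨⟨l / a, by positivity, hp1⟩, le_trans ?_ hδε⟩
  have e1 : (1 : ℝ≥0∞) - ENNReal.ofReal (l / a) = ENNReal.ofReal (1 - l / a) := by
    rw [ENNReal.ofReal_sub _ (by positivity), ENNReal.ofReal_one]
  simp only
  rw [e1, ← ENNReal.ofReal_pow (by linarith), ← ENNReal.ofReal_natCast,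
    ← ENNReal.ofReal_mul (by positivity), ← ENNReal.ofReal_add (by positivity)
      (pow_nonneg (by linarith) _)]
  apply ENNReal.ofReal_le_ofReal
  have h1 : (z : ℝ) * (l / a) ≤ 1 / l := by
    have : (l : ℝ) * l * z ≤ a := by exact_mod_cast hz
    rw [← mul_div_assoc, div_le_div_iff₀ ha' hl0]
    linarith
  have h2 : (1 - (l : ℝ) / a) ^ a ≤ 1 / l := by
    calc (1 - (l : ℝ) / a) ^ a ≤ Real.exp (-l) := Real.one_sub_div_pow_le_exp_neg hla'
      _ ≤ 1 / l := by
        rw [Real.exp_neg, one_div]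
        apply inv_anti₀ hl0
        linarith [Real.add_one_le_exp (l : ℝ)]
  have : 2 / (l : ℝ) = 1 / l + 1 / l := by ring
  linarith

lemma num2 (n : ℕ) (ε : ℝ≥0∞) (hε : ε ≠ 0) : ∃ (p : I) (N : ℕ), ∀ N', N ≤ N' →
    ENNReal.ofReal p + (1 - ENNReal.ofReal p ^ n) ^ N' ≤ ε := by
  have hε2 : ε / 2 ≠ 0 := by simp [hε]
  obtain ⟨δ, hδ, hδ1, hδε⟩ : ∃ δ : ℝ, 0 < δ ∧ δ ≤ 1 ∧ ENNReal.ofReal δ ≤ ε / 2 := by
    obtain ⟨r, h1, h2⟩ := ENNReal.lt_iff_exists_real_btwn.mp (pos_iff_ne_zero.mpr hε2)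
    refine ⟨min r 1, lt_min (ENNReal.ofReal_pos.mp h2.1) one_pos, min_le_right _ _, ?_⟩
    exact (ENNReal.ofReal_le_ofReal (min_le_left _ _)).trans h2.2.le
  have h1 : (1 : ℝ≥0∞) - ENNReal.ofReal δ ^ n < 1 :=
    ENNReal.sub_lt_self (by simp) (by simp) (pow_ne_zero _ (ENNReal.ofReal_pos.mpr hδ).ne')
  have h2 := (ENNReal.tendsto_pow_atTop_nhds_zero_of_lt_one h1).eventually
    (ge_mem_nhds (pos_iff_ne_zero.mpr hε2))
  obtain ⟨N, hN⟩ := Filter.eventually_atTop.mp h2
  refine ⟨⟨δ, hδ.le, hδ1⟩, N, fun N' h => ?_⟩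
  calc _ ≤ ε / 2 + ε / 2 := add_le_add hδε (hN N' h)
    _ = ε := ENNReal.add_halves ε

lemma greedy {α : Type} (conf : α → α → Prop) (hs : ∀ a b, conf a b → conf b a) (D : ℕ) :
    ∀ (N : ℕ) (S : Finset α), (∀ h ∈ S, {h' | h' ∈ S ∧ conf h h'}.ncard ≤ D) →
      N * (D + 1) ≤ S.card →
      ∃ J : Finset α, J ⊆ S ∧ J.card = N ∧ ∀ a ∈ J, ∀ b ∈ J, a ≠ b → ¬ conf a b := by
  classical
  intro N
  induction N with
  | zero => intro S _ _; exact ⟨∅, by simp, rfl, by simp⟩
  | succ N ih =>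
    intro S h1 h2
    obtain ⟨h, hh⟩ : S.Nonempty := Finset.card_pos.mp (lt_of_lt_of_le (by positivity) h2)
    let S' := (S.erase h).filter (fun h' => ¬ conf h h')
    have hS' : S' ⊆ S := (Finset.filter_subset _ _).trans (Finset.erase_subset _ _)
    have hc : N * (D + 1) ≤ S'.card := by
      have e1 := Finset.card_filter_add_card_filter_not (s := S.erase h) (fun h' => conf h h')
      have e2 : ((S.erase h).filter (fun h' => conf h h')).card ≤ D := by
        refine le_trans ?_ (h1 h hh)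
        rw [← Set.ncard_coe_finset]
        apply Set.ncard_le_ncard
        · intro x hx
          simp only [Finset.coe_filter, Finset.mem_erase, Set.mem_ofPred_eq] at hx
          exact ⟨hx.1.2, hx.2⟩
        · exact S.finite_toSet.subset (fun x hx => hx.1)
      rw [Finset.card_erase_of_mem hh] at e1
      have : (N + 1) * (D + 1) = N * (D + 1) + D + 1 := by ring
      change _ ≤ ((S.erase h).filter (fun h' => ¬ conf h h')).card
      omega
    obtain ⟨J, j1, j2, j3⟩ := ih S' (fun x hx => le_trans (Set.ncard_le_ncard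
      (t := {h' | h' ∈ S ∧ conf x h'})
      (fun y hy => ⟨hS' hy.1, hy.2⟩) (S.finite_toSet.subset (fun x hx => hx.1))) (h1 x (hS' hx))) hc
    have hJ : h ∉ J := fun hm => by simpa [S'] using j1 hm
    refine ⟨insert h J, Finset.insert_subset hh (j1.trans hS'), by
      rw [Finset.card_insert_of_notMem hJ, j2], ?_⟩
    have hj : ∀ b ∈ J, ¬ conf h b := fun b hb => (Finset.mem_filter.mp (j1 hb)).2
    intro a ha b hb hab
    rcases Finset.mem_insert.mp ha with rfl | ha' <;> rcases Finset.mem_insert.mp hb with rfl | hb'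
    · exact absurd rfl hab
    · exact hj b hb'
    · exact fun hc => hj a ha' (hs _ _ hc)
    · exact j3 a ha' b hb' hab

/-- A sunflower lemma for sequences. -/
lemma sunflower {α β : Type} (N : ℕ) : ∀ i : ℕ, ∃ f : ℕ, ∀ j ≤ i, ∀ (v : α → ℕ → β)
    (S : Finset α), f ≤ S.card → (∃ c, ∀ h ∈ S, v h j = c) →
    ∃ (i0 : ℕ) (c : β) (J : Finset α), i0 ≤ j ∧ (1 ≤ j → 1 ≤ i0) ∧ J ⊆ S ∧ J.card = N ∧
      (∀ h ∈ J, v h i0 = c) ∧
      ∀ a ∈ J, ∀ b ∈ J, a ≠ b → ∀ k l, 1 ≤ k → k < i0 → 1 ≤ l → l < i0 → v a k ≠ v b l := by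
  classical
  intro i
  induction i with
  | zero =>
    refine ⟨N, ?_⟩
    intro j hj v S hS ⟨c, hc⟩
    obtain ⟨J, j1, j2⟩ := Finset.exists_subset_card_eq hS
    exact ⟨j, c, J, le_rfl, id, j1, j2, fun h hh => hc h (j1 hh), by omega⟩
  | succ i ih =>
    obtain ⟨f, hf⟩ := ih
    refine ⟨max f (N * ((i + 1) * ((i + 1) * f) + 1)), ?_⟩
    intro j hj v S hS ⟨c, hc⟩
    rcases Nat.lt_or_ge j (i + 1) with hj' | hj'
    · exact hf j (by omega) v S ((le_max_left _ _).trans hS) ⟨c, hc⟩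
    have hji : j = i + 1 := by omega
    subst hji
    by_cases hheavy : ∃ l d, 1 ≤ l ∧ l ≤ i ∧ f ≤ (S.filter (fun h => v h l = d)).card
    · obtain ⟨l, d, h1, h2, h3⟩ := hheavy
      obtain ⟨i0, c', J, a1, a2, a3, a4, a5, a6⟩ := hf l h2 v _ h3
        ⟨d, fun h hh => (Finset.mem_filter.mp hh).2⟩
      exact ⟨i0, c', J, by omega, fun _ => a2 h1, a3.trans (Finset.filter_subset _ _), a4, a5, a6⟩
    · push Not at hheavy
      have hgr := greedy
        (fun a b => ∃ k l, 1 ≤ k ∧ k < i + 1 ∧ 1 ≤ l ∧ l < i + 1 ∧ v a k = v b l)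
        (fun a b ⟨k, l, h1, h2, h3, h4, h5⟩ => ⟨l, k, h3, h4, h1, h2, h5.symm⟩)
        ((i + 1) * ((i + 1) * f)) N S ?_ ((le_max_right _ _).trans hS)
      · obtain ⟨J, j1, j2, j3⟩ := hgr
        refine ⟨i + 1, c, J, le_rfl, id, j1, j2, fun h hh => hc h (j1 hh), ?_⟩
        intro a ha b hb hab k l h1 h2 h3 h4 h5
        exact j3 a ha b hb hab ⟨k, l, h1, h2, h3, h4, h5⟩
      · intro h _
        let B := (Finset.range (i + 1)).biUnion fun k => (Finset.Ico 1 (i + 1)).biUnion fun l =>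
          S.filter (fun h' => v h' l = v h k)
        have hB : B.card ≤ (i + 1) * ((i + 1) * f) := by
          refine (Finset.card_biUnion_le_card_mul _ _ ((i + 1) * f) ?_).trans (by simp)
          intro k _
          refine (Finset.card_biUnion_le_card_mul _ _ f ?_).trans
            (by simp only [Nat.card_Ico]; exact Nat.mul_le_mul_right _ (by omega))
          intro l hl
          rw [Finset.mem_Ico] at hl
          exact (hheavy l _ hl.1 (by omega)).le
        refine le_trans ?_ hB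
        rw [← Set.ncard_coe_finset]
        apply Set.ncard_le_ncard _ B.finite_toSet
        rintro x ⟨hx, k, l, h1, h2, h3, h4, h5⟩
        simp only [B, Finset.coe_biUnion, Finset.mem_coe, Set.mem_iUnion, Finset.mem_filter]
        exact ⟨k, Finset.mem_range.mpr h2, l, Finset.mem_Ico.mpr ⟨h3, h4⟩, hx, h5.symm⟩

variable {G : Type} [Group G]

lemma RC.cover_eps (ε : ℝ≥0∞) (hε : ε ≠ 0) : ∃ K : ℕ, 0 < K ∧ ∀ (S : Set G) (t : G) (A Z : Finset G),
    A.Nonempty → K * Z.card ≤ A.card → (∀ α ∈ A, ∃ z ∈ Z, α * z⁻¹ ∈ Subgroup.closure S) →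
    (∀ α ∈ A, ∃ z ∈ Z, t * α * z⁻¹ ∈ Subgroup.closure S) → RC S {t} ε := by
  obtain ⟨K, hK0, hK⟩ := num1 ε hε
  refine ⟨K, hK0, fun S t A Z h1 h2 h3 h4 => ?_⟩
  obtain ⟨p, hp⟩ := hK A.card Z.card h1.card_pos h2
  exact (RC.cover S t A Z p h3 h4).le hp

/-- In a group of bounded exponent every element is cheap over a large subgroup. -/
lemma RC.bounded_exp (n : ℕ) (hn : 0 < n) (hG : ∀ g : G, g ^ n = 1) (ε : ℝ≥0∞) (hε : ε ≠ 0) :
    ∃ m : ℕ, ∀ (H : Set G) (S : Finset G), (S : Set G) ⊆ Subgroup.closure H → m ≤ S.card →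
      ∀ b : G, RC H {b} ε := by
  classical
  have hε2 : ε / 2 ≠ 0 := by simp [hε]
  obtain ⟨K, hK0, hK⟩ := RC.cover_eps (G := G) (ε / 2) hε2
  obtain ⟨p, N0, hp⟩ := num2 n (ε / 2) hε2
  obtain ⟨f, hf⟩ := sunflower (α := G) (β := G) (max N0 (K * 2)) n
  refine ⟨f, fun H S hS hm b => ?_⟩
  obtain ⟨i0, c, J, a1, a2, a3, a4, a5, a6⟩ := hf n le_rfl (fun h i => (h * b) ^ i) S hm
    ⟨1, fun h _ => hG _⟩
  have hi0 := a2 hn
  have hJK : K * 2 ≤ J.card := a4 ▸ le_max_right _ _
  obtain ⟨h0, hh0⟩ : J.Nonempty := Finset.card_pos.mp (lt_of_lt_of_le (by positivity) hJK)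
  have hJH : ∀ h ∈ J, h ∈ Subgroup.closure H := fun h hh => hS (a3 hh)
  have hcomm : ∀ h ∈ J, Commute c (h * b) := fun h hh => by
    rw [← a5 h hh]; exact Commute.pow_self _ _
  have r1 : RC H {c} (ε / 2) := by
    have hA : ∀ α ∈ J.image (fun h => h * h0⁻¹), α ∈ Subgroup.closure H ∧ Commute c α := by
      intro α hα
      obtain ⟨h, hh, rfl⟩ := Finset.mem_image.mp hα
      refine ⟨mul_mem (hJH h hh) (inv_mem (hJH h0 hh0)), ?_⟩
      have := (hcomm h hh).mul_right (hcomm h0 hh0).inv_right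
      simpa [mul_assoc] using this
    refine hK H c (J.image (fun h => h * h0⁻¹)) {1, c} (Finset.Nonempty.image ⟨h0, hh0⟩ _) ?_ ?_ ?_
    · rw [Finset.card_image_of_injective _ (mul_left_injective _)]
      exact (Nat.mul_le_mul_left K Finset.card_le_two).trans hJK
    · intro α hα
      exact ⟨1, by simp, by simpa using (hA α hα).1⟩
    · intro α hα
      refine ⟨c, by simp, ?_⟩
      rw [(hA α hα).2.eq]
      simpa using (hA α hα).1
  have r2 : RC (insert c H) {b} (ε / 2) := by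
    refine (RC.patterns (insert c H) b {b} p n
      (fun h => (Finset.Ico 1 i0).image (fun k => (h * b) ^ k)) J ?_ ?_ ?_).le ?_
    · intro x hx y hy hxy
      rw [Function.onFun, Finset.disjoint_left]
      intro e h1 h2
      obtain ⟨k, hk, rfl⟩ := Finset.mem_image.mp h1
      obtain ⟨l, hl, h3⟩ := Finset.mem_image.mp h2
      rw [Finset.mem_Ico] at hk hl
      exact a6 x hx y hy hxy k l hk.1 hk.2 hl.1 hl.2 h3.symm
    · intro h _
      refine Finset.card_image_le.trans ?_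
      simp only [Nat.card_Ico]
      omega
    · intro h hh r hr hH hE
      have hh' : h ∈ Subgroup.closure (insert c H) :=
        Subgroup.closure_mono (Set.subset_insert _ _) (hJH h hh)
      have key : ∀ k, 1 ≤ k → k ≤ i0 → r b ((h * b) ^ k) := by
        intro k hk
        induction k, hk using Nat.le_induction with
        | base => intro _; simpa using hH h hh' b
        | succ k hk ih =>
          intro hk2
          have b1 := hE ((h * b) ^ k) (Finset.mem_image.mpr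
            ⟨k, Finset.mem_Ico.mpr ⟨hk, by omega⟩, rfl⟩) b (by simp)
          have b2 := hH h hh' (b * (h * b) ^ k)
          rw [← mul_assoc, ← pow_succ'] at b2
          exact hr.trans (ih (by omega)) (hr.trans b1 b2)
      have b3 := key i0 hi0 le_rfl
      rw [a5 h hh] at b3
      have b4 := hH c (Subgroup.subset_closure (Set.mem_insert _ _)) 1
      rw [mul_one] at b4
      exact hr.trans b4 (hr.symm b3)
    · simp only [Finset.card_singleton, Nat.cast_one, one_mul]
      exact hp _ (a4 ▸ le_max_left _ _)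
  have := r1.two r2 H {b} (fun W h0 h1 h2 => h2 (Set.insert_subset (h1 h0 rfl) h0))
  rwa [ENNReal.add_halves] at this

open Classical in
/-- The points of `B` moved out of `B` by an element of `T`. -/
noncomputable def out (B T : Finset G) : Finset G := B.filter (fun β => ∃ t ∈ T, t * β ∉ B)

lemma mem_out {B T : Finset G} {β : G} : β ∈ out B T ↔ β ∈ B ∧ ∃ t ∈ T, t * β ∉ B := by
  simp [out]

lemma out_mono (B : Finset G) {T T' : Finset G} (h : T ⊆ T') : out B T ⊆ out B T' := by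
  intro β hβ
  obtain ⟨h1, t, h2, h3⟩ := mem_out.mp hβ
  exact mem_out.mpr ⟨h1, t, h h2, h3⟩

lemma exists_cover (B T : Finset G) : ∃ Z : Finset G,
    (∀ β ∈ B, ∃ z ∈ Z, β * z⁻¹ ∈ Subgroup.closure (T : Set G)) ∧
    ∀ S : Finset G, (S : Set G) ⊆ Subgroup.closure (T : Set G) →
      S.card * Z.card ≤ B.card + S.card * (out B T).card := by
  classical
  let H := Subgroup.closure (T : Set G)
  let B0 := B.filter (fun β => ∀ h ∈ H, h * β ∈ B)
  let rep : G → G := fun β => (Quotient.mk (QuotientGroup.rightRel H) β).out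
  have hrep : ∀ β, β * (rep β)⁻¹ ∈ H := fun β =>
    QuotientGroup.rightRel_apply.mp (Quotient.mk_out (s := QuotientGroup.rightRel H) β)
  have hrep2 : ∀ β β', β' * β⁻¹ ∈ H → rep β = rep β' := fun β β' h => by
    simp only [rep]
    rw [Quotient.sound (s := QuotientGroup.rightRel H) (QuotientGroup.rightRel_apply.mpr h)]
  refine ⟨out B T ∪ B0.image rep, ?_, ?_⟩
  · intro β hβ
    by_cases h0 : β ∈ B0
    · exact ⟨rep β, Finset.mem_union_right _ (Finset.mem_image_of_mem _ h0), hrep β⟩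
    by_contra hc
    push Not at hc
    apply h0
    let C : Set G := {γ | γ ∈ B ∧ β * γ⁻¹ ∈ H}
    have hC : C.Finite := B.finite_toSet.subset (fun γ hγ => hγ.1)
    have hst : H ≤ MulAction.stabilizer G C := by
      apply (Subgroup.closure_le _).mpr
      intro t ht
      rw [SetLike.mem_coe, MulAction.mem_stabilizer_set_iff_smul_set_subset hC]
      rintro _ ⟨γ, ⟨h1, h2⟩, rfl⟩
      refine ⟨?_, ?_⟩
      · by_contra h3
        exact hc γ (Finset.mem_union_left _ (mem_out.mpr ⟨h1, t, ht, h3⟩)) h2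
      · have := mul_mem h2 (inv_mem (Subgroup.subset_closure ht))
        simpa [mul_assoc] using this
    refine Finset.mem_filter.mpr ⟨hβ, fun h hh => ?_⟩
    have h1 : h • C = C := hst hh
    have h2 : h * β ∈ h • C := ⟨β, ⟨hβ, by simp⟩, rfl⟩
    rw [h1] at h2
    exact h2.1
  · intro S hS
    have h1 : S.card * (B0.image rep).card ≤ B.card := by
      rw [← Finset.card_product]
      apply Finset.card_le_card_of_injOn (fun x => x.1 * x.2)
      · rintro ⟨s, z⟩ hx
        obtain ⟨hs, hz⟩ := Finset.mem_product.mp hx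
        obtain ⟨β, hβ, rfl⟩ := Finset.mem_image.mp hz
        have := (Finset.mem_filter.mp hβ).2 (s * (β * (rep β)⁻¹)⁻¹)
          (mul_mem (hS hs) (inv_mem (hrep β)))
        simpa [mul_assoc] using this
      · rintro ⟨s, z⟩ hx ⟨s', z'⟩ hx' he
        obtain ⟨hs, hz⟩ := Finset.mem_product.mp hx
        obtain ⟨hs', hz'⟩ := Finset.mem_product.mp hx'
        obtain ⟨β, hβ, rfl⟩ := Finset.mem_image.mp hz
        obtain ⟨β', hβ', rfl⟩ := Finset.mem_image.mp hz'
        simp only at he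
        have h2 : rep β = rep β' := by
          apply hrep2
          have e : β' * β⁻¹ = (β' * (rep β')⁻¹) * (s'⁻¹ * s) * (β * (rep β)⁻¹)⁻¹ := by
            have : s'⁻¹ * s = rep β' * (rep β)⁻¹ := by
              calc s'⁻¹ * s = s'⁻¹ * (s * rep β) * (rep β)⁻¹ := by group
                _ = _ := by rw [he]; group
            rw [this]; group
          rw [e]
          exact mul_mem (mul_mem (hrep β') (mul_mem (inv_mem (hS hs')) (hS hs))) (inv_mem (hrep β))
        rw [h2] at he ⊢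
        rw [mul_right_cancel he]
    have h2 := Finset.card_union_le (out B T) (B0.image rep)
    calc S.card * (out B T ∪ B0.image rep).card
        ≤ S.card * ((out B T).card + (B0.image rep).card) := Nat.mul_le_mul_left _ h2
      _ ≤ _ := by rw [mul_add]; omega

lemma card_out_inv (B : Finset G) (t : G) : (out B {t⁻¹}).card = (out B {t}).card := by
  classical
  have key : ∀ s : G, (out B {s}).card + (B.filter (fun β => s * β ∈ B)).card = B.card := by
    intro s
    have := Finset.card_filter_add_card_filter_not (s := B) (fun β => s * β ∈ B)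
    have e : out B {s} = B.filter (fun β => ¬ s * β ∈ B) := by
      ext β; simp [mem_out]
    rw [e]; omega
  have h : (B.filter (fun β => t⁻¹ * β ∈ B)).card = (B.filter (fun β => t * β ∈ B)).card := by
    apply Finset.card_nbij' (fun β => t⁻¹ * β) (fun β => t * β)
    · intro β hβ
      simp only [Finset.coe_filter, Set.mem_ofPred_eq] at hβ ⊢
      exact ⟨hβ.2, by simpa using hβ.1⟩
    · intro β hβ
      simp only [Finset.coe_filter, Set.mem_ofPred_eq] at hβ ⊢
      exact ⟨hβ.2, by simpa using hβ.1⟩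
    · intro β _; simp
    · intro β _; simp
  have := key t
  have := key t⁻¹
  omega

/-- `T` has almost invariant finite sets. -/
def Fol (T : Finset G) : Prop :=
  ∀ K : ℕ, ∃ B : Finset G, B.Nonempty ∧ K * (out B T).card ≤ B.card

variable [Countable G]

lemma RC.folner_eps (T : Finset G) (h : Fol T) (ε : ℝ≥0∞) (hε : ε ≠ 0) :
    RC ∅ (T : Set G) (1 + ε) := by
  classical
  obtain ⟨ε', hε', hε''⟩ : ∃ ε' : ℝ≥0∞, ε' ≠ 0 ∧ T.card * ε' ≤ ε :=
    ⟨ε / T.card, by simp [hε], ENNReal.mul_div_le⟩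
  obtain ⟨K, hK0, hK⟩ := num1 ε' hε'
  obtain ⟨B, hB, hBK⟩ := h (2 * K + 1)
  let In : G → Finset G := fun t => (B.filter (fun β => t * β ∈ B)).image (·⁻¹)
  let D : G → Finset G := fun t => (out B {t}).image (·⁻¹) ∪ (out B {t⁻¹}).image (fun β => β⁻¹ * t)
  have hp : ∀ t ∈ T, ∃ p : I, (D t).card * ENNReal.ofReal p +
      (1 - ENNReal.ofReal p) ^ (In t).card ≤ ε' := by
    intro t ht
    have h1 : (D t).card ≤ 2 * (out B {t}).card := by
      refine (Finset.card_union_le _ _).trans ?_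
      have a1 := Finset.card_image_le (s := out B {t}) (f := (·⁻¹))
      have a2 := Finset.card_image_le (s := out B {t⁻¹}) (f := fun β => β⁻¹ * t)
      have := card_out_inv B t
      omega
    have h2 : (In t).card + (out B {t}).card = B.card := by
      have := Finset.card_filter_add_card_filter_not (s := B) (fun β => t * β ∈ B)
      have e : out B {t} = B.filter (fun β => ¬ t * β ∈ B) := by
        ext β; simp [mem_out]
      rw [e, Finset.card_image_of_injective _ inv_injective]; omega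
    have h3 : (out B {t}).card ≤ (out B T).card :=
      Finset.card_le_card (out_mono B (by simpa using ht))
    have h4 := hB.card_pos
    have h5 : (2 * K + 1) * (out B {t}).card ≤ B.card := (Nat.mul_le_mul_left _ h3).trans hBK
    apply hK
    · rcases Nat.eq_zero_or_pos (out B {t}).card with h | h
      · omega
      · nlinarith
    · nlinarith
  choose! p hp using hp
  refine (RC.folner (B.image (·⁻¹)) T (hB.image _) In D p ?_ ?_).le (add_le_add le_rfl ?_)
  · intro t _ u hu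
    obtain ⟨β, hβ, rfl⟩ := Finset.mem_image.mp hu
    obtain ⟨h1, h2⟩ := Finset.mem_filter.mp hβ
    exact ⟨Finset.mem_image_of_mem _ h1, Finset.mem_image.mpr ⟨_, h2, by simp⟩⟩
  · intro t _ u hu
    obtain ⟨β, hβ, rfl⟩ := Finset.mem_image.mp hu
    constructor
    · by_cases h : t * β ∈ B
      · exact Or.inl (Finset.mem_image_of_mem _ (Finset.mem_filter.mpr ⟨hβ, h⟩))
      · exact Or.inr (Finset.mem_union_left _ (Finset.mem_image_of_mem _
          (mem_out.mpr ⟨hβ, t, by simp, h⟩)))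
    · by_cases h : t⁻¹ * β ∈ B
      · exact Or.inl (Finset.mem_image.mpr ⟨t⁻¹ * β, Finset.mem_filter.mpr ⟨h, by simpa using hβ⟩,
          by simp⟩)
      · exact Or.inr (Finset.mem_union_right _ (Finset.mem_image_of_mem _
          (mem_out.mpr ⟨hβ, t⁻¹, by simp, h⟩)))
  · refine (Finset.sum_le_sum hp).trans ?_
    simpa using hε''

lemma RC.chain (𝒮 : Set (Set G)) (h : ∀ ε : ℝ≥0∞, ε ≠ 0 → ∃ S ∈ 𝒮, RC ∅ S (1 + ε) ∧
    (∀ t, RC S {t} ε) ∧ ∀ S' ∈ 𝒮, RC S S' ε) (ε : ℝ≥0∞) (hε : ε ≠ 0) :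
    RC ∅ (Set.univ : Set G) (1 + ε) := by
  have hε2 : ε / 2 ≠ 0 := by simp [hε]
  obtain ⟨δ, hδ, hδε⟩ := ENNReal.exists_pos_sum_of_countable' hε2 ℕ
  choose S h1 h2 h3 h4 using fun k : ℕ => h (δ k / 2) (by simp [(hδ k).ne'])
  obtain ⟨t, ht⟩ := exists_surjective_nat G
  have r1 : ∀ k, RC (S k) (S (k + 1) ∪ {t k}) (δ k) := by
    intro k
    have := (h4 k _ (h1 (k + 1))).two (h3 k (t k)) (S k) (S (k + 1) ∪ {t k})
      (fun W a1 a2 a3 => Set.union_subset (a2 a1) (a3 a1))
    rwa [ENNReal.add_halves] at this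
  have r2 := RC.of_rules _ _ _ r1 (S 0) Set.univ (by
    intro W a1 a2 g _
    have : ∀ k, S k ⊆ W := by
      intro k
      induction k with
      | zero => exact a1
      | succ k ih => exact Set.subset_union_left.trans (a2 k ih)
    obtain ⟨k, rfl⟩ := ht g
    exact a2 k (this k) (Or.inr rfl))
  refine ((h2 0).two r2 ∅ Set.univ (fun W a1 a2 a3 => a3 (a2 a1))).le ?_
  rw [add_assoc]
  refine add_le_add le_rfl ?_
  calc δ 0 / 2 + ∑' i, δ i ≤ ε / 2 + ε / 2 :=
        add_le_add (ENNReal.half_le_self.trans ((ENNReal.le_tsum 0).trans hδε.le)) hδε.le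
    _ = ε := ENNReal.add_halves ε

lemma RC.of_base (S : Set G) (h1 : ∀ ε : ℝ≥0∞, ε ≠ 0 → RC ∅ S (1 + ε))
    (h2 : ∀ ε : ℝ≥0∞, ε ≠ 0 → ∀ t, RC S {t} ε) (ε : ℝ≥0∞) (hε : ε ≠ 0) :
    RC ∅ (Set.univ : Set G) (1 + ε) :=
  RC.chain {S} (fun ε hε => ⟨S, rfl, h1 ε hε, h2 ε hε, by rintro _ rfl; exact RC.refl _ _⟩) ε hε

end Pool.Agent.H718Z
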