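import Pool.Agent.H718Z.Frob

/-!
Groups of odd order acting without fixed points contain an element whose order is divisible by
every prime divisor of the group order.
-/

set_option autoImplicit false

namespace Pool.Agent.H718Z

open Subgroup

lemma mem_zpowers_prime {E : Type} [Group E] {g h : E} {p : ℕ} (hp : p.Prime)
    (hg : orderOf g = p) (hh : h ∈ zpowers g) (h1 : h ≠ 1) : g ∈ zpowers h := by
  have hle : zpowers h ≤ zpowers g := zpowers_le_of_mem hh
  have hd : orderOf h ∣ p := hg ▸ orderOf_dvd_of_mem_zpowers hh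
  have ho : orderOf h = p := by
    rcases (Nat.dvd_prime hp).mp hd with h2 | h2
    · exact absurd (orderOf_eq_one_iff.mp h2) h1
    · exact h2
  have : Finite (zpowers g) := by
    apply Nat.finite_of_card_ne_zero
    rw [Nat.card_zpowers, hg]; exact hp.ne_zero
  have := eq_of_le_of_card_ge hle (by rw [Nat.card_zpowers, Nat.card_zpowers, hg, ho])
  rw [this]; exact mem_zpowers g

/-- No subgroup of type `(p, p)`. -/
def A1 (E : Type) [Group E] (p : ℕ) : Prop :=
  ∀ x y : E, x ^ p = 1 → y ^ p = 1 → x ≠ 1 → x * y = y * x → y ∈ zpowers x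

/-- No nonabelian subgroup of order `p q`. -/
def A2 (E : Type) [Group E] : Prop :=
  ∀ x n : E, (orderOf x).Prime → (orderOf n).Prime → x * n * x⁻¹ ∈ zpowers n → x * n = n * x

section ring

variable {E R : Type} [Group E] [Finite E] [Ring R] (ψ : E →* R)
  (hc : ∀ g : E, g ≠ 1 → ∀ T : R, ψ g * T = T → T = 0)

include hc in
lemma norm_core (M : Subgroup E) (hM : M ≠ ⊥) (x : E) (p : ℕ) (hp : 0 < p) (a : M → E)
    (ha1 : ∀ m, a m ≠ 1) (hap : ∀ m, a m ^ p = 1)
    (hβ : ∀ i, 0 < i → i < p → ∃ β : M → M, Function.Injective β ∧ ∀ m, a m ^ i = β m * x ^ i) :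
    (Nat.card M : R) = 0 := by
  classical
  have : Fintype M := Fintype.ofFinite _
  have h1 : ∀ m, ∑ i ∈ Finset.range p, ψ (a m ^ i) = 0 := by
    intro m
    apply hc (a m) (ha1 m)
    have := mul_geom_sum (ψ (a m)) p
    rw [← map_pow, hap, map_one, sub_self, sub_mul, one_mul, sub_eq_zero] at this
    simpa only [map_pow] using this
  have h2 : ∑ m : M, ψ m = 0 := by
    obtain ⟨n, hn⟩ := (ne_bot_iff_exists_ne_one.mp hM)
    apply hc n (by simpa using hn)
    rw [Finset.mul_sum, ← Equiv.sum_comp (Equiv.mulLeft n) (fun m : M => ψ m)]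
    simp
  have h3 : ∑ m : M, ∑ i ∈ Finset.range p, ψ (a m ^ i) = 0 :=
    Finset.sum_eq_zero fun m _ => h1 m
  rw [Finset.sum_comm, Finset.sum_eq_single 0] at h3
  · simp only [pow_zero, map_one, Finset.sum_const, Finset.card_univ, nsmul_eq_mul, mul_one] at h3
    rwa [Fintype.card_eq_nat_card] at h3
  · intro i hi hi0
    obtain ⟨β, b1, b2⟩ := hβ i (Nat.pos_of_ne_zero hi0) (Finset.mem_range.mp hi)
    simp only [b2, map_mul]
    rw [← Finset.sum_mul]
    have := (Equiv.ofBijective β (Finite.injective_iff_bijective.mp b1)).sum_comp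
      (fun m : M => ψ m)
    simp only [Equiv.ofBijective_apply] at this
    rw [this, h2, zero_mul]
  · intro h
    exact absurd (Finset.mem_range.mpr hp) h

include hc in
lemma a1_of_ring (hq : ∀ q : ℕ, q.Prime → q ∣ Nat.card E → (q : R) ≠ 0) (p : ℕ) (hp : p.Prime) :
    A1 E p := by
  intro x y hx hy hx1 hxy
  by_contra hn
  have : Fact p.Prime := ⟨hp⟩
  have ho : orderOf x = p := orderOf_eq_prime hx hx1
  have hcard : Nat.card (zpowers x) = p := by rw [Nat.card_zpowers, ho]
  have hcomm : ∀ m : zpowers x, Commute (m : E) y := by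
    rintro ⟨m, k, rfl⟩
    exact Commute.zpow_left hxy k
  apply hq p hp (ho ▸ orderOf_dvd_natCard x)
  rw [← hcard]
  apply norm_core ψ hc (zpowers x) (by simpa using hx1) y p hp.pos (fun m => m * y)
  · intro m hm
    apply hn
    have : y = (m : E)⁻¹ := eq_inv_of_mul_eq_one_right hm
    rw [this]; exact inv_mem m.2
  · intro m
    have : m ^ p = 1 := by rw [← hcard]; exact pow_card_eq_one'
    rw [(hcomm m).mul_pow, hy, ← coe_pow, this]; simp
  · intro i hi hip
    have hcop : (Nat.card (zpowers x)).Coprime i := by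
      rw [hcard]
      exact (Nat.Prime.coprime_iff_not_dvd hp).mpr (Nat.not_dvd_of_pos_of_lt hi hip)
    refine ⟨powCoprime hcop, (powCoprime hcop).injective, ?_⟩
    intro m
    rw [(hcomm m).mul_pow]
    simp

include hc in
lemma a2_of_ring (hq : ∀ q : ℕ, q.Prime → q ∣ Nat.card E → (q : R) ≠ 0) : A2 E := by
  intro x n hx hn hxn
  by_contra hne
  have hn1 : n ≠ 1 := by rintro rfl; simp at hne
  have hx1 : x ≠ 1 := by rintro rfl; simp at hne
  have hnorm : ∀ m ∈ zpowers n, x * m * x⁻¹ ∈ zpowers n := by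
    rintro m ⟨k, rfl⟩
    simp only
    rw [← conj_zpow]
    exact zpow_mem hxn k
  have hnorm' : ∀ i : ℕ, ∀ m ∈ zpowers n, x ^ i * m * (x ^ i)⁻¹ ∈ zpowers n := by
    intro i
    induction i with
    | zero => simp
    | succ i ih =>
      intro m hm
      have := hnorm _ (ih m hm)
      have e : x ^ (i + 1) * m * (x ^ (i + 1))⁻¹ = x * (x ^ i * m * (x ^ i)⁻¹) * x⁻¹ := by group
      rw [e]; exact this
  apply hq _ hn (orderOf_dvd_natCard n)
  rw [← Nat.card_zpowers]
  apply norm_core ψ hc (zpowers n) (by simpa using hn1) x (orderOf x) hx.pos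
    (fun m => m * x * (m : E)⁻¹)
  · intro m hm
    apply hx1
    simpa using hm
  · intro m
    rw [conj_pow, pow_orderOf_eq_one]; simp
  · intro i hi hip
    refine ⟨fun m => ⟨m * (x ^ i * (m : E)⁻¹ * (x ^ i)⁻¹),
      mul_mem m.2 (hnorm' i _ (inv_mem m.2))⟩, ?_, ?_⟩
    · intro m m' h
      have h1 : (m : E) * (x ^ i * (m : E)⁻¹ * (x ^ i)⁻¹) =
          m' * (x ^ i * (m' : E)⁻¹ * (x ^ i)⁻¹) := congrArg Subtype.val h
      by_contra hmm
      have hk1 : (m' : E)⁻¹ * m ≠ 1 := by
        intro h2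
        apply hmm
        apply Subtype.ext
        exact (inv_mul_eq_one.mp h2).symm
      have hk : Commute ((m' : E)⁻¹ * m) (x ^ i) := by
        have : (m' : E)⁻¹ * m * x ^ i =
            (m' : E)⁻¹ * (m * (x ^ i * (m : E)⁻¹ * (x ^ i)⁻¹)) * x ^ i * m := by group
        rw [Commute, SemiconjBy, this, h1]; group
      obtain ⟨k, hk2⟩ := mem_zpowers_prime hn rfl (mul_mem (inv_mem m'.2) m.2) hk1
      obtain ⟨l, hl⟩ := mem_zpowers_prime hx rfl (pow_mem (mem_zpowers x) i)
        (pow_ne_one_of_lt_orderOf hi.ne' hip)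
      apply hne
      have := (hk.zpow_left k).zpow_right l
      simp only at hk2 hl
      rw [hk2, hl] at this
      exact this.symm
    · intro m
      rw [conj_pow]
      simp only
      group

end ring

lemma cyclic_of_a1 (p : ℕ) (hp : p.Prime) (hodd : Odd p) : ∀ (n : ℕ) (P : Type) [Group P]
    [Finite P], Nat.card P = n → IsPGroup p P → A1 P p → IsCyclic P := by
  intro n
  induction n using Nat.strong_induction_on with
  | _ n ih =>
  intro P _ _ hn hP h1
  have : Fact p.Prime := ⟨hp⟩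
  rcases subsingleton_or_nontrivial P with hs | hs
  · infer_instance
  obtain ⟨A, hA, -⟩ := (eq_top_or_exists_le_coatom (⊥ : Subgroup P)).resolve_left bot_ne_top
  have := hP.isNilpotent
  have hAn : A.Normal := NormalizerCondition.normal_of_coatom A
    Group.normalizerCondition_of_isNilpotent hA
  have hAc : IsCyclic A := by
    refine ih (Nat.card A) ?_ A rfl (hP.to_subgroup A) ?_
    · rw [← hn]
      by_contra hh
      exact hA.1 (eq_top_of_le_card A (not_lt.mp hh))
    · intro x y hx hy hx1 hxy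
      obtain ⟨k, hk⟩ := h1 x y (by rw [← coe_pow, hx]; rfl) (by rw [← coe_pow, hy]; rfl)
        (by simpa using hx1) (by rw [← coe_mul, hxy]; rfl)
      exact ⟨k, Subtype.ext (by simpa using hk)⟩
  obtain ⟨a, ha⟩ := (A.isCyclic_iff_exists_zpowers_eq_top).mp hAc
  by_contra hnc
  have haA : a ∈ A := ha ▸ mem_zpowers a
  have key : ∀ c, c ∉ A → a ∉ zpowers c := by
    intro c hc hac
    apply hnc
    have h2 : A ≤ zpowers c := ha ▸ zpowers_le_of_mem hac
    have h3 : zpowers c = ⊤ := hA.2 _ (lt_of_le_of_ne h2 (fun h => hc (h ▸ mem_zpowers c)))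
    exact isCyclic_iff_exists_zpowers_eq_top.mpr ⟨c, h3⟩
  obtain ⟨c0, hc0⟩ : ∃ c, c ∉ A := by
    by_contra hh
    push Not at hh
    exact hA.1 (eq_top_iff' A |>.mpr hh)
  have ha1 : a ≠ 1 := by
    rintro rfl
    exact key c0 hc0 (one_mem _)
  obtain ⟨c, hc, hcp⟩ : ∃ c, c ∉ A ∧ c ^ p ∈ A := by
    classical
    have hex : ∃ j : ℕ, c0 ^ p ^ j ∈ A := by
      obtain ⟨k, hk⟩ := hP c0
      exact ⟨k, hk ▸ one_mem A⟩
    have hj := Nat.find_spec hex
    have hj0 : Nat.find hex ≠ 0 := by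
      intro h
      rw [h] at hj
      exact hc0 (by simpa using hj)
    obtain ⟨j, hj1⟩ := Nat.exists_eq_succ_of_ne_zero hj0
    refine ⟨c0 ^ p ^ j, Nat.find_min hex (by omega), ?_⟩
    rw [← pow_mul, ← pow_succ]
    rw [hj1] at hj
    exact hj
  obtain ⟨e, he⟩ := (IsPGroup.iff_orderOf.mp hP) a
  have hpa : p ∣ orderOf a := hP.dvd_orderOf ha1
  obtain ⟨m, hm⟩ : ∃ m : ℕ, a ^ m = c ^ p := by
    rw [← ha] at hcp
    exact mem_powers_iff_mem_zpowers.mpr hcp
  obtain ⟨k, rfl⟩ : p ∣ m := by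
    by_contra hpm
    apply key c hc
    have : a ∈ zpowers (a ^ m) := by
      rw [mem_zpowers_pow_iff, he]
      exact ((Nat.Prime.coprime_iff_not_dvd hp).mpr hpm).symm.pow_right e
    rw [hm] at this
    exact zpowers_le_of_mem (pow_mem (mem_zpowers c) p) this
  obtain ⟨s, hs⟩ : ∃ s : ℕ, a ^ s = c * a * c⁻¹ := by
    have := hAn.conj_mem a haA c
    rw [← ha] at this
    exact mem_powers_iff_mem_zpowers.mpr this
  have hconj : ∀ i j : ℕ, c ^ i * a ^ j = a ^ (j * s ^ i) * c ^ i := by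
    intro i
    induction i with
    | zero => simp
    | succ i ih2 =>
      intro j
      have e1 : c * a ^ (j * s ^ i) = a ^ (j * s ^ (i + 1)) * c := by
        rw [pow_succ, ← mul_assoc j, mul_comm _ s, pow_mul a s, hs, conj_pow]; simp
      rw [pow_succ' c, mul_assoc, ih2, ← mul_assoc, e1, mul_assoc]
  have hs1 : s ≡ 1 [MOD p] := by
    have h2 := hconj p 1
    rw [← hm, one_mul, ← pow_add, ← pow_add, pow_eq_pow_iff_modEq, add_comm] at h2
    have h3 : 1 ≡ s ^ p [MOD p] := (Nat.ModEq.add_right_cancel' _ h2).of_dvd hpa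
    have h4 : s ^ p ≡ s [MOD p] := by
      rw [← ZMod.natCast_eq_natCast_iff]
      push_cast
      exact ZMod.pow_card _
    exact (h3.trans h4).symm
  obtain ⟨w, hw, hpw⟩ : ∃ w : ℕ, ∑ i ∈ Finset.range p, s ^ i = p * w ∧ ¬ p ∣ w := by
    obtain ⟨t, ht⟩ : (p : ℤ) ∣ (s : ℤ) - 1 := by
      have := hs1.symm.dvd
      simpa using this
    have h2 := odd_sq_dvd_geom_sum₂_sub (R := ℤ) 1 t hodd
    have e2 : (1 : ℤ) + p * t = s := by linarith
    simp only [e2, one_pow, mul_one] at h2
    obtain ⟨u, hu⟩ := h2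
    have h3 : ((∑ i ∈ Finset.range p, s ^ i : ℕ) : ℤ) = p * (1 + p * u) := by
      push_cast; linear_combination hu
    have h4 : (p : ℤ) ∣ ((∑ i ∈ Finset.range p, s ^ i : ℕ) : ℤ) := ⟨_, h3⟩
    obtain ⟨w, hw⟩ := Int.natCast_dvd_natCast.mp h4
    refine ⟨w, hw, ?_⟩
    rw [hw] at h3
    push_cast at h3
    have h5 : (w : ℤ) = 1 + p * u := mul_left_cancel₀ (by exact_mod_cast hp.ne_zero) h3
    intro h6
    have h7 : (p : ℤ) ∣ 1 + p * u := h5 ▸ Int.natCast_dvd_natCast.mpr h6
    have h8 : (p : ℤ) ∣ 1 := (dvd_add_left (dvd_mul_right _ _)).mp h7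
    exact hp.not_dvd_one (by exact_mod_cast h8)
  obtain ⟨k', hk'⟩ : ∃ k' : ℕ, (a ^ w) ^ k' = (a ^ k)⁻¹ := by
    have : a ∈ zpowers (a ^ w) := by
      rw [mem_zpowers_pow_iff, he]
      exact ((Nat.Prime.coprime_iff_not_dvd hp).mpr hpw).symm.pow_right e
    exact mem_powers_iff_mem_zpowers.mpr (inv_mem (pow_mem this k))
  have hb : ∀ i : ℕ, (a ^ k' * c) ^ i = a ^ (k' * ∑ j ∈ Finset.range i, s ^ j) * c ^ i := by
    intro i
    induction i with
    | zero => simp
    | succ i ih2 =>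
      rw [pow_succ, ih2, Finset.sum_range_succ, mul_add, pow_add, pow_succ c]
      have := hconj i k'
      calc a ^ (k' * ∑ j ∈ Finset.range i, s ^ j) * c ^ i * (a ^ k' * c)
          = a ^ (k' * ∑ j ∈ Finset.range i, s ^ j) * (c ^ i * a ^ k') * c := by group
        _ = _ := by rw [this]; group
  have hbp : (a ^ k' * c) ^ p = 1 := by
    rw [hb, hw, ← hm]
    have : a ^ (k' * (p * w)) = ((a ^ w) ^ k') ^ p := by
      rw [← pow_mul, ← pow_mul]; congr 1; ring
    rw [this, hk', inv_pow, ← pow_mul, mul_comm k p, inv_mul_cancel]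
  obtain ⟨d, hd⟩ := hpa
  have hzp : (a ^ d) ^ p = 1 := by rw [← pow_mul, mul_comm, ← hd, pow_orderOf_eq_one]
  have hz1 : a ^ d ≠ 1 := by
    have h0 : 0 < orderOf a := orderOf_pos a
    have hd0 : d ≠ 0 := by rintro rfl; simp [hd] at h0
    apply pow_ne_one_of_lt_orderOf hd0
    rw [hd]
    have := hp.two_le
    nlinarith [Nat.pos_of_ne_zero hd0]
  have hcz : c * a ^ d = a ^ d * c := by
    have h2 := hconj 1 d
    simp only [pow_one] at h2
    rw [h2, pow_mul]
    congr 1
    rw [← pow_one (a ^ d), ← pow_mul, pow_eq_pow_iff_modEq, orderOf_eq_prime hzp hz1, one_mul]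
    exact hs1
  have := h1 (a ^ d) (a ^ k' * c) hzp hbp hz1 (by
    rw [mul_assoc, hcz, ← mul_assoc, ← mul_assoc, pow_mul_comm])
  apply hc
  have h2 : a ^ k' * c ∈ A := zpowers_le_of_mem (pow_mem haA d) this
  simpa using mul_mem (inv_mem (pow_mem haA k')) h2

lemma exists_elem_all_primes (E : Type) [Group E] [Finite E] (hodd : Odd (Nat.card E))
    (h1 : ∀ p, p.Prime → A1 E p) (h2 : A2 E) :
    ∃ w : E, ∀ p, p.Prime → p ∣ Nat.card E → p ∣ orderOf w := by
  have hZ : IsZGroup E := by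
    refine ⟨fun p hp P => ?_⟩
    have : Fact p.Prime := ⟨hp⟩
    by_cases h : p = 2
    · subst h
      obtain ⟨n, hn⟩ := IsPGroup.iff_card.mp P.isPGroup'
      have h3 : Odd (Nat.card P) := Odd.of_dvd_nat hodd (card_subgroup_dvd_card (P : Subgroup E))
      rw [hn] at h3
      have : n = 0 := by
        by_contra hh
        exact (Nat.not_even_iff_odd.mpr h3) ((Nat.even_pow' hh).mpr even_two)
      rw [this, pow_zero] at hn
      have := (Nat.card_eq_one_iff_unique.mp hn).1
      infer_instance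
    · refine cyclic_of_a1 p hp (hp.odd_of_ne_two h) _ P rfl P.isPGroup' ?_
      intro x y hx hy hx1 hxy
      obtain ⟨k, hk⟩ := h1 p hp x y (by rw [← coe_pow, hx]; rfl) (by rw [← coe_pow, hy]; rfl)
        (by simpa using hx1) (by rw [← coe_mul, hxy]; rfl)
      exact ⟨k, Subtype.ext (by simpa using hk)⟩
  obtain ⟨H, hH⟩ := exists_right_complement'_of_coprime (IsZGroup.coprime_commutator_index E)
  have hHc : IsCyclic H := by
    have h1 : Abelianization E ≃* H := hH.symm.QuotientMulEquiv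
    exact isCyclic_of_surjective _ h1.surjective
  have hNc : IsCyclic (commutator E) := IsZGroup.isCyclic_commutator E
  have cc : ∀ K : Subgroup E, IsCyclic K → ∀ a ∈ K, ∀ b ∈ K, a * b = b * a := by
    intro K hK a ha b hb
    have := hK.isMulCommutative.is_comm.comm (⟨a, ha⟩ : K) ⟨b, hb⟩
    exact congrArg Subtype.val this
  let T : Set E := {g | (g ∈ commutator E ∨ g ∈ H) ∧ (orderOf g).Prime}
  have hmix : ∀ n x : E, n ∈ commutator E → (orderOf n).Prime → (orderOf x).Prime →
      x * n = n * x := by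
    intro n x hn hno hxo
    apply h2 x n hxo hno
    have hm : x * n * x⁻¹ ∈ commutator E := (inferInstance : (commutator E).Normal).conj_mem n hn x
    apply h1 _ hno n _ (pow_orderOf_eq_one n) (by rw [conj_pow, pow_orderOf_eq_one]; simp)
    · rintro rfl
      simp [Nat.not_prime_one] at hno
    · exact cc _ hNc _ hn _ hm
  have hT : ∀ a ∈ T, ∀ b ∈ T, a * b = b * a := by
    rintro a ⟨ha | ha, ha'⟩ b ⟨hb | hb, hb'⟩
    · exact cc _ hNc _ ha _ hb
    · exact (hmix a b ha ha' hb').symm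
    · exact hmix b a hb hb' ha'
    · exact cc _ hHc _ ha _ hb
  have hcm := isMulCommutative_closure hT
  let : CommGroup (closure T) :=
    { (inferInstance : Group (closure T)) with mul_comm := hcm.is_comm.comm }
  obtain ⟨w, hw⟩ := Monoid.exists_orderOf_eq_exponent (G := closure T) Monoid.ExponentExists.of_finite
  refine ⟨w, fun p hp hpE => ?_⟩
  have : Fact p.Prime := ⟨hp⟩
  rw [orderOf_coe, hw]
  obtain ⟨g, hg, hgo⟩ : ∃ g : E, (g ∈ commutator E ∨ g ∈ H) ∧ orderOf g = p := by
    rw [← hH.card_mul_card] at hpE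
    rcases (Nat.Prime.dvd_mul hp).mp hpE with h | h
    · obtain ⟨g, hg⟩ := exists_prime_orderOf_dvd_card' p h
      exact ⟨g, Or.inl g.2, by rw [orderOf_coe, hg]⟩
    · obtain ⟨g, hg⟩ := exists_prime_orderOf_dvd_card' p h
      exact ⟨g, Or.inr g.2, by rw [orderOf_coe, hg]⟩
  have hgT : g ∈ closure T := subset_closure ⟨hg, hgo ▸ hp⟩
  have := Monoid.order_dvd_exponent (⟨g, hgT⟩ : closure T)
  rwa [← orderOf_coe, hgo] at this

section FK

variable {F : Type} [Group F] [Finite F] {N : Subgroup F}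

omit [Finite F] in
lemma FK.inf {N' : Subgroup F} (h : FK N) (h' : FK N') : FK (N ⊓ N') := by
  obtain ⟨a1, a2, a3⟩ := h
  obtain ⟨b1, b2, b3⟩ := h'
  refine ⟨inferInstance, ?_, ?_⟩
  · intro hb
    obtain ⟨x, hx⟩ := ne_bot_iff_exists_ne_one.mp a2
    obtain ⟨y, hy⟩ := ne_bot_iff_exists_ne_one.mp b2
    have hyN : (y : F) ∉ N := by
      intro hh
      have : (y : F) ∈ N ⊓ N' := ⟨hh, y.2⟩
      rw [hb, mem_bot] at this
      exact hy (Subtype.ext this)
    have := commute_of_normal_of_disjoint N N' a1 b1 (disjoint_iff.mpr hb) x y x.2 y.2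
    exact hx (Subtype.ext (a3 y hyN x x.2 this.symm))
  · intro g hg k hk hgk
    by_cases h1 : g ∈ N
    · exact b3 g (fun h2 => hg ⟨h1, h2⟩) k hk.2 hgk
    · exact a3 g h1 k hk.1 hgk

lemma FK.not_dvd (h : FK N) {x : F} (hx : x ∉ N) {q : ℕ} (hq : q.Prime) (hxq : x ^ q = 1) :
    ¬ q ∣ Nat.card N := by
  obtain ⟨a1, a2, a3⟩ := h
  have : Fact q.Prime := ⟨hq⟩
  intro hd
  have hx1 : x ≠ 1 := by rintro rfl; exact hx (one_mem _)
  have hP : IsPGroup q (zpowers x) :=
    IsPGroup.of_card (n := 1) (by rw [Nat.card_zpowers, orderOf_eq_prime hxq hx1, pow_one])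
  let : MulAction (zpowers x) N :=
    MulAction.compHom N ((MulAut.conjNormal : F →* MulAut N).comp (zpowers x).subtype)
  have hs : ∀ (g : zpowers x) (k : N), ((g • k : N) : F) = g * k * (g : F)⁻¹ := fun g k => rfl
  obtain ⟨b, hb, hb1⟩ := hP.exists_fixed_point_of_prime_dvd_card_of_fixed_point N hd
    (a := 1) (by
      intro g
      apply Subtype.ext
      rw [hs]; simp)
  have := congrArg Subtype.val (hb ⟨x, mem_zpowers x⟩)
  rw [hs] at this
  apply hb1
  apply Subtype.ext
  exact (a3 x hx b b.2 (mul_inv_eq_iff_eq_mul.mp this)).symm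

omit [Finite F] in
lemma FK.pow_mem (h : FK N) {x : F} (hx : x ∉ N) {i : ℕ} (hi : x ^ i ∈ N) : x ^ i = 1 :=
  h.2.2 x hx _ hi (by group)

lemma FK.coprime (h : FK N) : (Nat.card N).Coprime N.index := by
  have := h.1
  by_contra hc
  obtain ⟨q, hq, h1, h2⟩ := Nat.Prime.not_coprime_iff_dvd.mp hc
  have : Fact q.Prime := ⟨hq⟩
  obtain ⟨y, hy⟩ := exists_prime_orderOf_dvd_card' (G := F ⧸ N) q h2
  obtain ⟨y, rfl⟩ := QuotientGroup.mk_surjective y
  have hyN : y ∉ N := by
    intro hh
    rw [(QuotientGroup.eq_one_iff y).mpr hh, orderOf_one] at hy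
    exact hq.one_lt.ne hy
  have h3 : y ^ q ∈ N := by
    rw [← QuotientGroup.eq_one_iff, QuotientGroup.mk_pow, ← hy, pow_orderOf_eq_one]
  exact h.not_dvd hyN hq (h.pow_mem hyN h3) h1

omit [Finite F] in
lemma FK.orderOf_dvd (h : FK N) {x : F} (hx : x ∉ N) : orderOf x ∣ N.index := by
  have := h.1
  have h1 : orderOf x ∣ orderOf (x : F ⧸ N) := by
    rw [orderOf_dvd_iff_pow_eq_one]
    apply h.pow_mem hx
    rw [← QuotientGroup.eq_one_iff, QuotientGroup.mk_pow, pow_orderOf_eq_one]
  exact h1.trans (orderOf_dvd_natCard _)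

lemma FK.exists_prime (h : FK N) {x : F} (hx : x ∉ N) :
    ∃ z : F, (orderOf z).Prime ∧ ¬ orderOf z ∣ orderOf x := by
  have h1 : Nat.card N ≠ 1 := fun hh => h.2.1 (card_eq_one.mp hh)
  obtain ⟨q, hq, hd⟩ := Nat.exists_prime_and_dvd h1
  have : Fact q.Prime := ⟨hq⟩
  obtain ⟨z, hz⟩ := exists_prime_orderOf_dvd_card' q hd
  refine ⟨z, by rw [orderOf_coe, hz]; exact hq, ?_⟩
  rw [orderOf_coe, hz]
  intro h2
  exact hq.one_lt.ne' (Nat.eq_one_of_dvd_coprimes h.coprime hd (h2.trans (h.orderOf_dvd hx)))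

lemma FK.inverts (h : FK N) {x : F} (hx : x ∉ N) (hx2 : x * x = 1) :
    ∀ k ∈ N, x * k * x⁻¹ = k⁻¹ := by
  let f : N → N := fun k => ⟨(k : F)⁻¹ * (x * k * x⁻¹), mul_mem (inv_mem k.2) (h.1.conj_mem _ k.2 x)⟩
  have hf : Function.Injective f := by
    intro a b hab
    have h1 : (a : F)⁻¹ * (x * a * x⁻¹) = (b : F)⁻¹ * (x * b * x⁻¹) := congrArg Subtype.val hab
    have h2 := h.2.2 x hx (b * (a : F)⁻¹) (mul_mem b.2 (inv_mem a.2)) (by
      have : (b : F) * (a : F)⁻¹ * x = b * ((a : F)⁻¹ * (x * a * x⁻¹)) * x * (a : F)⁻¹ := by group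
      rw [this, h1]; group)
    exact Subtype.ext (mul_inv_eq_one.mp h2).symm
  intro k hk
  obtain ⟨a, ha⟩ := Finite.injective_iff_surjective.mp hf ⟨k, hk⟩
  have h1 : (a : F)⁻¹ * (x * a * x⁻¹) = k := congrArg Subtype.val ha
  have hxi : x⁻¹ = x := inv_eq_of_mul_eq_one_right hx2
  rw [← h1]
  calc x * ((a : F)⁻¹ * (x * a * x⁻¹)) * x⁻¹ = x * (a : F)⁻¹ * x * a * (x * x)⁻¹ := by group
    _ = x * (a : F)⁻¹ * x⁻¹ * a := by rw [hx2, hxi]; group
    _ = _ := by group

lemma FK.exists_elem (h : FK N) (hodd : Odd (Nat.card F)) :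
    ∃ w : F, ∀ p, p.Prime → p ∣ N.index → p ∣ orderOf w := by
  have hN := h.1
  have h1 : Nat.card N ≠ 1 := fun hh => h.2.1 (card_eq_one.mp hh)
  obtain ⟨r, hr, hd⟩ := Nat.exists_prime_and_dvd h1
  have : Fact r.Prime := ⟨hr⟩
  let P : Sylow r F := default
  have hPN : (P : Subgroup F) ≤ N := by
    intro g hg
    by_contra hgN
    have hg1 : (⟨g, hg⟩ : P) ≠ 1 := by
      intro hh
      have : g = 1 := congrArg Subtype.val hh
      exact hgN (this ▸ one_mem N)
    have h2 := P.isPGroup'.dvd_orderOf hg1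
    rw [← orderOf_coe] at h2
    exact hr.one_lt.ne' (Nat.eq_one_of_dvd_coprimes h.coprime hd (h2.trans (h.orderOf_dvd hgN)))
  have hP1 : Nontrivial P := by
    have : (P : Subgroup F) ≠ ⊥ := P.ne_bot_of_dvd_card (hd.trans (card_subgroup_dvd_card N))
    exact (nontrivial_iff_ne_bot _).mpr this
  have hsup := Sylow.normalizer_sup_eq_top' P hPN
  let L : Subgroup F := normalizer (P : Set F)
  have hidx : (N.subgroupOf L).index = N.index := by
    change N.relIndex L = _
    rw [← relIndex_sup_right L N, hsup, relIndex_top_right]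
  have hcop : (Nat.card (N.subgroupOf L)).Coprime (N.subgroupOf L).index := by
    rw [hidx]
    refine Nat.Coprime.coprime_dvd_left ?_ h.coprime
    exact card_dvd_of_injective
      ((L.subtype.comp (N.subgroupOf L).subtype).codRestrict N (fun x => x.2))
      (fun a b hab => Subtype.ext (Subtype.ext (congrArg (fun x : N => (x : F)) hab)))
  obtain ⟨H, hH⟩ := exists_right_complement'_of_coprime hcop
  have hHc : Nat.card H = N.index := by rw [← hidx, hH.symm.index_eq_card]
  let V : Subgroup F := (P : Subgroup F) ⊓ centralizer (P : Set F)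
  let : CommGroup V := { (inferInstance : Group V) with
    mul_comm := fun a b => Subtype.ext (b.2.2 a a.2.1) }
  have hconj : ∀ (l : L) (v : V), (l : F) * v * (l : F)⁻¹ ∈ V := by
    intro l v
    refine ⟨(mem_set_normalizer_iff.mp l.2 v).mp v.2.1, ?_⟩
    intro g hg
    have h2 : (l : F)⁻¹ * g * l ∈ (P : Set F) := by
      have := (mem_set_normalizer_iff.mp (inv_mem l.2) g).mp hg
      simpa using this
    have h3 := v.2.2 _ h2
    calc g * (l * v * (l : F)⁻¹) = l * ((l : F)⁻¹ * g * l * v) * (l : F)⁻¹ := by group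
      _ = _ := by rw [h3]; group
  let ψ : H →* AddMonoid.End (Additive V) :=
    { toFun := fun g =>
        { toFun := fun v => Additive.ofMul ⟨_, hconj g v.toMul⟩
          map_zero' := by
            apply Additive.toMul.injective
            apply Subtype.ext
            simp
          map_add' := by
            intro a b
            apply Additive.toMul.injective
            apply Subtype.ext
            change _ * (((a.toMul : V) : F) * (b.toMul : V)) * _ = (_ * _ * _) * (_ * _ * _)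
            group }
      map_one' := by
        ext v
        change (1 : F) * ((v.toMul : V) : F) * (1 : F)⁻¹ = ((v.toMul : V) : F)
        simp
      map_mul' := by
        intro a b
        ext v
        change (((a : L) : F) * (b : L)) * _ * (((a : L) : F) * (b : L))⁻¹ = _ * (_ * _ * _) * _
        group }
  have hc : ∀ g : H, g ≠ 1 → ∀ T : AddMonoid.End (Additive V), ψ g * T = T → T = 0 := by
    intro g hg T hT
    ext v
    have h2 : ψ g (T v) = T v := congrArg (fun f : AddMonoid.End (Additive V) => f v) hT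
    have h3 : ((g : L) : F) * ((T v).toMul : V) * ((g : L) : F)⁻¹ = ((T v).toMul : V) :=
      congrArg Subtype.val (congrArg Additive.toMul h2)
    have hgN : ((g : L) : F) ∉ N := by
      intro hh
      have : (g : L) ∈ N.subgroupOf L ⊓ H := ⟨hh, g.2⟩
      rw [hH.disjoint.eq_bot, mem_bot] at this
      exact hg (Subtype.ext this)
    have := h.2.2 _ hgN _ (hPN (T v).toMul.2.1) (mul_inv_eq_iff_eq_mul.mp h3)
    exact this
  have hq : ∀ q : ℕ, q.Prime → q ∣ Nat.card H → (q : AddMonoid.End (Additive V)) ≠ 0 := by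
    intro q hq hqd h0
    have := P.isPGroup'.center_nontrivial
    obtain ⟨z, hz⟩ := exists_ne (1 : center P)
    have hzV : ((z : P) : F) ∈ V := by
      refine ⟨z.1.2, fun g hg => ?_⟩
      exact congrArg Subtype.val (mem_center_iff.mp z.2 ⟨g, hg⟩)
    have h2 := congrArg (fun f : AddMonoid.End (Additive V) => f (Additive.ofMul ⟨_, hzV⟩)) h0
    simp only [AddMonoid.End.natCast_apply, AddMonoid.End.zero_apply] at h2
    have h3 : ((z : P) : F) ^ q = 1 := congrArg Subtype.val (congrArg Additive.toMul h2)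
    have h4 : orderOf ((z : P) : F) ∣ N.index := (orderOf_dvd_of_pow_eq_one h3).trans (hHc ▸ hqd)
    have h5 : orderOf ((z : P) : F) ∣ Nat.card N := N.orderOf_dvd_natCard (hPN z.1.2)
    have h6 := orderOf_eq_one_iff.mp (Nat.eq_one_of_dvd_coprimes h.coprime h5 h4)
    exact hz (Subtype.ext (Subtype.ext h6))
  obtain ⟨w, hw⟩ := exists_elem_all_primes H
    (Odd.of_dvd_nat hodd (hHc ▸ index_dvd_card N)) (a1_of_ring ψ hc hq) (a2_of_ring ψ hc hq)
  refine ⟨((w : L) : F), fun p hp hpd => ?_⟩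
  rw [orderOf_coe, orderOf_coe]
  exact hw p hp (hHc ▸ hpd)

end FK

end Pool.Agent.H718Z
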