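import Pool.Agent.H718Z.Char

/-!
Induced characters and the theorem of Frobenius on malnormal subgroups of finite groups.
-/

set_option autoImplicit false

namespace Pool.Agent.H718Z

open Representation Module

section Frob

variable {F : Type} [Group F] [Fintype F] (C : Subgroup F)

open Classical in
/-- Extension by zero of a function on a subgroup. -/
noncomputable def ext0 (φ : C → ℂ) (x : F) : ℂ := if h : x ∈ C then φ ⟨x, h⟩ else 0

/-- Induced function. -/
noncomputable def ind (φ : C → ℂ) (g : F) : ℂ :=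
  (Nat.card C : ℂ)⁻¹ * ∑ t : F, ext0 C φ (t⁻¹ * g * t)

omit [Fintype F] in
lemma ext0_coe (φ : C → ℂ) (c : C) : ext0 C φ c = φ c := by
  simp [ext0]

omit [Fintype F] in
lemma ext0_not (φ : C → ℂ) {x : F} (h : x ∉ C) : ext0 C φ x = 0 := by
  simp [ext0, h]

lemma ind_sub_smul (φ ψ : C → ℂ) (d : ℂ) : ind C (φ - d • ψ) = ind C φ - d • ind C ψ := by
  ext g
  have : ∀ x, ext0 C (φ - d • ψ) x = ext0 C φ x - d * ext0 C ψ x := by
    intro x
    by_cases h : x ∈ C <;> simp [ext0, h]
  simp only [ind, this, Finset.sum_sub_distrib, ← Finset.mul_sum, Pi.sub_apply, Pi.smul_apply,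
    smul_eq_mul]
  ring

lemma sum_ext0 [Fintype C] (φ : C → ℂ) (ψ : F → ℂ) :
    ∑ x : F, ext0 C φ x * ψ x = ∑ c : C, φ c * ψ c := by
  classical
  rw [← Finset.sum_subset (s₁ := Finset.univ.filter (· ∈ C)) (Finset.subset_univ _)]
  · rw [Finset.sum_subtype (p := (· ∈ C)) _ (by simp)]
    apply Finset.sum_congr rfl
    intro c _
    rw [← ext0_coe C φ c]
  · intro x _ hx
    rw [ext0_not C φ (by simpa using hx), zero_mul]

omit [Group F] in
lemma trace_pi {V : Type} [AddCommGroup V] [Module ℂ V] [FiniteDimensional ℂ V]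
    [DecidableEq F] (A : V →ₗ[ℂ] V) (π : F → F) :
    LinearMap.trace ℂ (F → V) (LinearMap.pi fun t => A ∘ₗ LinearMap.proj (π t)) =
      ∑ t : F, if π t = t then LinearMap.trace ℂ V A else 0 := by
  have : (LinearMap.pi fun t => A ∘ₗ LinearMap.proj (π t) : (F → V) →ₗ[ℂ] (F → V)) =
      ∑ t : F, LinearMap.single ℂ (fun _ : F => V) t ∘ₗ (A ∘ₗ LinearMap.proj (π t)) := by
    ext s v x
    simp [Finset.sum_apply, Pi.single_apply]
  rw [this, map_sum]
  apply Finset.sum_congr rfl
  intro t _
  rw [LinearMap.trace_comp_comm']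
  split_ifs with h
  · congr 1
    ext v
    simp [h]
  · have : (A ∘ₗ LinearMap.proj (π t)) ∘ₗ LinearMap.single ℂ (fun _ : F => V) t = 0 := by
      ext v
      simp [h]
    rw [this, map_zero]

lemma IsChar.ind {φ : C → ℂ} (h : IsChar φ) : IsChar (ind C φ) := by
  classical
  obtain ⟨V, _, _, _, ρ, rfl⟩ := h
  have : Fintype C := Fintype.ofFinite _
  let lam : Representation ℂ F (F → V) :=
    { toFun := fun g => LinearMap.funLeft ℂ V (fun t => g⁻¹ * t)
      map_one' := by ext; simp
      map_mul' := by intro a b; ext; simp [LinearMap.funLeft, mul_assoc] }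
  let U : Subrepresentation lam :=
    { toSubmodule :=
        { carrier := {f | ∀ (c : C) (t : F), ρ c (f (t * c)) = f t}
          add_mem' := by
            intro a b ha hb c t
            simp [ha c t, hb c t]
          zero_mem' := by intro c t; simp
          smul_mem' := by
            intro a f hf c t
            simp [hf c t] }
      apply_mem_toSubmodule := by
        intro g f hf c t
        have := hf c (g⁻¹ * t)
        simpa [lam, LinearMap.funLeft, mul_assoc] using this }
  let P : (F → V) →ₗ[ℂ] (F → V) := (Nat.card C : ℂ)⁻¹ •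
    ∑ c : C, LinearMap.pi fun t : F => ρ c ∘ₗ LinearMap.proj (t * (c : F))
  have hP : ∀ f t, P f t = (Nat.card C : ℂ)⁻¹ • ∑ c : C, ρ c (f (t * c)) := by
    intro f t
    simp [P, Finset.sum_apply]
  have h1 : ∀ f, P f ∈ U.toSubmodule := by
    intro f c t
    rw [hP, hP, map_smul, map_sum]
    congr 1
    rw [← Equiv.sum_comp (Equiv.mulLeft c) (fun c' : C => ρ c' (f (t * c')))]
    apply Finset.sum_congr rfl
    intro c' _
    simp [mul_assoc]
  have h2 : ∀ f ∈ U.toSubmodule, P f = f := by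
    intro f hf
    ext t
    rw [hP]
    have hf' : ∀ (c : C) (t : F), ρ c (f (t * c)) = f t := hf
    simp only [hf', Finset.sum_const, Finset.card_univ]
    rw [Fintype.card_eq_nat_card, ← Nat.cast_smul_eq_nsmul ℂ, smul_smul,
      inv_mul_cancel₀ cardC_ne, one_smul]
  refine ⟨U.toSubmodule, inferInstance, inferInstance, inferInstance, U.toRepresentation, ?_⟩
  ext g
  rw [char_sub_of_proj lam U P h1 h2]
  have e : lam g ∘ₗ P = (Nat.card C : ℂ)⁻¹ •
      ∑ c : C, LinearMap.pi fun t : F => ρ c ∘ₗ LinearMap.proj (g⁻¹ * t * (c : F)) := by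
    apply LinearMap.ext
    intro f
    ext t
    change P f (g⁻¹ * t) = _
    rw [hP]
    simp [Finset.sum_apply]
  rw [e, map_smul, map_sum]
  simp only [trace_pi]
  rw [Finset.sum_comm, Pool.Agent.H718Z.ind, smul_eq_mul]
  congr 1
  apply Finset.sum_congr rfl
  intro t _
  by_cases ht : t⁻¹ * g * t ∈ C
  · rw [Finset.sum_eq_single ⟨_, ht⟩]
    · rw [if_pos (by simp [mul_assoc]), ext0, dif_pos ht]
      rfl
    · intro c _ hc
      rw [if_neg]
      intro h
      apply hc
      apply Subtype.ext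
      change (c : F) = t⁻¹ * g * t
      calc (c : F) = t⁻¹ * g * (g⁻¹ * t * c) := by group
        _ = _ := by rw [h]
    · simp
  · rw [ext0_not C _ ht]
    symm
    apply Finset.sum_eq_zero
    intro c _
    rw [if_neg]
    intro h
    apply ht
    have : (c : F) = t⁻¹ * g * t := by
      calc (c : F) = t⁻¹ * g * (g⁻¹ * t * c) := by group
        _ = _ := by rw [h]
    rw [← this]; exact c.2

lemma ind_conj (φ : C → ℂ) (g t : F) : ind C φ (t * g * t⁻¹) = ind C φ g := by
  unfold ind
  congr 1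
  rw [← Equiv.sum_comp (Equiv.mulLeft t)]
  apply Finset.sum_congr rfl
  intro s _
  congr 1
  simp [mul_assoc]

/-- Frobenius reciprocity for class functions. -/
lemma ip_ind [Fintype C] (φ : C → ℂ) (ψ : F → ℂ) (hψ : ∀ g t, ψ (t * g * t⁻¹) = ψ g) :
    ip (ind C φ) ψ = ip φ (fun c : C => ψ c) := by
  unfold ip ind
  simp only [mul_assoc _ (∑ _, _), ← Finset.mul_sum]
  simp only [Finset.sum_mul]
  rw [Finset.sum_comm]
  have : ∀ t : F, ∑ g : F, ext0 C φ (t⁻¹ * g * t) * ψ g⁻¹ = ∑ c : C, φ c * ψ (c : F)⁻¹ := by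
    intro t
    rw [← sum_ext0 C φ (fun x => ψ x⁻¹), ← Equiv.sum_comp (MulAut.conj t).toEquiv]
    apply Finset.sum_congr rfl
    intro x _
    have e1 : t⁻¹ * (MulAut.conj t).toEquiv x * t = x := by simp [mul_assoc]
    have e2 : ((MulAut.conj t).toEquiv x)⁻¹ = t * x⁻¹ * t⁻¹ := by simp [mul_assoc]
    rw [e1, e2, hψ]
  simp only [this, Finset.sum_const, Finset.card_univ, nsmul_eq_mul]
  rw [Fintype.card_eq_nat_card]
  have h1 : (Nat.card F : ℂ) ≠ 0 := cardC_ne
  simp only [Subgroup.coe_inv]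
  field_simp

/-- `C` is malnormal. -/
def Malnormal : Prop := ∀ g : F, g ∉ C → ∀ c ∈ C, g * c * g⁻¹ ∈ C → c = 1

variable {C}

lemma ind_restrict [Fintype C] (hC : Malnormal C) (θ : C → ℂ) (h1 : θ 1 = 0)
    (hθ : ∀ c t : C, θ (t * c * t⁻¹) = θ c) (c : C) : ind C θ c = θ c := by
  unfold ind
  by_cases hc : c = 1
  · subst hc
    have : ext0 C θ 1 = 0 := by rw [← h1, ← ext0_coe C θ 1]; rfl
    simp [this, h1]
  have e : ∀ t : F, ext0 C θ (t⁻¹ * c * t) = ext0 C (fun _ => θ c) t * 1 := by
    intro t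
    by_cases ht : t ∈ C
    · have := hθ c ⟨t, ht⟩⁻¹
      rw [← ext0_coe C θ] at this
      simp only [Subgroup.coe_mul, Subgroup.coe_inv, inv_inv] at this
      rw [this]
      simp [ext0, ht]
    · rw [ext0_not C _ ht, zero_mul, ext0_not]
      intro h
      apply hc
      apply Subtype.ext
      exact hC t⁻¹ (by simpa using ht) c c.2 (by simpa using h)
  simp only [e]
  rw [sum_ext0 C (fun _ => θ c) (fun _ => 1)]
  simp only [mul_one, Finset.sum_const, Finset.card_univ, nsmul_eq_mul]
  rw [Fintype.card_eq_nat_card, ← mul_assoc, inv_mul_cancel₀ cardC_ne, one_mul]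

/-- The set of elements with no conjugate among the nontrivial elements of `C`. -/
def KSet (C : Subgroup F) : Set F := {g | ∀ t : F, t⁻¹ * g * t ∈ C → g = 1}

omit [Fintype F] in
lemma KSet_pow (hC : Malnormal C) {g : F} (hg : g ∈ KSet C) (i : ℕ) : g ^ i ∈ KSet C := by
  intro t ht
  by_contra hne
  have h1 : t⁻¹ * g * t ∈ C := by
    by_contra h
    apply hne
    have h2 := hC _ h _ ht (by
      have : t⁻¹ * g * t * (t⁻¹ * g ^ i * t) * (t⁻¹ * g * t)⁻¹ = t⁻¹ * g ^ i * t := by group
      rw [this]; exact ht)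
    have : g ^ i = t * (t⁻¹ * g ^ i * t) * t⁻¹ := by group
    rw [this, h2]; simp
  rw [hg t h1] at hne
  simp at hne

lemma exists_normal_sep (hC : Malnormal C) (c : C) (hc : c ≠ 1) :
    ∃ N : Subgroup F, N.Normal ∧ KSet C ⊆ N ∧ (c : F) ∉ N := by
  classical
  have : Fintype C := Fintype.ofFinite _
  obtain ⟨χ, a1, a2, a3, a4⟩ := exists_irr c hc
  obtain ⟨d, hd⟩ := a1.nat
  have hd0 : 0 < d := by
    rcases Nat.eq_zero_or_pos d with rfl | h
    · have := a1.eq_zero (by simpa using hd)
      exact absurd (by simp [this]) a4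
    · exact h
  let θ : C → ℂ := χ - (d : ℂ) • 1
  have hθ1 : θ 1 = 0 := by simp [θ, hd]
  have hθ : ∀ c t : C, θ (t * c * t⁻¹) = θ c := by
    intro c t; simp [θ, a1.conj]
  let A : F → ℂ := ind C χ + (d : ℂ) • 1
  let B : F → ℂ := (d : ℂ) • ind C 1
  have hA : IsChar A := (a1.ind C).add (IsChar.one.nsmul d)
  have hB : IsChar B := (IsChar.one.ind C).nsmul d
  have e : A - B = ind C θ + (d : ℂ) • 1 := by
    simp only [A, B, θ, ind_sub_smul]; abel
  have r1 : (fun c : C => ind C θ c) = θ := funext (ind_restrict hC θ hθ1 hθ)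
  have i1 : ip (ind C θ) (ind C θ) = 1 + (d : ℂ) * d := by
    rw [ip_ind C θ _ (ind_conj C θ), r1]
    simp only [θ, ip_sub_left, ip_sub_right, ip_smul_left, ip_smul_right, a2, a3, ip_comm 1 χ,
      ip_one_one]
    ring
  have i2 : ip (ind C θ) 1 = -(d : ℂ) := by
    rw [ip_ind C θ _ (fun _ _ => rfl)]
    change ip θ 1 = _
    simp only [θ, ip_sub_left, ip_smul_left, a3, ip_one_one]
    ring
  have v1 : (A - B) 1 = d := by
    have := ind_restrict hC θ hθ1 hθ 1
    rw [hθ1, Subgroup.coe_one] at this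
    rw [e, Pi.add_apply, this]; simp
  obtain ⟨n, hn⟩ := hB.nat
  have hψ : IsChar (A - B) := by
    refine isChar_of_norm_one n A B hA hB hn ?_ ⟨d, hd0, v1⟩
    rw [e]
    simp only [ip_add_left, ip_add_right, ip_smul_left, ip_smul_right, i1, i2, ip_comm 1 (ind C θ),
      ip_one_one]
    ring
  obtain ⟨N, n1, n2, n3⟩ := kernel_of_char hψ
  refine ⟨N, n2, ?_, ?_⟩
  · intro g hg
    apply n3
    intro i
    have hgi := KSet_pow hC hg i
    rw [v1, e, Pi.add_apply]
    have : ind C θ (g ^ i) = 0 := by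
      unfold ind
      rw [Finset.sum_eq_zero, mul_zero]
      intro t _
      by_cases ht : t⁻¹ * g ^ i * t ∈ C
      · rw [hgi t ht]
        simp only [mul_one, inv_mul_cancel]
        rw [← hθ1, ← ext0_coe C θ 1]; rfl
      · exact ext0_not C _ ht
    rw [this]; simp
  · intro hcN
    have := n1 _ hcN
    rw [v1, e, Pi.add_apply, ind_restrict hC θ hθ1 hθ c] at this
    apply a4
    simp only [θ, Pi.sub_apply, Pi.smul_apply, Pi.one_apply, smul_eq_mul, mul_one] at this
    rw [hd]
    linear_combination this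

/-- A normal subgroup `N ≠ 1` no nontrivial element of which commutes with an element outside `N`. -/
def FK (N : Subgroup F) : Prop :=
  N.Normal ∧ N ≠ ⊥ ∧ ∀ g, g ∉ N → ∀ k ∈ N, g * k = k * g → k = 1

lemma exists_not_conj (hC : C ≠ ⊤) : ∃ g : F, ∀ t : F, t⁻¹ * g * t ∉ C := by
  classical
  by_contra h
  push Not at h
  have : Fintype (F ⧸ C) := Fintype.ofFinite _
  have h1 := MulAction.sum_card_fixedBy_eq_card_orbits_mul_card_group F (F ⧸ C)
  have h2 : Fintype.card (MulAction.orbitRel.Quotient F (F ⧸ C)) = 1 := by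
    rw [Fintype.card_eq_one_iff_nonempty_unique]
    have : Subsingleton (MulAction.orbitRel.Quotient F (F ⧸ C)) :=
      (MulAction.pretransitive_iff_subsingleton_quotient F (F ⧸ C)).mp inferInstance
    exact ⟨uniqueOfSubsingleton (Quotient.mk _ ((1 : F) : F ⧸ C))⟩
  rw [h2, one_mul] at h1
  have h3 : ∑ _g : F, 1 < ∑ g : F, Fintype.card (MulAction.fixedBy (F ⧸ C) g) := by
    apply Finset.sum_lt_sum
    · intro g _
      obtain ⟨t, ht⟩ := h g
      rw [Nat.succ_le_iff, Fintype.card_pos_iff]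
      refine ⟨⟨(t : F ⧸ C), ?_⟩⟩
      change ((g * t : F) : F ⧸ C) = t
      rw [eq_comm, QuotientGroup.eq]
      simpa [mul_assoc] using ht
    · refine ⟨1, Finset.mem_univ _, ?_⟩
      rw [Fintype.one_lt_card_iff]
      obtain ⟨x, hx⟩ : ∃ x, x ∉ C := by
        by_contra hh
        push Not at hh
        exact hC (Subgroup.eq_top_iff' C |>.mpr hh)
      refine ⟨⟨((1 : F) : F ⧸ C), by simp⟩, ⟨(x : F ⧸ C), by simp⟩, ?_⟩
      intro hh
      have := congrArg Subtype.val hh
      simp only [QuotientGroup.eq, inv_one, one_mul] at this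
      exact hx this
  rw [h1] at h3
  simp at h3

/-- The theorem of Frobenius. -/
theorem frobenius (hC : Malnormal C) (hne : C ≠ ⊤) :
    ∃ N : Subgroup F, FK N ∧ ∀ c ∈ C, c ∈ N → c = 1 := by
  let N : Subgroup F :=
    { carrier := KSet C
      one_mem' := fun _ _ => rfl
      inv_mem' := by
        intro g hg t ht
        have : t⁻¹ * g * t ∈ C := by
          have := C.inv_mem ht
          simpa [mul_assoc] using this
        simp [hg t this]
      mul_mem' := by
        intro a b ha hb t ht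
        by_contra hne
        have hc : (⟨_, ht⟩ : C) ≠ 1 := by
          intro h
          have h1 : t⁻¹ * (a * b) * t = 1 := congrArg Subtype.val h
          apply hne
          have : a * b = t * (t⁻¹ * (a * b) * t) * t⁻¹ := by group
          rw [this, h1]; simp
        obtain ⟨N, n1, n2, n3⟩ := exists_normal_sep hC _ hc
        apply n3
        have := n1.conj_mem _ (N.mul_mem (n2 ha) (n2 hb)) t⁻¹
        simpa using this }
  have hN : ∀ g, g ∈ N ↔ ∀ t : F, t⁻¹ * g * t ∈ C → g = 1 := fun g => Iff.rfl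
  refine ⟨N, ⟨⟨?_⟩, ?_, ?_⟩, ?_⟩
  · intro n hn g
    rw [hN] at hn ⊢
    intro t ht
    have := hn (g⁻¹ * t) (by simpa [mul_assoc] using ht)
    simp [this]
  · obtain ⟨g, hg⟩ := exists_not_conj hne
    intro h
    have h1 : g ∈ N := fun t ht => absurd ht (hg t)
    rw [h, Subgroup.mem_bot] at h1
    subst h1
    exact hg 1 (by simp)
  · intro g hg k hk hgk
    rw [hN] at hg hk
    push Not at hg
    obtain ⟨t, ht, hg1⟩ := hg
    apply hk t
    by_contra h
    apply hg1
    have h2 := hC _ h _ ht (by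
      have : t⁻¹ * k * t * (t⁻¹ * g * t) * (t⁻¹ * k * t)⁻¹ = t⁻¹ * (k * g) * k⁻¹ * t := by group
      rw [this, ← hgk]
      simpa [mul_assoc] using ht)
    have : g = t * (t⁻¹ * g * t) * t⁻¹ := by group
    rw [this, h2]; simp
  · intro c hc hcN
    exact hcN 1 (by simpa using hc)

end Frob

end Pool.Agent.H718Z
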