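import Pool.Agent.H718Z.Main

/-!
Groups of cost greater than one: a paradoxical decomposition with a half of three pieces.
-/

set_option autoImplicit false

namespace Pool.Agent.H718Z

open MeasureTheory
open scoped ENNReal Pointwise

variable {G : Type} [Group G]

lemma eqvGen_to_rtg {X : Type} {r : X → X → Prop} {s : X → X → Prop}
    (h1 : ∀ x y, r x y → s x y) (h2 : ∀ x y, s x y → s y x) {x y : X}
    (h : Relation.EqvGen r x y) : Relation.ReflTransGen s x y := by
  induction h with
  | rel x y h => exact Relation.ReflTransGen.single (h1 x y h)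
  | refl x => exact Relation.ReflTransGen.refl
  | symm x y _ ih =>
    clear * - ih h2
    induction ih with
    | refl => exact Relation.ReflTransGen.refl
    | tail _ a ih => exact Relation.ReflTransGen.head (h2 _ _ a) ih
  | trans x y z _ _ ih1 ih2 => exact ih1.trans ih2

lemma exists_eps {c : ℝ≥0∞} (hc : 1 < c) : ∃ ε : ℝ≥0∞, ε ≠ 0 ∧ 1 + ε < c := by
  obtain ⟨ε, h1, h2⟩ := ENNReal.lt_iff_exists_add_pos_lt.mp hc
  exact ⟨ε, by simpa using h1.ne', h2⟩

/-- If the cost bound fails then there is a decomposition with a half of three pieces. -/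
theorem three_of_not_rc [Countable G] (ε : ℝ≥0∞) (hε : ε ≠ 0) (hG : ∀ g : G, IsOfFinOrder g)
    (h : ¬ RC ∅ (Set.univ : Set G) (1 + ε)) :
    ∃ m n : ℕ, min m n = 3 ∧
      ∃ (P : Fin m → Set G) (Q : Fin n → Set G) (g : Fin m → G) (h : Fin n → G),
        (∀ i j, i ≠ j → Disjoint (P i) (P j)) ∧
        (∀ i j, i ≠ j → Disjoint (Q i) (Q j)) ∧
        (∀ i j, Disjoint (P i) (Q j)) ∧
        (⋃ i, (fun x : G => g i * x) '' P i) = Set.univ ∧
        (⋃ j, (fun x : G => h j * x) '' Q j) = Set.univ := by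
  classical
  rcases Classical.em (BF G) with hBF | hBF
  · refine absurd (rc_of_fol2 (fun a b => fol_of_finite _ ?_) ε hε) h
    rw [Finset.coe_pair]
    exact hBF a b
  obtain ⟨a, b, hab⟩ := exists_pair_of_not_BF hBF
  rcases Classical.em (PropP ({a, b} : Finset G)) with hP | hP
  · refine absurd (rc_of_propP {a, b} ?_ hP ε hε) h
    rwa [Finset.coe_pair]
  obtain ⟨S, hS⟩ := hall_of_not_propP _ hP
  obtain ⟨n, s, hn, hs⟩ := exists_enum S 3
  refine ⟨3, n, min_eq_left hn, paradox ![1, a, b] s _ S ?_ hs hS⟩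
  intro x hx
  simp only [Finset.mem_insert, Finset.mem_singleton] at hx
  rcases hx with rfl | rfl | rfl
  · exact ⟨0, rfl⟩
  · exact ⟨1, rfl⟩
  · exact ⟨2, rfl⟩

end Pool.Agent.H718Z
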