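import Pool.Agent.H718Z.Cost

/-!
Groups whose pairs of elements have almost invariant sets have cost at most one; paradoxical
decompositions from the marriage theorem.
-/

set_option autoImplicit false

namespace Pool.Agent.H718Z

open MeasureTheory
open scoped ENNReal unitInterval Pointwise

variable {G : Type} [Group G]

lemma exists_finset_of_infinite {H : Subgroup G} (h : ¬ Finite H) (m : ℕ) :
    ∃ S : Finset G, (S : Set G) ⊆ H ∧ S.card = m := by
  have : (H : Set G).Infinite := fun hf => h hf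
  exact this.exists_subset_card_eq m

lemma exists_finset_of_finite (H : Subgroup G) [Finite H] :
    ∃ S : Finset G, (S : Set G) = H ∧ S.card = Nat.card H := by
  have hF : (H : Set G).Finite := Set.toFinite _
  exact ⟨hF.toFinset, hF.coe_toFinset, by
    rw [← Set.ncard_eq_toFinset_card _ hF]; rfl⟩

lemma fol_of_finite (T : Finset G) (h : Finite (Subgroup.closure (T : Set G))) : Fol T := by
  intro K
  obtain ⟨B, h1, h2⟩ := exists_finset_of_finite (Subgroup.closure (T : Set G))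
  have hB : ∀ g, g ∈ B ↔ g ∈ Subgroup.closure (T : Set G) := fun g => by
    rw [← Finset.mem_coe, h1]; rfl
  refine ⟨B, ⟨1, (hB 1).mpr (one_mem _)⟩, ?_⟩
  have : out B T = ∅ := by
    rw [Finset.eq_empty_iff_forall_notMem]
    intro β hβ
    obtain ⟨a1, t, a2, a3⟩ := mem_out.mp hβ
    exact a3 ((hB _).mpr (mul_mem (Subgroup.subset_closure a2) ((hB _).mp a1)))
  simp [this]

lemma Fol.mono {T T' : Finset G} (h : Fol T') (hT : T ⊆ T') : Fol T := by
  intro K
  obtain ⟨B, h1, h2⟩ := h K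
  exact ⟨B, h1, (Nat.mul_le_mul_left _ (Finset.card_le_card (out_mono B hT))).trans h2⟩

section

variable [Countable G] [DecidableEq G]

lemma rc_of_unbounded (hF : ∀ a b : G, Fol {a, b})
    (h : ∀ m : ℕ, ∃ (g : G) (S : Finset G), (S : Set G) ⊆ Subgroup.zpowers g ∧ m ≤ S.card)
    (ε : ℝ≥0∞) (hε : ε ≠ 0) : RC ∅ (Set.univ : Set G) (1 + ε) := by
  refine RC.chain (Set.range fun g : G => ({g} : Set G)) ?_ ε hε
  intro ε hε
  obtain ⟨K, hK0, hK⟩ := RC.cover_eps (G := G) ε hε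
  obtain ⟨g, S, hS, hm⟩ := h (4 * K)
  have key : ∀ t, RC {g} {t} ε := by
    intro t
    obtain ⟨B, hB, hBK⟩ := hF g t (4 * K)
    obtain ⟨Z, hZ1, hZ2⟩ := exists_cover B {g}
    rw [Finset.coe_singleton] at hZ1 hZ2
    have h1 := hZ2 S (by rwa [← Subgroup.zpowers_eq_closure])
    have h2 : (out B {g}).card ≤ (out B {g, t}).card := Finset.card_le_card (out_mono B (by simp))
    have h3 : (out B {t}).card ≤ (out B {g, t}).card := Finset.card_le_card (out_mono B (by simp))
    have h4 : B.card ≤ (B \ out B {t}).card + (out B {t}).card := Finset.card_le_card_sdiff_add_card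
    have h5 := hB.card_pos
    have h6 : 2 * (K * Z.card) ≤ B.card := by
      have a1 : S.card * (4 * K * Z.card) ≤ S.card * (2 * B.card) := by
        have b1 : 4 * K * (S.card * Z.card) ≤ 4 * K * (B.card + S.card * (out B {g}).card) :=
          Nat.mul_le_mul_left _ h1
        have b2 : 4 * K * B.card ≤ S.card * B.card := Nat.mul_le_mul_right _ hm
        have b3 : S.card * (4 * K * (out B {g}).card) ≤ S.card * B.card :=
          Nat.mul_le_mul_left _ ((Nat.mul_le_mul_left _ h2).trans hBK)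
        nlinarith
      have a2 := Nat.le_of_mul_le_mul_left a1 (by omega)
      linarith
    have h7 : 4 * (out B {t}).card ≤ B.card := by nlinarith
    refine hK {g} t (B \ out B {t}) Z (Finset.card_pos.mp (by omega)) (by omega) ?_ ?_
    · intro α hα
      exact hZ1 α (Finset.mem_sdiff.mp hα).1
    · intro α hα
      obtain ⟨a1, a2⟩ := Finset.mem_sdiff.mp hα
      apply hZ1
      by_contra a3
      exact a2 (mem_out.mpr ⟨a1, t, by simp, a3⟩)
  refine ⟨{g}, ⟨g, rfl⟩, ?_, key, ?_⟩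
  · have := RC.folner_eps {g} ((hF g g).mono (by simp)) ε hε
    rwa [Finset.coe_singleton] at this
  · rintro _ ⟨t, rfl⟩
    exact key t

omit [DecidableEq G] in
lemma rc_of_locally_finite (hLF : ∀ s : Finset G, Finite (Subgroup.closure (s : Set G)))
    (h : ∀ m : ℕ, ∃ F : Subgroup G, Finite F ∧ m ≤ Nat.card F)
    (ε : ℝ≥0∞) (hε : ε ≠ 0) : RC ∅ (Set.univ : Set G) (1 + ε) := by
  classical
  refine RC.chain {S | ∃ F : Subgroup G, Finite F ∧ S = F} ?_ ε hε
  intro ε hε
  obtain ⟨K, hK0, hK⟩ := num1 ε hε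
  obtain ⟨F, hF, hm⟩ := h K
  obtain ⟨S, hS1, hS2⟩ := exists_finset_of_finite F
  obtain ⟨p, hp⟩ := hK S.card 1 (by omega) (by omega)
  rw [Nat.cast_one, one_mul] at hp
  have key : ∀ T : Finset G, RC (F : Set G) T ε := by
    intro T
    have := hLF (S ∪ T)
    refine (RC.finite_ext' S (Subgroup.closure ((S ∪ T : Finset G) : Set G)) ?_ p).mono hp ?_
    · intro x hx
      exact Subgroup.subset_closure (by simp [Finset.mem_coe.mp hx])
    · intro W a1 a2 x hx
      exact a2 (hS1 ▸ a1) (Subgroup.subset_closure (by simp [Finset.mem_coe.mp hx]))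
  refine ⟨F, ⟨F, hF, rfl⟩, (RC.finite_one F).le le_self_add, ?_, ?_⟩
  · intro t
    simpa using key {t}
  · rintro _ ⟨F', hF', rfl⟩
    obtain ⟨S', a1, -⟩ := exists_finset_of_finite F'
    rw [← a1]
    exact key S'

omit [Countable G] [DecidableEq G] in
lemma exp_of_bounded {m : ℕ}
    (hm : ∀ (g : G) (S : Finset G), (S : Set G) ⊆ Subgroup.zpowers g → S.card < m) :
    ∃ n : ℕ, 0 < n ∧ ∀ g : G, g ^ n = 1 := by
  refine ⟨m.factorial, m.factorial_pos, fun g => ?_⟩
  have h1 : Finite (Subgroup.zpowers g) := by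
    by_contra h1
    obtain ⟨S, a1, a2⟩ := exists_finset_of_infinite h1 m
    exact (hm g S a1).ne a2
  obtain ⟨S, a1, a2⟩ := exists_finset_of_finite (Subgroup.zpowers g)
  have h2 := hm g S a1.le
  rw [a2, Nat.card_zpowers] at h2
  have h3 : 0 < orderOf g := by rw [← Nat.card_zpowers]; exact Nat.card_pos
  exact orderOf_dvd_iff_pow_eq_one.mp (Nat.dvd_factorial h3 h2.le)

omit [Countable G] [DecidableEq G] in
lemma rc_inf {n : ℕ} (hn : 0 < n) (hexp : ∀ g : G, g ^ n = 1) (H : Set G)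
    (hH : ¬ Finite (Subgroup.closure H)) (ε : ℝ≥0∞) (hε : ε ≠ 0) (t : G) : RC H {t} ε := by
  obtain ⟨k, hk⟩ := RC.bounded_exp n hn hexp ε hε
  obtain ⟨S, a1, a2⟩ := exists_finset_of_infinite hH k
  exact hk H S a1 a2.ge t

omit [Countable G] [DecidableEq G] in
lemma big_of_BF (hBF : BF G) (hG : Infinite G) (M : ℕ) :
    ∃ F : Subgroup G, Finite F ∧ M ≤ Nat.card F := by
  by_contra hc
  push Not at hc
  have := finite_of_BF M G hBF (fun H hH => (hc H hH).le)
  exact not_finite G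

omit [DecidableEq G] in
lemma rc_of_big {n : ℕ} (hn : 0 < n) (hexp : ∀ g : G, g ^ n = 1)
    (hbig : ∀ M : ℕ, ∃ F : Subgroup G, Finite F ∧ M ≤ Nat.card F) (s : Finset G)
    (ε : ℝ≥0∞) (hε : ε ≠ 0) : RC ∅ (s : Set G) (1 + ε) := by
  obtain ⟨ε', hε', hε''⟩ : ∃ ε' : ℝ≥0∞, ε' ≠ 0 ∧ s.card * ε' ≤ ε :=
    ⟨ε / s.card, by simp [hε], ENNReal.mul_div_le⟩
  obtain ⟨k, hk⟩ := RC.bounded_exp n hn hexp ε' hε'
  obtain ⟨F, hF, hkF⟩ := hbig k
  obtain ⟨S, a1, a2⟩ := exists_finset_of_finite F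
  have a3 : (S : Set G) ⊆ Subgroup.closure (F : Set G) := by
    rw [a1]; exact Subgroup.subset_closure
  have a4 : k ≤ S.card := by rw [a2]; exact hkF
  have r1 := RC.finset s (fun t _ => hk F S a3 a4 t)
  exact ((RC.finite_one F).two r1 ∅ s (fun W b1 b2 b3 => b3 (b2 b1))).le (add_le_add le_rfl hε'')

omit [DecidableEq G] in
lemma rc_of_finite (hG : Finite G) (ε : ℝ≥0∞) : RC ∅ (Set.univ : Set G) (1 + ε) := by
  have h := RC.finite_one (⊤ : Subgroup G)
  rw [Subgroup.coe_top] at h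
  exact h.le le_self_add

omit [DecidableEq G] in
lemma rc_of_big' {n : ℕ} (hn : 0 < n) (hexp : ∀ g : G, g ^ n = 1)
    (hbig : ∀ M : ℕ, ∃ F : Subgroup G, Finite F ∧ M ≤ Nat.card F) (s : Finset G)
    (hs : ¬ Finite (Subgroup.closure (s : Set G)))
    (ε : ℝ≥0∞) (hε : ε ≠ 0) : RC ∅ (Set.univ : Set G) (1 + ε) := by
  have h1 := rc_of_big hn hexp hbig s
  have h2 := rc_inf hn hexp (s : Set G) hs
  exact RC.of_base (s : Set G) h1 h2 ε hε

omit [DecidableEq G] in
lemma rc_of_BF {n : ℕ} (hn : 0 < n) (hexp : ∀ g : G, g ^ n = 1) (hBF : BF G)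
    (ε : ℝ≥0∞) (hε : ε ≠ 0) : RC ∅ (Set.univ : Set G) (1 + ε) := by
  rcases finite_or_infinite G with hG | hG
  · exact rc_of_finite hG ε
  have hbig := big_of_BF hBF hG
  rcases Classical.em (∀ s : Finset G, Finite (Subgroup.closure (s : Set G))) with hLF | hLF
  · exact rc_of_locally_finite hLF hbig ε hε
  · have h := not_forall.mp hLF
    exact h.elim fun s hs => rc_of_big' hn hexp hbig s hs ε hε

lemma rc_of_pair {n : ℕ} (hn : 0 < n) (hexp : ∀ g : G, g ^ n = 1) (a b : G) (hF : Fol {a, b})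
    (hab : ¬ Finite (Subgroup.closure ({a, b} : Set G)))
    (ε : ℝ≥0∞) (hε : ε ≠ 0) : RC ∅ (Set.univ : Set G) (1 + ε) := by
  refine RC.of_base {a, b} (fun ε hε => ?_) (rc_inf hn hexp _ hab) ε hε
  have h3 := RC.folner_eps {a, b} hF ε hε
  rwa [Finset.coe_pair] at h3

omit [Countable G] [DecidableEq G] in
lemma exists_pair_of_not_BF (hBF : ¬ BF G) :
    ∃ a b : G, ¬ Finite (Subgroup.closure ({a, b} : Set G)) := by
  unfold BF at hBF
  obtain ⟨a, ha⟩ := not_forall.mp hBF
  obtain ⟨b, hb⟩ := not_forall.mp ha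
  exact ⟨a, b, hb⟩

theorem rc_of_fol2 (hF : ∀ a b : G, Fol {a, b}) (ε : ℝ≥0∞) (hε : ε ≠ 0) :
    RC ∅ (Set.univ : Set G) (1 + ε) := by
  rcases Classical.em (∀ m : ℕ, ∃ (g : G) (S : Finset G),
    (S : Set G) ⊆ Subgroup.zpowers g ∧ m ≤ S.card) with h | h
  · exact rc_of_unbounded hF h ε hε
  obtain ⟨m, hm⟩ := not_forall.mp h
  obtain ⟨n, hn, hexp⟩ := exp_of_bounded (G := G) (m := m)
    (fun g S h1 => lt_of_not_ge fun h2 => hm ⟨g, S, h1, h2⟩)
  rcases Classical.em (BF G) with hBF | hBF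
  · exact rc_of_BF hn hexp hBF ε hε
  · obtain ⟨a, b, hab⟩ := exists_pair_of_not_BF hBF
    exact rc_of_pair hn hexp a b (hF a b) hab ε hε

/-- Large sets with small boundary with respect to `T0`. -/
def PropP (T0 : Finset G) : Prop :=
  ∀ (T : Finset G) (K : ℕ), ∃ A B : Finset G, A.Nonempty ∧ T * A ⊆ B ∧
    K * (out B T0).card ≤ A.card

lemma rc_of_propP (T0 : Finset G) (hinf : ¬ Finite (Subgroup.closure (T0 : Set G)))
    (hP : PropP T0) (ε : ℝ≥0∞) (hε : ε ≠ 0) : RC ∅ (Set.univ : Set G) (1 + ε) := by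
  refine RC.of_base T0 (RC.folner_eps T0 ?_) ?_ ε hε
  · intro K
    obtain ⟨A, B, h1, h2, h3⟩ := hP {1} K
    have h4 : A ⊆ B := by
      intro x hx
      simpa using h2 (Finset.mul_mem_mul (Finset.mem_singleton_self 1) hx)
    exact ⟨B, h1.mono h4, h3.trans (Finset.card_le_card h4)⟩
  · intro ε hε t
    obtain ⟨K, hK0, hK⟩ := RC.cover_eps (G := G) ε hε
    obtain ⟨A, B, h1, h2, h3⟩ := hP {1, t} K
    obtain ⟨Z, hZ1, hZ2⟩ := exists_cover B T0
    obtain ⟨S, a1, a2⟩ := exists_finset_of_infinite hinf (B.card + 1)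
    have h4 := hZ2 S a1
    rw [a2] at h4
    have h5 : Z.card ≤ (out B T0).card := by
      by_contra hc
      have : (out B T0).card + 1 ≤ Z.card := by omega
      nlinarith
    refine hK T0 t A Z h1 ((Nat.mul_le_mul_left _ h5).trans h3) ?_ ?_
    · intro α hα
      apply hZ1
      simpa using h2 (Finset.mul_mem_mul (show (1 : G) ∈ ({1, t} : Finset G) by simp) hα)
    · intro α hα
      exact hZ1 _ (h2 (Finset.mul_mem_mul (by simp) hα))

end

section Hall

variable [DecidableEq G]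

lemma expand (T : Finset G) (K : ℕ)
    (h : ∀ A : Finset G, A.Nonempty → (K + 1) * A.card ≤ K * (T * A).card) (L : ℕ) :
    ∃ S : Finset G, ∀ A : Finset G, L * A.card ≤ (S * A).card := by
  have key : ∀ j : ℕ, ∀ A : Finset G, A.Nonempty →
      A.card ≤ (T ^ j * A).card ∧ (K + j) * A.card ≤ K * (T ^ j * A).card := by
    intro j
    induction j with
    | zero => intro A _; simp
    | succ j ih =>
      intro A hA
      obtain ⟨a1, a2⟩ := ih A hA
      have a3 := h (T ^ j * A) (Finset.card_pos.mp (lt_of_lt_of_le hA.card_pos a1))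
      rw [← mul_assoc, ← pow_succ'] at a3
      constructor
      · by_contra hc
        have : (T ^ (j + 1) * A).card ≤ (T ^ j * A).card := by omega
        have := hA.card_pos
        nlinarith
      · nlinarith
  have hK : 0 < K := by
    rcases Nat.eq_zero_or_pos K with rfl | hK
    · simpa using h {1} (by simp)
    · exact hK
  refine ⟨T ^ (K * L), fun A => ?_⟩
  rcases A.eq_empty_or_nonempty with rfl | hA
  · simp
  have := (key (K * L) A hA).2
  apply Nat.le_of_mul_le_mul_left _ hK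
  nlinarith

lemma hall_of_not_propP (T0 : Finset G) (hP : ¬ PropP T0) :
    ∃ S : Finset G, ∀ A1 A2 : Finset G,
      A1.card + A2.card ≤ (insert 1 T0 * A1 ∪ S * A2).card := by
  simp only [PropP, not_forall, not_exists, not_and, not_le] at hP
  obtain ⟨T, K, hP⟩ := hP
  have hout : ∀ A1 B : Finset G, insert 1 T0 * A1 ⊆ B → A1.card + (out B T0).card ≤ B.card := by
    intro A1 B hB
    rw [← Finset.card_union_of_disjoint]
    · apply Finset.card_le_card
      apply Finset.union_subset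
      · intro x hx
        simpa using hB (Finset.mul_mem_mul (Finset.mem_insert_self 1 T0) hx)
      · intro x hx
        exact (mem_out.mp hx).1
    · rw [Finset.disjoint_left]
      intro x h1 h2
      obtain ⟨-, t, a1, a2⟩ := mem_out.mp h2
      exact a2 (hB (Finset.mul_mem_mul (Finset.mem_insert_of_mem a1) h1))
  obtain ⟨S, hS⟩ := expand (insert 1 T0 * insert 1 T) K (by
    intro A hA
    have h1 : insert 1 T * A ⊆ insert 1 T0 * insert 1 T * A := by
      intro x hx
      rw [mul_assoc]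
      simpa using Finset.mul_mem_mul (Finset.mem_insert_self 1 T0) hx
    have h2 := hP A _ hA ((Finset.mul_subset_mul_right (Finset.subset_insert 1 T)).trans h1)
    have h3 := hout (insert 1 T * A) (insert 1 T0 * insert 1 T * A) (by rw [mul_assoc])
    have h4 : A.card ≤ (insert 1 T * A).card := by
      apply Finset.card_le_card
      intro x hx
      simpa using Finset.mul_mem_mul (Finset.mem_insert_self 1 T) hx
    nlinarith) (K + 1)
  refine ⟨T * S, fun A1 A2 => ?_⟩
  have h1 := hout A1 (insert 1 T0 * A1 ∪ T * S * A2) Finset.subset_union_left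
  rcases A2.eq_empty_or_nonempty with rfl | hA
  · simp only [Finset.card_empty] at h1 ⊢
    omega
  have h2 := hS A2
  have h3 := hA.card_pos
  have h4 := hP (S * A2) (insert 1 T0 * A1 ∪ T * S * A2)
    (Finset.card_pos.mp (by nlinarith)) (by rw [← mul_assoc]; exact Finset.subset_union_right)
  have h5 : A2.card ≤ (out (insert 1 T0 * A1 ∪ T * S * A2) T0).card := by
    by_contra hc
    have : (out (insert 1 T0 * A1 ∪ T * S * A2) T0).card ≤ A2.card := by omega
    nlinarith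
  omega

lemma hall_inj (S1 S2 : Finset G)
    (h : ∀ A1 A2 : Finset G, A1.card + A2.card ≤ (S1 * A1 ∪ S2 * A2).card) :
    ∃ φ : G ⊕ G → G, Function.Injective φ ∧ (∀ g, ∃ s ∈ S1, φ (Sum.inl g) = s * g) ∧
      ∀ g, ∃ s ∈ S2, φ (Sum.inr g) = s * g := by
  obtain ⟨φ, h1, h2⟩ := (Finset.all_card_le_biUnion_card_iff_exists_injective
    (fun x : G ⊕ G => Sum.elim (fun g => S1.image (· * g)) (fun g => S2.image (· * g)) x)).mp (by
      intro s
      rw [← Finset.card_toLeft_add_card_toRight]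
      refine (h _ _).trans (Finset.card_le_card (Finset.union_subset ?_ ?_))
      · intro x hx
        obtain ⟨a, ha, b, hb, rfl⟩ := Finset.mem_mul.mp hx
        exact Finset.mem_biUnion.mpr ⟨Sum.inl b, Finset.mem_toLeft.mp hb,
          Finset.mem_image_of_mem _ ha⟩
      · intro x hx
        obtain ⟨a, ha, b, hb, rfl⟩ := Finset.mem_mul.mp hx
        exact Finset.mem_biUnion.mpr ⟨Sum.inr b, Finset.mem_toRight.mp hb,
          Finset.mem_image_of_mem _ ha⟩)
  refine ⟨φ, h1, fun g => ?_, fun g => ?_⟩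
  · obtain ⟨s, a1, a2⟩ := Finset.mem_image.mp (h2 (Sum.inl g))
    exact ⟨s, a1, a2.symm⟩
  · obtain ⟨s, a1, a2⟩ := Finset.mem_image.mp (h2 (Sum.inr g))
    exact ⟨s, a1, a2.symm⟩

/-- A paradoxical decomposition with prescribed lists of translating elements. -/
lemma paradox {m n : ℕ} (s1 : Fin m → G) (s2 : Fin n → G) (S1 S2 : Finset G)
    (h1 : ∀ s ∈ S1, ∃ i, s1 i = s) (h2 : ∀ s ∈ S2, ∃ i, s2 i = s)
    (h : ∀ A1 A2 : Finset G, A1.card + A2.card ≤ (S1 * A1 ∪ S2 * A2).card) :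
    ∃ (P : Fin m → Set G) (Q : Fin n → Set G) (g : Fin m → G) (h : Fin n → G),
      (∀ i j, i ≠ j → Disjoint (P i) (P j)) ∧
      (∀ i j, i ≠ j → Disjoint (Q i) (Q j)) ∧
      (∀ i j, Disjoint (P i) (Q j)) ∧
      (⋃ i, (fun x : G => g i * x) '' P i) = Set.univ ∧
      (⋃ j, (fun x : G => h j * x) '' Q j) = Set.univ := by
  obtain ⟨φ, a1, a2, a3⟩ := hall_inj S1 S2 h
  have b2 : ∀ g, ∃ i, φ (Sum.inl g) = s1 i * g := fun g => by
    obtain ⟨s, c1, c2⟩ := a2 g
    obtain ⟨i, rfl⟩ := h1 s c1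
    exact ⟨i, c2⟩
  have b3 : ∀ g, ∃ i, φ (Sum.inr g) = s2 i * g := fun g => by
    obtain ⟨s, c1, c2⟩ := a3 g
    obtain ⟨i, rfl⟩ := h2 s c1
    exact ⟨i, c2⟩
  choose i1 hi1 using b2
  choose i2 hi2 using b3
  refine ⟨fun i => {x | ∃ g, i1 g = i ∧ x = φ (Sum.inl g)},
    fun i => {x | ∃ g, i2 g = i ∧ x = φ (Sum.inr g)}, fun i => (s1 i)⁻¹, fun i => (s2 i)⁻¹,
    ?_, ?_, ?_, ?_, ?_⟩
  · intro i j hij
    rw [Set.disjoint_left]
    rintro x ⟨g, rfl, rfl⟩ ⟨g', rfl, c⟩
    exact hij (congrArg i1 (Sum.inl_injective (a1 c)))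
  · intro i j hij
    rw [Set.disjoint_left]
    rintro x ⟨g, rfl, rfl⟩ ⟨g', rfl, c⟩
    exact hij (congrArg i2 (Sum.inr_injective (a1 c)))
  · intro i j
    rw [Set.disjoint_left]
    rintro x ⟨g, rfl, rfl⟩ ⟨g', rfl, c⟩
    exact Sum.inl_ne_inr (a1 c)
  · rw [Set.eq_univ_iff_forall]
    intro g
    exact Set.mem_iUnion.mpr ⟨i1 g, _, ⟨g, rfl, rfl⟩, by simp [hi1]⟩
  · rw [Set.eq_univ_iff_forall]
    intro g
    exact Set.mem_iUnion.mpr ⟨i2 g, _, ⟨g, rfl, rfl⟩, by simp [hi2]⟩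

omit [DecidableEq G] in
lemma exists_enum (S : Finset G) (k : ℕ) :
    ∃ (n : ℕ) (s : Fin n → G), k ≤ n ∧ ∀ x ∈ S, ∃ i, s i = x := by
  refine ⟨S.card + k, fun i => if h : i.1 < S.card then (S.equivFin.symm ⟨i.1, h⟩ : G) else 1,
    by omega, ?_⟩
  intro x hx
  refine ⟨⟨(S.equivFin ⟨x, hx⟩).1, lt_of_lt_of_le (S.equivFin ⟨x, hx⟩).2 (by omega)⟩, ?_⟩
  simp

end Hall

/-- Conversion of a graphing indexed by the group into one indexed by the natural numbers. -/
lemma exists_nat_graphing [Countable G] {c : ℝ≥0∞} (h : RC ∅ (Set.univ : Set G) c) :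
    ∃ (A : ℕ → Set (Bern G)) (f : ℕ → G), (∀ i, MeasurableSet (A i)) ∧ ∑' i, μB G (A i) ≤ c ∧
      ∀ (ω : Bern G) (g : G),
        Relation.EqvGen (fun y z => ∃ i, y ∈ A i ∧ z = f i • y) ω (g • ω) := by
  classical
  obtain ⟨Ψ, h1, h2⟩ := h
  have h3 := h2 Ψ (fun _ => le_rfl) (Set.empty_subset _)
  obtain ⟨e, he⟩ := Countable.exists_injective_nat G
  let A : ℕ → Set (Bern G) := Function.extend e (fun t => toMeasurable (μB G) (Ψ t)) (fun _ => ∅)
  let f : ℕ → G := Function.extend e id (fun _ => 1)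
  have hA : ∀ t, A (e t) = toMeasurable (μB G) (Ψ t) := fun t => he.extend_apply _ _ t
  have hf : ∀ t, f (e t) = t := fun t => he.extend_apply _ _ t
  have hA' : ∀ i, i ∉ Set.range e → A i = ∅ := fun i hi => Function.extend_apply' _ _ _ hi
  refine ⟨A, f, ?_, ?_, ?_⟩
  · intro i
    by_cases hi : i ∈ Set.range e
    · obtain ⟨t, rfl⟩ := hi
      rw [hA]; exact measurableSet_toMeasurable _ _
    · rw [hA' i hi]; exact MeasurableSet.empty
  · rw [← he.tsum_eq (f := fun i => μB G (A i))]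
    · simpa [hA, cost] using h1
    · intro i hi
      by_contra hc
      exact hi (by simp [hA' i hc])
  · intro ω g
    refine Relation.EqvGen.mono ?_ _ _ (h3 (Set.mem_univ g) ω)
    rintro y z ⟨t, a1, a2⟩
    exact ⟨e t, hA t ▸ subset_toMeasurable _ _ a1, by rw [hf, a2]⟩

lemma lower_half (hG : Monoid.IsTorsion G) {m n : ℕ} (hm : m ≤ 2) (P : Fin m → Set G)
    (Q : Fin n → Set G) (g : Fin m → G) (h : Fin n → G)
    (h1 : ∀ i j, i ≠ j → Disjoint (P i) (P j)) (h3 : ∀ i j, Disjoint (P i) (Q j))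
    (h4 : (⋃ i, (fun x : G => g i * x) '' P i) = Set.univ)
    (h5 : (⋃ j, (fun x : G => h j * x) '' Q j) = Set.univ) : False := by
  classical
  obtain ⟨j, q, hq, -⟩ := Set.mem_iUnion.mp (h5 ▸ Set.mem_univ (1 : G))
  obtain ⟨i0, -⟩ := Set.mem_iUnion.mp (h4 ▸ Set.mem_univ (1 : G))
  obtain ⟨s, hs⟩ : ∃ s : G, ∀ i, (g i0)⁻¹ * g i ∈ Subgroup.zpowers s := by
    by_cases hc : ∃ i, i ≠ i0
    · obtain ⟨i1, hi1⟩ := hc
      refine ⟨(g i0)⁻¹ * g i1, fun i => ?_⟩
      have : i = i0 ∨ i = i1 := by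
        have a1 := i.2
        have a2 := i0.2
        have a3 := i1.2
        have a4 : i1.1 ≠ i0.1 := fun h => hi1 (Fin.ext h)
        simp only [Fin.ext_iff]
        omega
      rcases this with rfl | rfl
      · simp
      · exact Subgroup.mem_zpowers _
    · push Not at hc
      exact ⟨1, fun i => by simp [hc i]⟩
  let H := Subgroup.zpowers s
  have : Finite H := (finite_zpowers.mpr (hG s)).to_subtype
  have hx : ∀ x : H, ∃ (i : Fin m) (y : H), (y : G) * q ∈ P i ∧
      (x : G) = (g i0)⁻¹ * g i * y := by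
    intro x
    obtain ⟨i, y, a1, a2⟩ := Set.mem_iUnion.mp (h4 ▸ Set.mem_univ (g i0 * x * q))
    simp only at a2
    have e : y = ((g i0)⁻¹ * g i)⁻¹ * x * q := by
      calc y = (g i)⁻¹ * (g i * y) := by group
        _ = _ := by rw [a2]; group
    refine ⟨i, ⟨((g i0)⁻¹ * g i)⁻¹ * x, mul_mem (inv_mem (hs i)) x.2⟩, e ▸ a1, by simp [mul_assoc]⟩
  choose J Y b1 b2 using hx
  have hY : Function.Injective Y := by
    intro x x' hxx
    have : J x = J x' := by
      by_contra hc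
      exact Set.disjoint_left.mp (h1 _ _ hc) (b1 x) (hxx ▸ b1 x')
    apply Subtype.ext
    rw [b2 x, b2 x', this, hxx]
  obtain ⟨x, hx⟩ := Finite.injective_iff_surjective.mp hY 1
  have := b1 x
  rw [hx] at this
  exact Set.disjoint_left.mp (h3 _ j) (by simpa using this) hq

end Pool.Agent.H718Z
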